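import Pool.Agent.DCP.Law

/-!
# Extended phase of the d-colour paths: the uniform law is invariant under cellwise permutations

PROOF. `F c = fun z => σ z (c z)` is a measurable equivalence with inverse `fun z => (σ z).symm (c z)` (`measurable_pi_iff`; maps on
`Fin d` are measurable). `(mu L ν).map F = mu L ν` by `mu_eq`: `F ⁻¹' (Set.pi s t) = Set.pi s (fun z => σ z ⁻¹' t z)`, `mu_box`, and
`ν (τ ⁻¹' B) = ν B` for a permutation `τ`, since `ν B = #B * ν {i}` (`hν`; e.g. `ν B = ∑ i ∈ B, ν {i}`,
`Measure.sum_measure_singleton`/`measure_biUnion_finset`). For an arbitrary set `S` use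
`MeasurePreserving.measure_preimage_equiv`.
-/

set_option autoImplicit false

namespace Pool.Agent.DCE

open MeasureTheory Pool.Agent.DCP

theorem mu_twist {L : Type} {d : ℕ} {ν : Measure (Fin d)} [IsProbabilityMeasure ν]
    (hν : ∀ i j, ν {i} = ν {j}) (σ : L → Equiv.Perm (Fin d)) (S : Set (L → Fin d)) :
    mu L ν {c | (fun z => σ z (c z)) ∈ S} = mu L ν S := by
  have hone : ∀ (τ : Equiv.Perm (Fin d)) (B : Set (Fin d)), ν (τ ⁻¹' B) = ν B := by
    intro τ B
    have hm : Measurable (τ : Fin d → Fin d) := measurable_of_finite _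
    have hmap : ν.map τ = ν := by
      refine (Measure.ext_iff_singleton).2 fun a => ?_
      rw [Measure.map_apply hm (measurableSet_singleton a)]
      have hs : (τ : Fin d → Fin d) ⁻¹' {a} = {τ.symm a} := by
        ext i
        simp only [Set.mem_preimage, Set.mem_singleton_iff]
        exact ⟨fun h => by rw [← h, Equiv.symm_apply_apply],
          fun h => by rw [h, Equiv.apply_symm_apply]⟩
      rw [hs]
      exact hν _ _
    calc ν (τ ⁻¹' B) = ν.map τ B := (Measure.map_apply hm MeasurableSet.of_discrete).symm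
      _ = ν B := by rw [hmap]
  let e : ∀ _ : L, Fin d ≃ᵐ Fin d := fun z =>
    ⟨σ z, measurable_of_finite _, measurable_of_finite _⟩
  let F : (L → Fin d) ≃ᵐ (L → Fin d) := MeasurableEquiv.piCongrRight e
  have hF : ∀ c, F c = fun z => σ z (c z) := fun c => rfl
  have hmap : (mu L ν).map F = mu L ν := by
    refine mu_eq fun s t => ?_
    rw [MeasurableEquiv.map_apply]
    have hs : F ⁻¹' Set.pi (s : Set L) t = Set.pi (s : Set L) (fun z => σ z ⁻¹' t z) := by
      ext c
      simp only [Set.mem_preimage, Set.mem_pi, hF]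
    rw [hs, mu_box]
    exact Finset.prod_congr rfl fun z _ => hone (σ z) (t z)
  calc mu L ν {c | (fun z => σ z (c z)) ∈ S} = mu L ν (F ⁻¹' S) := rfl
    _ = (mu L ν).map F S := (MeasurableEquiv.map_apply F S).symm
    _ = mu L ν S := by rw [hmap]

end Pool.Agent.DCE
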