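import Pool.Agent.DCE.Det
import Pool.Agent.DCE.Twist

/-!
# Extended phase of the d-colour paths: the union bound

PROOF. Let `S = {c | ∃ s ∈ EM, rb ∧ ¬Small}`. By `det`, `univ = ⋃ g, {ω | cg ω g ∈ S}`; `cg D T e ω g = fun z => σ z (ω z)` with
`σ z = e.symm.trans ((Equiv.addRight (g (rg D T z))).trans e)`, so by `mu_twist` every set of the union has measure `mu S`;
the number of `g : Fin d → A` is `d ^ d` (`Fintype.ofEquiv`, `Fintype.card_fun`; `A` has `d` elements by `e`): `measure_iUnion_fintype_le`.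
-/

set_option autoImplicit false

namespace Pool.Agent.DCE

open MeasureTheory Pool.Agent.DCP

variable {d : ℕ} [NeZero d] {L : Type} [AddCommGroup L]

theorem bad_prob {D : LD d L} {T : ℤ} (hL : ∀ z : L, (∀ i, i ≠ 0 → xc D i z = 0) → z = 0)
    (hT : 1 ≤ T) (hd : 2 ≤ d) (hG : Good d) {ν : Measure (Fin d)} [IsProbabilityMeasure ν]
    (hν : ∀ i j, ν {i} = ν {j}) :
    1 ≤ (d : ENNReal) ^ d * mu L ν {c | ∃ s ∈ EM D hL T, rb D c s ∧ ¬Small D T c s} := by
  classical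
  obtain ⟨A, K, iA, iK, e, hGA⟩ := hG
  have _ : Fintype A := Fintype.ofEquiv _ e.symm
  have hcard : Fintype.card A = d := by
    rw [Fintype.card_congr e, Fintype.card_fin]
  obtain ⟨S, hS⟩ : ∃ S : Set (L → Fin d),
      S = {c | ∃ s ∈ EM D hL T, rb D c s ∧ ¬Small D T c s} := ⟨_, rfl⟩
  rw [← hS]
  have h1 : (Set.univ : Set (L → Fin d)) ⊆ ⋃ g : Fin d → A, {ω | cg D T e ω g ∈ S} := by
    intro ω _
    obtain ⟨g, hg⟩ := det hL hT hd hGA ω
    refine Set.mem_iUnion.2 ⟨g, ?_⟩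
    show cg D T e ω g ∈ S
    rw [hS]
    exact hg
  have h2 : ∀ g : Fin d → A, mu L ν {ω | cg D T e ω g ∈ S} = mu L ν S := fun g =>
    mu_twist hν (fun z => e.symm.trans ((Equiv.addRight (g (rg D T z))).trans e)) S
  have h3 : (1 : ENNReal) ≤ ∑ g : Fin d → A, mu L ν {ω | cg D T e ω g ∈ S} := by
    calc (1 : ENNReal) = mu L ν Set.univ := measure_univ.symm
      _ ≤ mu L ν (⋃ g : Fin d → A, {ω | cg D T e ω g ∈ S}) := measure_mono h1
      _ ≤ ∑ g : Fin d → A, mu L ν {ω | cg D T e ω g ∈ S} := measure_iUnion_fintype_le _ _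
  simp only [h2] at h3
  rw [Finset.sum_const, Finset.card_univ, nsmul_eq_mul, Fintype.card_fun, Fintype.card_fin, hcard,
    Nat.cast_pow] at h3
  exact h3

end Pool.Agent.DCE
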