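import Pool.Agent.DCE.Cross

/-!
# Extended phase of the d-colour paths: the box and the discrete Stokes formula

`inM D T z`: the horizontal coordinates are in `[0, 2 T]`. `InBox D T z`: moreover the vertical coordinate is in `[0, 1]`.

PROOFS. `stokes`: let `S` be the (finite) set of states all of whose cells `cell D s k`, `k ≤ d`, are in the box. `S` is mapped to itself
by `J D c` (`J D c s = s` or a `turn` of `s`; the cells are the same, `cell_turn`, `cell_period`), and `w (J D c s) = - w s`, so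
`∑ s ∈ S, w s = 0` (`Finset.sum_involution`; if `w s ≠ 0` then `rb`, `J_ne`, `J_J`). The states `s ∈ S` with `R D s ∈ S` are permuted by
the involution `R D` (`R_R`, `w_R`, `R D s ≠ s` if `w s ≠ 0`), so their sum is `0` too. For `s ∈ S`: `R D s ∈ S` iff `(R D s).1` is in
the box (`cell_R`). Subtract.
`bdry`: write `a = letter s 0`, `b = letter s d`, `a ≠ b`. Let `i ≠ 0` be a coordinate. By `xc_R`,
`xc i (R D s).1 = xc i s.1 + [a = i] - [a = 0] - [b = i] + [b = 0]`; `cell s 1 = s.1 + v a`, `cell s d = s.1 - v b` are in the box.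
If `(R D s).1` violates `≤ N_i` (`N_i = 2T` or `1`): from `xc i (cell s 1) ≤ N_i` the term `- [b = i] + [b = 0]` is `1`: `b = 0`;
from `xc i (cell s d) = xc i s.1 + 1 ≤ N_i` one gets `a = i` and `xc i s.1 = N_i - 1`; all `fc D s j = cell s (j+1)` have
coordinate `xc i s.1 + 1` (`xc_cell`: the letter `i = a` is at place `0`, the letter `0 = b` at place `d`). If it violates `0 ≤`: in the same way
`b = i`, `a = 0`, `xc i s.1 = 1`, all `fc` have coordinate `0`. `i = last`: the cases `Up` and `Tp`.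
-/

set_option autoImplicit false

namespace Pool.Agent.DCE

open Pool.Agent.DCP

variable {d : ℕ} {L : Type} [AddCommGroup L]

/-- the horizontal coordinates are in `[0, 2 T]` -/
def inM (D : LD d L) (T : ℤ) (z : L) : Prop :=
  ∀ j : Fin d, 0 < (j : ℕ) → 0 ≤ xc D j.castSucc z ∧ xc D j.castSucc z ≤ 2 * T

/-- the box -/
def InBox (D : LD d L) (T : ℤ) (z : L) : Prop :=
  inM D T z ∧ 0 ≤ xc D (Fin.last d) z ∧ xc D (Fin.last d) z ≤ 1

/-- the upper vertical boundary -/
def Tp (D : LD d L) (s : St d L) : Prop :=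
  letter s 0 = Fin.last d ∧ letter s d = 0 ∧ xc D (Fin.last d) s.1 = 0

open Classical in
/-- the states with hole coordinates in `[a, b]` -/
noncomputable def BS (D : LD d L) (hL : ∀ z : L, (∀ i, i ≠ 0 → xc D i z = 0) → z = 0) (a b : ℤ) :
    Finset (St d L) := (finite_box D hL a b).toFinset

variable {D : LD d L} {hL : ∀ z : L, (∀ i, i ≠ 0 → xc D i z = 0) → z = 0} {T : ℤ}

private theorem last_ne (hd : 1 ≤ d) : Fin.last d ≠ 0 := by
  intro h
  have := congrArg Fin.val h
  simp at this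
  omega

private theorem cs_ne {j : Fin d} (hj : 0 < (j : ℕ)) : j.castSucc ≠ 0 := by
  intro h
  have := congrArg Fin.val h
  simp at this
  omega

private theorem last_ne_cs (j : Fin d) : Fin.last d ≠ j.castSucc := by
  intro h
  have := congrArg Fin.val h
  have hj := j.2
  simp at this
  omega

private theorem box_xc (hT : 1 ≤ T) {z : L} (h : InBox D T z) {i : Fin (d + 1)} (hi : i ≠ 0) :
    0 ≤ xc D i z ∧ xc D i z ≤ 2 * T := by
  by_cases hl : i = Fin.last d
  · rw [hl]
    have h1 := h.2.1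
    have h2 := h.2.2
    exact ⟨h1, by omega⟩
  · obtain ⟨j, rfl⟩ := Fin.exists_castSucc_eq.2 hl
    refine h.1 j ?_
    by_contra h1
    apply hi
    have h2 : (j : ℕ) = 0 := by omega
    ext
    simpa using h2

private theorem box_all {s : St d L} (h : ∀ k ≤ d, InBox D T (cell D s k)) (n : ℕ) :
    InBox D T (cell D s n) := by
  have h1 : ∀ m q : ℕ, cell D s (m + (d + 1) * q) = cell D s m := by
    intro m q
    induction q with
    | zero => rw [Nat.mul_zero, Nat.add_zero]
    | succ q ih => rw [Nat.mul_succ, ← Nat.add_assoc, cell_period, ih]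
  rw [← Nat.mod_add_div n (d + 1), h1]
  exact h _ (Nat.lt_succ_iff.1 (Nat.mod_lt _ (Nat.succ_pos d)))

private theorem xc_cell_one (s : St d L) (i : Fin (d + 1)) :
    xc D i (cell D s 1) = xc D i s.1 +
      ((if letter s 0 = i then 1 else 0) - (if letter s 0 = 0 then 1 else 0)) := by
  rw [cell_succ, cell_zero, xc_add, xc_v]

private theorem xc_cell_last (s : St d L) (i : Fin (d + 1)) :
    xc D i (cell D s d) = xc D i s.1 -
      ((if letter s d = i then 1 else 0) - (if letter s d = 0 then 1 else 0)) := by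
  have h := cell_succ D s d
  rw [cell_full] at h
  conv_rhs => rw [h, xc_add, xc_v]
  ring

private theorem viol_up (hd : 1 ≤ d) {s : St d L} {i : Fin (d + 1)} (hi : i ≠ 0) {N : ℤ}
    (hb : ∀ k ≤ d, 0 ≤ xc D i (cell D s k) ∧ xc D i (cell D s k) ≤ N)
    (h : N < xc D i (R D s).1) :
    letter s 0 = i ∧ letter s d = 0 ∧ xc D i s.1 = N - 1 ∧ ∀ j, xc D i (fc D s j) = N := by
  have h1 := (hb 1 hd).2
  have h2 := (hb d le_rfl).2
  rw [xc_R] at h
  rw [xc_cell_one] at h1
  rw [xc_cell_last] at h2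
  have a0 : letter s 0 = i := by
    by_contra hne
    rw [if_neg hne] at h h1
    split_ifs at h h1 h2 <;> omega
  have ad : letter s d = 0 := by
    by_contra hne
    rw [if_neg hne] at h h2
    split_ifs at h h1 h2 <;> omega
  have hx : xc D i s.1 = N - 1 := by
    rw [a0, ad, if_pos rfl, if_neg hi, if_neg (Ne.symm hi), if_pos rfl] at h
    rw [a0, if_pos rfl, if_neg hi] at h1
    omega
  refine ⟨a0, ad, hx, fun j => ?_⟩
  have hj := j.2
  rw [fc, xc_cell D s i (by omega), hx, if_pos ⟨0, by omega, a0⟩, if_neg]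
  · ring
  · rintro ⟨l, hl, h4⟩
    have := letter_inj s (show l ≤ d by omega) le_rfl (h4.trans ad.symm)
    omega

private theorem viol_dn (hd : 1 ≤ d) {s : St d L} {i : Fin (d + 1)} (hi : i ≠ 0) {N : ℤ}
    (hb : ∀ k ≤ d, 0 ≤ xc D i (cell D s k) ∧ xc D i (cell D s k) ≤ N)
    (h : xc D i (R D s).1 < 0) :
    letter s d = i ∧ letter s 0 = 0 ∧ xc D i s.1 = 1 ∧ ∀ j, xc D i (fc D s j) = 0 := by
  have h1 := (hb 1 hd).1
  have h2 := (hb d le_rfl).1
  rw [xc_R] at h
  rw [xc_cell_one] at h1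
  rw [xc_cell_last] at h2
  have a0 : letter s 0 = 0 := by
    by_contra hne
    rw [if_neg hne] at h h1
    split_ifs at h h1 h2 <;> omega
  have ad : letter s d = i := by
    by_contra hne
    rw [if_neg hne] at h h2
    split_ifs at h h1 h2 <;> omega
  have hx : xc D i s.1 = 1 := by
    rw [a0, ad, if_neg (Ne.symm hi), if_pos rfl, if_pos rfl, if_neg hi] at h
    rw [a0, if_neg (Ne.symm hi), if_pos rfl] at h1
    omega
  refine ⟨ad, a0, hx, fun j => ?_⟩
  have hj := j.2
  rw [fc, xc_cell D s i (by omega), hx, if_neg, if_pos ⟨0, by omega, a0⟩]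
  · ring
  · rintro ⟨l, hl, h4⟩
    have := letter_inj s (show l ≤ d by omega) le_rfl (h4.trans ad.symm)
    omega

theorem mem_BS {a b : ℤ} {s : St d L} :
    s ∈ BS D hL a b ↔ ∀ i, i ≠ 0 → a ≤ xc D i s.1 ∧ xc D i s.1 ≤ b := by
  rw [BS, Set.Finite.mem_toFinset]
  exact Iff.rfl

open Classical in
theorem stokes (hd : 1 ≤ d) (hT : 1 ≤ T) (c : L → Fin d) :
    ∑ s ∈ (BS D hL (-1) (2 * T + 1)).filter
      (fun s => (∀ k ≤ d, InBox D T (cell D s k)) ∧ ¬InBox D T (R D s).1), w D c s = 0 := by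
  obtain ⟨S, hS⟩ : ∃ S : Finset (St d L), S = (BS D hL (-1) (2 * T + 1)).filter
      (fun s => ∀ k ≤ d, InBox D T (cell D s k)) := ⟨_, rfl⟩
  have hmem : ∀ s, s ∈ S ↔ ∀ k ≤ d, InBox D T (cell D s k) := by
    intro s
    rw [hS, Finset.mem_filter]
    refine ⟨fun h => h.2, fun h => ⟨mem_BS.2 fun i hi => ?_, h⟩⟩
    have h0 := h 0 (Nat.zero_le _)
    rw [cell_zero] at h0
    have h1 := box_xc hT h0 hi
    omega
  have e : (BS D hL (-1) (2 * T + 1)).filter
      (fun s => (∀ k ≤ d, InBox D T (cell D s k)) ∧ ¬InBox D T (R D s).1) =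
      S.filter (fun s => ¬InBox D T (R D s).1) := by
    rw [hS, Finset.filter_filter]
  have h1 : ∑ s ∈ S, w D c s = 0 := by
    refine Finset.sum_involution (fun s _ => J D c s) ?_ ?_ ?_ ?_
    · intro s _
      rw [w_J hd, add_neg_cancel]
    · intro s _ h
      exact J_ne (w_ne h)
    · intro s hs
      rw [hmem] at hs ⊢
      by_cases hr : rb D c s
      · obtain ⟨j, hj⟩ := exists_fc_eq hr (c s.1)
        rw [J_eq hr hj]
        intro k _
        rw [cell_turn]
        exact box_all hs _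
      · rw [J_not hr]
        exact hs
    · intro s _
      exact J_J c s
  have h2 : ∑ s ∈ S.filter (fun s => InBox D T (R D s).1), w D c s = 0 := by
    refine Finset.sum_involution (fun s _ => R D s) ?_ ?_ ?_ ?_
    · intro s _
      rw [w_R hd, add_neg_cancel]
    · intro s _ h he
      apply h
      have h3 := w_R (D := D) hd c s
      rw [he] at h3
      omega
    · intro s hs
      rw [Finset.mem_filter, hmem] at hs ⊢
      refine ⟨fun k hk => ?_, ?_⟩
      · rcases Nat.eq_zero_or_pos k with rfl | hk0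
        · rw [cell_zero]
          exact hs.2
        · rw [cell_R D s hk0 hk]
          exact hs.1 k hk
      · rw [R_R]
        have h3 := hs.1 0 (Nat.zero_le _)
        rwa [cell_zero] at h3
    · intro s _
      exact R_R D s
  rw [e]
  have h3 := Finset.sum_filter_add_sum_filter_not S (fun s => InBox D T (R D s).1) (fun s => w D c s)
  rw [h1, h2, zero_add] at h3
  exact h3

theorem bdry (hd : 1 ≤ d) {s : St d L} (h : ∀ k ≤ d, InBox D T (cell D s k))
    (h' : ¬InBox D T (R D s).1) :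
    (∃ j : Fin d, 0 < (j : ℕ) ∧ ∀ i, xc D j.castSucc (fc D s i) = 2 * T) ∨
      (∃ j : Fin d, 0 < (j : ℕ) ∧ ∀ i, xc D j.castSucc (fc D s i) = 0) ∨ Up D s ∨ Tp D s := by
  rw [InBox, not_and_or, not_and_or, inM] at h'
  push Not at h'
  rcases h' with ⟨j, hj, h1⟩ | h1 | h1
  · have hj0 : j.castSucc ≠ 0 := cs_ne hj
    have hb : ∀ k ≤ d, 0 ≤ xc D j.castSucc (cell D s k) ∧ xc D j.castSucc (cell D s k) ≤ 2 * T :=
      fun k hk => (h k hk).1 j hj
    by_cases h2 : 0 ≤ xc D j.castSucc (R D s).1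
    · exact Or.inl ⟨j, hj, (viol_up hd hj0 hb (h1 h2)).2.2.2⟩
    · exact Or.inr (Or.inl ⟨j, hj, (viol_dn hd hj0 hb (not_le.1 h2)).2.2.2⟩)
  · have hb : ∀ k ≤ d, 0 ≤ xc D (Fin.last d) (cell D s k) ∧ xc D (Fin.last d) (cell D s k) ≤ 1 :=
      fun k hk => (h k hk).2
    obtain ⟨h2, h3, h4, -⟩ := viol_dn hd (last_ne hd) hb h1
    exact Or.inr (Or.inr (Or.inl ⟨h3, h2, h4⟩))
  · have hb : ∀ k ≤ d, 0 ≤ xc D (Fin.last d) (cell D s k) ∧ xc D (Fin.last d) (cell D s k) ≤ 1 :=
      fun k hk => (h k hk).2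
    obtain ⟨h2, h3, h4, -⟩ := viol_up hd (last_ne hd) hb h1
    exact Or.inr (Or.inr (Or.inr ⟨h2, h3, by omega⟩))

/-- the crossing edges over `M` are boundary states of the box -/
theorem Up_bdry (hd : 1 ≤ d) {s : St d L} (h : Up D s) :
    ((∀ k ≤ d, InBox D T (cell D s k)) ∧ ¬InBox D T (R D s).1) ↔ ∀ i, inM D T (fc D s i) := by
  obtain ⟨h1, h2, h3⟩ := h
  constructor
  · rintro ⟨h4, -⟩ i
    exact (h4 (i + 1) (by omega)).1
  · intro h4
    refine ⟨fun k hk => ?_, fun h5 => ?_⟩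
    · rcases Nat.eq_zero_or_pos k with rfl | hk0
      · rw [cell_zero]
        refine ⟨fun j hj => ?_, by rw [h3]; norm_num, by rw [h3]⟩
        have h5 := h4 ⟨d - 1, by omega⟩ j hj
        rw [fc, show ((⟨d - 1, by omega⟩ : Fin d) : ℕ) + 1 = d by
          show d - 1 + 1 = d
          omega, xc_cell_last, h2, if_neg (last_ne_cs j), if_neg (last_ne hd), sub_zero, sub_zero] at h5
        exact h5
      · obtain ⟨j, -, hj⟩ := exists_fc D s hk0 hk
        rw [← hj]
        refine ⟨h4 j, ?_, ?_⟩ <;> rw [Up_fc hd ⟨h1, h2, h3⟩ j] <;> norm_num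
    · have h6 := h5.2.1
      rw [xc_R, h1, h2, h3, if_pos rfl, if_neg (last_ne hd).symm, if_pos rfl, if_neg (last_ne hd)] at h6
      norm_num at h6

theorem Tp_fc (hd : 1 ≤ d) {s : St d L} (h : Tp D s) (j : Fin d) :
    xc D (Fin.last d) (fc D s j) = 1 := by
  obtain ⟨h1, h2, h3⟩ := h
  have hj := j.2
  rw [fc, xc_cell D s _ (by omega), h3, if_pos ⟨0, by omega, h1⟩, if_neg]
  · norm_num
  · rintro ⟨l, hl, h4⟩
    have := letter_inj s (show l ≤ d by omega) le_rfl (h4.trans h2.symm)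
    omega

theorem Tp_bdry (hd : 1 ≤ d) {s : St d L} (h : Tp D s) :
    ((∀ k ≤ d, InBox D T (cell D s k)) ∧ ¬InBox D T (R D s).1) ↔ ∀ i, inM D T (fc D s i) := by
  obtain ⟨h1, h2, h3⟩ := h
  constructor
  · rintro ⟨h4, -⟩ i
    exact (h4 (i + 1) (by omega)).1
  · intro h4
    refine ⟨fun k hk => ?_, fun h5 => ?_⟩
    · rcases Nat.eq_zero_or_pos k with rfl | hk0
      · rw [cell_zero]
        refine ⟨fun j hj => ?_, by rw [h3], by rw [h3]; norm_num⟩
        have h5 := h4 ⟨0, by omega⟩ j hj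
        rw [fc, show ((⟨0, by omega⟩ : Fin d) : ℕ) + 1 = 1 from rfl, xc_cell_one, h1,
          if_neg (last_ne_cs j), if_neg (last_ne hd), sub_zero, add_zero] at h5
        exact h5
      · obtain ⟨j, -, hj⟩ := exists_fc D s hk0 hk
        rw [← hj]
        refine ⟨h4 j, ?_, ?_⟩ <;> rw [Tp_fc hd ⟨h1, h2, h3⟩ j] <;> norm_num
    · have h6 := h5.2.2
      rw [xc_R, h1, h2, h3, if_pos rfl, if_neg (last_ne hd), if_neg (last_ne hd).symm, if_pos rfl] at h6
      norm_num at h6

theorem not_Up_Tp (hd : 1 ≤ d) {s : St d L} (h : Up D s) : ¬Tp D s := by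
  intro h1
  exact last_ne hd (h1.1.symm.trans h.1)

end Pool.Agent.DCE
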