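import Pool.Agent.DCP.Basic

/-!
# Extended phase of the d-colour paths: coordinates and regions

`xc D i z = rt i 0 z`, `i ≠ 0`: the coordinates of the cell `z`. Adding `v k`, `k ≠ 0`, adds `1` to the coordinate `k`;
adding `v 0` subtracts `1` from all coordinates. The last coordinate is the vertical one. `rg D T z` is the region of `z`:
the largest `j : Fin d`, `0 < j`, with `T ≤ xc D j.castSucc z`, and `0` if there is none.

PROOFS. `xc_v`: `LD.rt_v`. `rg`: `rg_spec` is `Nat.findGreatest_spec`/`Nat.findGreatest_of_ne_zero`, `le_rg` is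
`Nat.le_findGreatest`; `rg_mono` follows from these two. `xc_cell_le`: along the cells `cell D s k`, `k ≤ d`, of a vertex the
coordinate `i ≠ 0` changes by `+1` once (letter `i`), by `-1` once (letter `0`) and otherwise is constant, and
`cell D s (d+1) = cell D s 0`; so any two values differ by at most `1`: by `cell_succ` and `xc_v`,
`xc i (cell D s k) = xc i s.1 + [∃ l < k, letter s l = i] - [∃ l < k, letter s l = 0]` (induction on `k ≤ d + 1`, `letter_inj`).
-/

set_option autoImplicit false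

namespace Pool.Agent.DCE

open Pool.Agent.DCP

variable {d : ℕ} {L : Type} [AddCommGroup L]

/-- the coordinates -/
def xc (D : LD d L) (i : Fin (d + 1)) (z : L) : ℤ := D.rt i 0 z

theorem xc_v (D : LD d L) (i k : Fin (d + 1)) :
    xc D i (D.v k) = (if k = i then 1 else 0) - (if k = 0 then 1 else 0) := by
  exact D.rt_v i 0 k

theorem xc_add (D : LD d L) (i : Fin (d + 1)) (y z : L) : xc D i (y + z) = xc D i y + xc D i z := by
  exact map_add (D.rt i 0) y z

theorem xc_sub (D : LD d L) (i : Fin (d + 1)) (y z : L) : xc D i (y - z) = xc D i y - xc D i z := by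
  exact map_sub (D.rt i 0) y z

private theorem seen_succ (s : St d L) (i : Fin (d + 1)) {k : ℕ} (hk : k + 1 ≤ d + 1) :
    (if (∃ l < k + 1, letter s l = i) then (1 : ℤ) else 0) =
      (if (∃ l < k, letter s l = i) then 1 else 0) + (if letter s k = i then 1 else 0) := by
  by_cases h : letter s k = i
  · rw [if_pos ⟨k, by omega, h⟩, if_pos h, if_neg, zero_add]
    rintro ⟨l, hl, hl2⟩
    have := letter_inj s (by omega) (by omega) (hl2.trans h.symm)
    omega
  · rw [if_neg h, add_zero]
    by_cases h2 : ∃ l < k, letter s l = i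
    · obtain ⟨l, hl, hl2⟩ := h2
      rw [if_pos ⟨l, by omega, hl2⟩, if_pos ⟨l, hl, hl2⟩]
    · rw [if_neg h2, if_neg]
      rintro ⟨l, hl, hl2⟩
      rcases Nat.lt_succ_iff_lt_or_eq.1 hl with h3 | h3
      · exact h2 ⟨l, h3, hl2⟩
      · exact h (h3 ▸ hl2)

omit [AddCommGroup L] in
private theorem seen_le (s : St d L) (i : Fin (d + 1)) (k : ℕ) :
    0 ≤ (if (∃ l < k, letter s l = i) then (1 : ℤ) else 0) ∧
      (if (∃ l < k, letter s l = i) then (1 : ℤ) else 0) ≤ 1 := by
  split_ifs <;> constructor <;> norm_num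

private theorem seen_mono (s : St d L) (i : Fin (d + 1)) {k l : ℕ} (h : k ≤ l) :
    (if (∃ m < k, letter s m = i) then (1 : ℤ) else 0) ≤
      (if (∃ m < l, letter s m = i) then (1 : ℤ) else 0) := by
  by_cases h1 : ∃ m < k, letter s m = i
  · obtain ⟨m, hm, hm2⟩ := h1
    rw [if_pos ⟨m, hm, hm2⟩, if_pos ⟨m, by omega, hm2⟩]
  · rw [if_neg h1]
    exact (seen_le s i l).1

private theorem cell_mod {D : LD d L} (s : St d L) (n : ℕ) :
    cell D s n = cell D s (n % (d + 1)) := by
  have h : ∀ m q : ℕ, cell D s (m + (d + 1) * q) = cell D s m := by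
    intro m q
    induction q with
    | zero => rw [Nat.mul_zero, Nat.add_zero]
    | succ q ih => rw [Nat.mul_succ, ← Nat.add_assoc, cell_period, ih]
  conv_lhs => rw [← Nat.mod_add_div n (d + 1)]
  exact h _ _

/-- the coordinates along the cells of a vertex, for `k ≤ d + 1` -/
theorem xc_cell (D : LD d L) (s : St d L) (i : Fin (d + 1)) {k : ℕ} (hk : k ≤ d + 1) :
    xc D i (cell D s k) = xc D i s.1 + (if (∃ l < k, letter s l = i) then 1 else 0) -
      (if (∃ l < k, letter s l = 0) then 1 else 0) := by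
  induction k with
  | zero =>
    rw [cell_zero, if_neg, if_neg, add_zero, sub_zero]
    · rintro ⟨l, hl, _⟩
      omega
    · rintro ⟨l, hl, _⟩
      omega
  | succ k ih =>
    rw [cell_succ, xc_add, xc_v, ih (by omega), seen_succ s i hk, seen_succ s 0 hk]
    ring

/-- two cells of a vertex have coordinates which differ by at most `1` -/
theorem xc_cell_le (D : LD d L) (s : St d L) (i : Fin (d + 1)) (k l : ℕ) :
    xc D i (cell D s k) ≤ xc D i (cell D s l) + 1 := by
  rw [cell_mod s k, cell_mod s l]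
  have hk : k % (d + 1) < d + 1 := Nat.mod_lt _ (by omega)
  have hl : l % (d + 1) < d + 1 := Nat.mod_lt _ (by omega)
  rw [xc_cell D s i hk.le, xc_cell D s i hl.le]
  rcases le_total (k % (d + 1)) (l % (d + 1)) with h | h
  · have h1 := seen_mono s i h
    have h2 := seen_le s 0 (k % (d + 1))
    have h3 := seen_le s 0 (l % (d + 1))
    omega
  · have h1 := seen_mono s 0 h
    have h2 := seen_le s i (k % (d + 1))
    have h3 := seen_le s i (l % (d + 1))
    omega

/-- the new cell, in coordinates -/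
theorem xc_R (D : LD d L) (s : St d L) (i : Fin (d + 1)) :
    xc D i (R D s).1 = xc D i s.1 + ((if letter s 0 = i then 1 else 0) - (if letter s 0 = 0 then 1 else 0)) -
      ((if letter s d = i then 1 else 0) - (if letter s d = 0 then 1 else 0)) := by
  rw [R_fst, xc_sub, xc_add, xc_v, xc_v]

open Classical in
/-- the region of a cell -/
noncomputable def rg (D : LD d L) [NeZero d] (T : ℤ) (z : L) : Fin d :=
  Fin.ofNat d (Nat.findGreatest (fun j => 0 < j ∧ T ≤ xc D (Fin.ofNat (d + 1) j) z) (d - 1))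

private theorem ofNat_castSucc (j : Fin d) : Fin.ofNat (d + 1) (j : ℕ) = j.castSucc := by
  ext
  simp only [Fin.ofNat, Fin.val_castSucc]
  exact Nat.mod_eq_of_lt (by omega)

open Classical in
private theorem rg_val (D : LD d L) [NeZero d] (T : ℤ) (z : L) :
    ((rg D T z : Fin d) : ℕ) =
      Nat.findGreatest (fun j => 0 < j ∧ T ≤ xc D (Fin.ofNat (d + 1) j) z) (d - 1) := by
  have h0 : 0 < d := Nat.pos_of_ne_zero (NeZero.ne d)
  have h1 := Nat.findGreatest_le (P := fun j => 0 < j ∧ T ≤ xc D (Fin.ofNat (d + 1) j) z) (d - 1)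
  rw [rg]
  show Nat.findGreatest (fun j => 0 < j ∧ T ≤ xc D (Fin.ofNat (d + 1) j) z) (d - 1) % d = _
  exact Nat.mod_eq_of_lt (by omega)

/-- the defining properties of the region -/
theorem rg_spec (D : LD d L) [NeZero d] (T : ℤ) (z : L) {j : Fin d} (hj : 0 < (j : ℕ))
    (h : rg D T z = j) : T ≤ xc D j.castSucc z := by
  have h1 := rg_val D T z
  rw [h] at h1
  have h2 := Nat.findGreatest_of_ne_zero h1.symm (by omega)
  rw [ofNat_castSucc] at h2
  exact h2.2

theorem le_rg (D : LD d L) [NeZero d] (T : ℤ) (z : L) {j : Fin d} (hj : 0 < (j : ℕ))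
    (h : T ≤ xc D j.castSucc z) : j ≤ rg D T z := by
  rw [Fin.le_def, rg_val]
  refine Nat.le_findGreatest (by omega) ⟨hj, ?_⟩
  rw [ofNat_castSucc]
  exact h

theorem rg_mono (D : LD d L) [NeZero d] (T : ℤ) {y z : L}
    (h : ∀ j : Fin d, 0 < (j : ℕ) → xc D j.castSucc y ≤ xc D j.castSucc z) :
    rg D T y ≤ rg D T z := by
  rcases Nat.eq_zero_or_pos ((rg D T y : Fin d) : ℕ) with h0 | h0
  · rw [Fin.le_def, h0]
    exact Nat.zero_le _
  · exact le_rg D T z h0 ((rg_spec D T y h0 rfl).trans (h _ h0))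

/-- boxes are finite -/
theorem finite_box (D : LD d L) (hL : ∀ z : L, (∀ i, i ≠ 0 → xc D i z = 0) → z = 0) (a b : ℤ) :
    {s : St d L | ∀ i, i ≠ 0 → a ≤ xc D i s.1 ∧ xc D i s.1 ≤ b}.Finite := by
  have h1 : Function.Injective (fun (z : L) (i : {i : Fin (d + 1) // i ≠ 0}) => xc D i z) := by
    intro y z hyz
    refine sub_eq_zero.1 (hL _ fun i hi => ?_)
    rw [xc_sub, sub_eq_zero]
    exact congrFun hyz ⟨i, hi⟩
  have h2 : ((fun (z : L) (i : {i : Fin (d + 1) // i ≠ 0}) => xc D i z) ⁻¹'
      Set.Icc (fun _ => a) (fun _ => b)).Finite :=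
    (Set.finite_Icc _ _).preimage h1.injOn
  refine (h2.prod (Set.finite_univ (α := Equiv.Perm (Fin (d + 1))))).subset ?_
  rintro s hs
  refine ⟨⟨fun i => (hs i i.2).1, fun i => (hs i i.2).2⟩, Set.mem_univ _⟩

end Pool.Agent.DCE
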