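import Pool.Agent.DCE.Sgn

/-!
# Extended phase of the d-colour paths: representable functions

`A` is a finite abelian group (the colours), `K` a ring. `RepS A K d` is the span of the functions `f : (Fin d → A) → K` which do not
depend on one of the variables and are invariant under the diagonal translations. `GoodA e K` says that the translations of
`A` are even and the sign function is not in the span.
-/

set_option autoImplicit false

namespace Pool.Agent.DCE

/-- functions which do not depend on `g i` and are invariant under diagonal translations -/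
def InvS (A K : Type) [AddCommGroup A] [CommRing K] (d : ℕ) (i : Fin d) :
    AddSubgroup ((Fin d → A) → K) where
  carrier := {f | (∀ g a, f (Function.update g i a) = f g) ∧ ∀ g a, f (fun l => g l + a) = f g}
  zero_mem' := ⟨fun _ _ => rfl, fun _ _ => rfl⟩
  add_mem' := by
    rintro f f' ⟨h1, h2⟩ ⟨h1', h2'⟩
    refine ⟨fun g a => ?_, fun g a => ?_⟩
    · rw [Pi.add_apply, Pi.add_apply, h1, h1']
    · rw [Pi.add_apply, Pi.add_apply, h2, h2']
  neg_mem' := by
    rintro f ⟨h1, h2⟩
    refine ⟨fun g a => ?_, fun g a => ?_⟩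
    · rw [Pi.neg_apply, Pi.neg_apply, h1]
    · rw [Pi.neg_apply, Pi.neg_apply, h2]

theorem mem_InvS {A K : Type} [AddCommGroup A] [CommRing K] {d : ℕ} {i : Fin d} {f : (Fin d → A) → K} :
    f ∈ InvS A K d i ↔ (∀ g a, f (Function.update g i a) = f g) ∧ ∀ g a, f (fun l => g l + a) = f g :=
  Iff.rfl

/-- the span -/
def RepS (A K : Type) [AddCommGroup A] [CommRing K] (d : ℕ) : AddSubgroup ((Fin d → A) → K) :=
  ⨆ i, InvS A K d i

theorem InvS_le (A K : Type) [AddCommGroup A] [CommRing K] (d : ℕ) (i : Fin d) : InvS A K d i ≤ RepS A K d :=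
  le_iSup (fun i => InvS A K d i) i

/-- the sign function is not representable -/
def GoodA {A : Type} [AddCommGroup A] {d : ℕ} (e : A ≃ Fin d) (K : Type) [CommRing K] : Prop :=
  (∀ (a : A) (τ : Equiv.Perm (Fin d)), (∀ b, τ (e b) = e (b + a)) → Equiv.Perm.sign τ = 1) ∧
    (fun g : Fin d → A => ((sgm (fun i => e (g i)) : ℤ) : K)) ∉ RepS A K d

/-- the condition on `d` (true for prime powers `d ≥ 3`) -/
def Good (d : ℕ) : Prop :=
  ∃ (A K : Type) (_ : AddCommGroup A) (_ : CommRing K) (e : A ≃ Fin d), GoodA e K

end Pool.Agent.DCE
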