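import Pool.Agent.DCE.W
import Pool.Agent.DCE.Coord
import Pool.Agent.DCE.Rep

/-!
# Extended phase of the d-colour paths: the glued colourings

`cg D T e ω g z = e (e.symm (ω z) + g (rg D T z))`: the colouring `ω` is translated by `g j` in the region `j`.

PROOFS. `cg_update`: if `rg D T z ≠ i` then `Function.update_of_ne`. `cg_add`: `cg (g + a) = τ ∘ cg g` with the permutation
`τ = e.symm.trans ((Equiv.addRight a).trans e)` of `Fin d`, `τ (e b) = e (b + a)`, which is even by `GoodA`; so `w_perm`,
`Phi_perm`, `rb_perm`.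
-/

set_option autoImplicit false

namespace Pool.Agent.DCE

open Pool.Agent.DCP

variable {d : ℕ} [NeZero d] {L : Type} [AddCommGroup L] {A : Type} [AddCommGroup A]

/-- the glued colouring -/
noncomputable def cg (D : LD d L) (T : ℤ) (e : A ≃ Fin d) (ω : L → Fin d) (g : Fin d → A) : L → Fin d :=
  fun z => e (e.symm (ω z) + g (rg D T z))

variable {D : LD d L} {T : ℤ} {e : A ≃ Fin d} {K : Type} [CommRing K]

theorem cg_update (ω : L → Fin d) (g : Fin d → A) {i : Fin d} (a : A) {z : L}
    (hz : rg D T z ≠ i) : cg D T e ω (Function.update g i a) z = cg D T e ω g z := by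
  simp only [cg]
  rw [Function.update_of_ne hz]

theorem cg_congr {ω ω' : L → Fin d} (g : Fin d → A) {z : L} (hz : ω z = ω' z) :
    cg D T e ω g z = cg D T e ω' g z := by
  simp only [cg]
  rw [hz]

/-- the translation by `a` as a permutation of the colours -/
private def cgTau (e : A ≃ Fin d) (a : A) : Equiv.Perm (Fin d) :=
  e.symm.trans ((Equiv.addRight a).trans e)

private theorem cgTau_apply (e : A ≃ Fin d) (a b : A) : cgTau e a (e b) = e (b + a) := by
  simp [cgTau]

private theorem cg_add (ω : L → Fin d) (g : Fin d → A) (a : A) :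
    cg D T e ω (fun l => g l + a) = fun z => cgTau e a (cg D T e ω g z) := by
  funext z
  simp only [cg]
  rw [cgTau_apply, add_assoc]

theorem w_cg_add (hG : GoodA e K) (ω : L → Fin d) (g : Fin d → A) (a : A) (s : St d L) :
    w D (cg D T e ω (fun l => g l + a)) s = w D (cg D T e ω g) s := by
  rw [cg_add, w_perm, hG.1 a (cgTau e a) (cgTau_apply e a), Units.val_one, one_mul]

theorem rb_cg_add (ω : L → Fin d) (g : Fin d → A) (a : A) (s : St d L) :
    rb D (cg D T e ω (fun l => g l + a)) s ↔ rb D (cg D T e ω g) s := by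
  rw [cg_add]
  exact rb_perm

theorem Phi_cg_add (ω : L → Fin d) (g : Fin d → A) (a : A) :
    Phi D (cg D T e ω (fun l => g l + a)) = Phi D (cg D T e ω g) := by
  rw [cg_add]
  exact Phi_perm _ _

end Pool.Agent.DCE
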