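import Pool.Agent.DCE.W

/-!
# Extended phase of the d-colour paths: two colourings which agree along a path

PROOFS. `Phi_congr`: let `t = R D s`, `rb D c t` (`rb_R`), `c (fc D t j) = c t.1` (`exists_fc_eq`), so
`Phi D c s = J D c t = turn D (j+1) t` (`J_eq`). The cell `t.1` is one of the cells `fc D (turn D (j+1) t) i` (the index with
`i + j + 1 = d`, `fc_turn`), so by `h1` `c' t.1 = c t.1`; by `fc_R` and `h0` `c' (fc D t l) = c (fc D t l)` for all `l`; so
`rb D c' t`, `c' (fc D t j) = c' t.1` and `J D c' t = turn D (j+1) t` too. `orbit_congr` by induction on `a`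
(`pow_succ'`, `rb_Phi_pow`).
-/

set_option autoImplicit false

namespace Pool.Agent.DCE

open Pool.Agent.DCP

variable {d : ℕ} {L : Type} [AddCommGroup L] {D : LD d L}

theorem Phi_congr {c c' : L → Fin d} {s : St d L} (hs : rb D c s)
    (h0 : ∀ j : Fin d, c (fc D s j) = c' (fc D s j))
    (h1 : ∀ j : Fin d, c (fc D (Phi D c s) j) = c' (fc D (Phi D c s) j)) :
    Phi D c' s = Phi D c s := by
  exact (Pool.Agent.DCP.Phi_congr hs (fun j => (h0 j).symm) (fun j => (h1 j).symm)).2

theorem orbit_congr {c c' : L → Fin d} {s : St d L} (hs : rb D c s)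
    (h : ∀ (a : ℕ) (j : Fin d), c (fc D ((Phi D c ^ a) s) j) = c' (fc D ((Phi D c ^ a) s) j)) :
    ∀ a : ℕ, (Phi D c' ^ a) s = (Phi D c ^ a) s := by
  exact (Pool.Agent.DCP.Phi_pow_congr hs (fun k j => (h k j).symm)).2

end Pool.Agent.DCE
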