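import Pool.Agent.DCE.W
import Pool.Agent.DCE.Coord

/-!
# Extended phase of the d-colour paths: crossing the hyperplane

The hyperplane is `xc (last d) = 0`. `Up s`: the edge of `s` crosses it (its `d` cells are in it) and the vertex of `s` is above;
`Dn s`: the same with the vertex of `s` below. `hh s = 1` if the vertex of `s` is above the hyperplane.

PROOFS. `Up_fc`: `fc D s j = cell D s (j+1)`; the letters of index `0` and `d` are `0` and `last`, so by `xc_cell`
(`∃ l < j+1, letter s l = last` is false since `letter s d = last`, `j + 1 ≤ d`, `letter_inj`; `letter s 0 = 0` occurs) the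
coordinate is `1 - 1 = 0`. `Dn_fc` the same, or `Up (R D s) ↔ Dn s` and `fc_R`. `Dn_R`, `Up_R`: `letter_R_zero`,
`letter_R_last`, `xc_R`. `hh_turn`: the cells are the same (`cell_turn`, `cell_period`). `kap_eq`: if `hh s = 1` and
`hh (R D s) = 0` then the cell `(R D s).1` is below (the other cells of `R D s` are cells of `s`, `cell_R`), so by `xc_R` and
`0 ≤ xc s.1`, `0 ≤ xc (cell s 1)`, `0 ≤ xc (cell s d)` (`cell D s d = s.1 - v (letter s d)` by `cell_full`) one gets
`letter s d = last`, `letter s 0 = 0`, `xc s.1 = 1`, i.e. `Up s`; conversely `Up s` gives `hh s = 1` (`Up_fc`; the cells are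
`s.1` and the `fc D s j`) and `hh (R D s) = 0` (`xc (R D s).1 = -1`). Exchange `s` and `R D s` (`R_R`) for the other case.
`kap_Phi`: `Phi D c s = J D c (R D s)` is `R D s` or a `turn` of it (`J_eq`, `J_not`, `exists_fc_eq`).
-/

set_option autoImplicit false

namespace Pool.Agent.DCE

open Pool.Agent.DCP

variable {d : ℕ} {L : Type} [AddCommGroup L]

/-- crossing edge, vertex above -/
def Up (D : LD d L) (s : St d L) : Prop :=
  letter s 0 = 0 ∧ letter s d = Fin.last d ∧ xc D (Fin.last d) s.1 = 1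

/-- crossing edge, vertex below -/
def Dn (D : LD d L) (s : St d L) : Prop :=
  letter s 0 = Fin.last d ∧ letter s d = 0 ∧ xc D (Fin.last d) s.1 = -1

open Classical in
/-- the crossing number -/
noncomputable def kap (D : LD d L) (s : St d L) : ℤ :=
  (if Up D s then 1 else 0) - (if Dn D s then 1 else 0)

open Classical in
/-- `1` if the vertex is above the hyperplane -/
noncomputable def hh (D : LD d L) (s : St d L) : ℤ :=
  if (∀ k ≤ d, 0 ≤ xc D (Fin.last d) (cell D s k)) then 1 else 0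

variable {D : LD d L}

private theorem zero_ne_last42 (hd : 1 ≤ d) : (0 : Fin (d + 1)) ≠ Fin.last d := by
  intro h
  have := congrArg Fin.val h
  simp at this
  omega

theorem Dn_R (hd : 1 ≤ d) {s : St d L} : Dn D (R D s) ↔ Up D s := by
  have hne := zero_ne_last42 hd
  have hne' : (Fin.last d : Fin (d + 1)) ≠ 0 := Ne.symm hne
  unfold Dn Up
  rw [letter_R_zero, letter_R_last, xc_R]
  constructor
  · rintro ⟨h1, h2, h3⟩
    rw [h1, h2, if_neg hne, if_pos rfl, if_pos rfl, if_neg hne'] at h3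
    exact ⟨h2, h1, by linarith⟩
  · rintro ⟨h1, h2, h3⟩
    rw [h1, h2, if_neg hne, if_pos rfl, if_pos rfl, if_neg hne']
    exact ⟨rfl, rfl, by linarith⟩

theorem Up_R (hd : 1 ≤ d) {s : St d L} : Up D (R D s) ↔ Dn D s := by
  rw [← Dn_R hd, R_R]

theorem not_Up_Dn (hd : 1 ≤ d) {s : St d L} (h : Up D s) : ¬Dn D s := by
  intro h'
  exact zero_ne_last42 hd (h.1.symm.trans h'.1)

theorem Up_fc (hd : 1 ≤ d) {s : St d L} (h : Up D s) (j : Fin d) :
    xc D (Fin.last d) (fc D s j) = 0 := by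
  have _ := hd
  have hj := j.2
  have e1 : ¬ ∃ l < (j : ℕ) + 1, letter s l = Fin.last d := by
    rintro ⟨l, hl, hl2⟩
    have := letter_inj s (i := l) (j := d) (by omega) le_rfl (hl2.trans h.2.1.symm)
    omega
  have e2 : ∃ l < (j : ℕ) + 1, letter s l = 0 := ⟨0, by omega, h.1⟩
  rw [fc, xc_cell D s (Fin.last d) (by omega), if_neg e1, if_pos e2, h.2.2]
  norm_num

theorem Dn_fc (hd : 1 ≤ d) {s : St d L} (h : Dn D s) (j : Fin d) :
    xc D (Fin.last d) (fc D s j) = 0 := by
  rw [← fc_R]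
  exact Up_fc hd ((Up_R hd).2 h) j

private theorem cell_mod42 (s : St d L) (m q : ℕ) :
    cell D s (m + (d + 1) * q) = cell D s m := by
  induction q with
  | zero => rw [Nat.mul_zero, Nat.add_zero]
  | succ q ih => rw [Nat.mul_succ, ← Nat.add_assoc, cell_period, ih]

private theorem all42 (s : St d L) :
    (∀ k ≤ d, 0 ≤ xc D (Fin.last d) (cell D s k)) ↔ ∀ k, 0 ≤ xc D (Fin.last d) (cell D s k) := by
  constructor
  · intro h k
    rw [← Nat.mod_add_div k (d + 1), cell_mod42]
    exact h _ (Nat.lt_succ_iff.1 (Nat.mod_lt _ (Nat.succ_pos d)))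
  · intro h k _
    exact h k

theorem hh_turn (s : St d L) (k : ℕ) : hh D (turn D k s) = hh D s := by
  have h : (∀ i ≤ d, 0 ≤ xc D (Fin.last d) (cell D (turn D k s) i)) ↔
      ∀ i ≤ d, 0 ≤ xc D (Fin.last d) (cell D s i) := by
    rw [all42, all42]
    simp only [cell_turn]
    constructor
    · intro h i
      have h1 := h (i + d * k)
      rw [show k + (i + d * k) = i + (d + 1) * k by ring, cell_mod42] at h1
      exact h1
    · intro h i
      exact h _
  unfold hh
  by_cases h1 : ∀ i ≤ d, 0 ≤ xc D (Fin.last d) (cell D s i)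
  · rw [if_pos h1, if_pos (h.2 h1)]
  · rw [if_neg h1, if_neg (fun h2 => h1 (h.1 h2))]

private theorem cross42 (hd : 1 ≤ d) {s : St d L}
    (hQ : ∀ k, 1 ≤ k → k ≤ d → 0 ≤ xc D (Fin.last d) (cell D s k))
    (h0 : 0 ≤ xc D (Fin.last d) s.1) (h1 : xc D (Fin.last d) (R D s).1 < 0) : Up D s := by
  have hne := zero_ne_last42 hd
  have c1 := hQ 1 le_rfl hd
  rw [show (1 : ℕ) = 0 + 1 from rfl, cell_succ, cell_zero, xc_add, xc_v] at c1
  have c2 := hQ d hd le_rfl
  have e : xc D (Fin.last d) (cell D s d) + xc D (Fin.last d) (D.v (letter s d)) =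
      xc D (Fin.last d) s.1 := by
    rw [← xc_add, ← cell_succ, cell_full]
  rw [xc_v] at e
  rw [xc_R] at h1
  by_cases a1 : letter s 0 = 0
  · by_cases b1 : letter s d = Fin.last d
    · refine ⟨a1, b1, ?_⟩
      rw [a1, if_neg hne, if_pos rfl] at c1 h1
      rw [b1, if_pos rfl, if_neg (Ne.symm hne)] at h1
      omega
    · exfalso
      rw [a1, if_neg hne, if_pos rfl] at c1 h1
      rw [if_neg b1] at h1
      split_ifs at h1 <;> omega
  · exfalso
    rw [if_neg a1] at c1 h1
    by_cases b1 : letter s d = Fin.last d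
    · rw [b1, if_pos rfl, if_neg (Ne.symm hne)] at h1 e
      split_ifs at c1 h1 <;> omega
    · rw [if_neg b1] at h1 e
      split_ifs at c1 h1 e <;> omega

private theorem split42 (s : St d L) :
    (∀ k ≤ d, 0 ≤ xc D (Fin.last d) (cell D s k)) ↔
      0 ≤ xc D (Fin.last d) s.1 ∧ ∀ k, 1 ≤ k → k ≤ d → 0 ≤ xc D (Fin.last d) (cell D s k) := by
  constructor
  · intro h
    refine ⟨?_, fun k _ hk => h k hk⟩
    have := h 0 (Nat.zero_le d)
    rwa [cell_zero] at this
  · rintro ⟨h1, h2⟩ k hk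
    rcases Nat.eq_zero_or_pos k with rfl | hk'
    · rw [cell_zero]
      exact h1
    · exact h2 k hk' hk

private theorem Q_R42 (s : St d L) :
    (∀ k, 1 ≤ k → k ≤ d → 0 ≤ xc D (Fin.last d) (cell D (R D s) k)) ↔
      ∀ k, 1 ≤ k → k ≤ d → 0 ≤ xc D (Fin.last d) (cell D s k) := by
  constructor
  · intro h k h1 h2
    rw [← cell_R D s h1 h2]
    exact h k h1 h2
  · intro h k h1 h2
    rw [cell_R D s h1 h2]
    exact h k h1 h2

private theorem Q_of_fc42 {s : St d L} (h : ∀ j : Fin d, xc D (Fin.last d) (fc D s j) = 0) :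
    ∀ k, 1 ≤ k → k ≤ d → 0 ≤ xc D (Fin.last d) (cell D s k) := by
  intro k h1 h2
  obtain ⟨j, _, hj2⟩ := exists_fc D s h1 h2
  rw [← hj2, h j]

theorem kap_eq (hd : 1 ≤ d) (s : St d L) : kap D s = hh D s - hh D (R D s) := by
  have x1 : Up D s → xc D (Fin.last d) (R D s).1 = -1 := fun h => ((Dn_R hd).2 h).2.2
  have x2 : Dn D s → xc D (Fin.last d) (R D s).1 = 1 := fun h => ((Up_R hd).2 h).2.2
  unfold kap hh
  by_cases hU : Up D s
  · have hQ := Q_of_fc42 (Up_fc hd hU)
    have h1 : ∀ k ≤ d, 0 ≤ xc D (Fin.last d) (cell D s k) := (split42 s).2 ⟨by rw [hU.2.2]; norm_num, hQ⟩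
    have h2 : ¬ ∀ k ≤ d, 0 ≤ xc D (Fin.last d) (cell D (R D s) k) := by
      intro h
      have := ((split42 (R D s)).1 h).1
      rw [x1 hU] at this
      norm_num at this
    rw [if_pos hU, if_neg (not_Up_Dn hd hU), if_pos h1, if_neg h2]
  · by_cases hD : Dn D s
    · have hQ := Q_of_fc42 (Dn_fc hd hD)
      have h1 : ¬ ∀ k ≤ d, 0 ≤ xc D (Fin.last d) (cell D s k) := by
        intro h
        have := ((split42 s).1 h).1
        rw [hD.2.2] at this
        norm_num at this
      have h2 : ∀ k ≤ d, 0 ≤ xc D (Fin.last d) (cell D (R D s) k) :=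
        (split42 (R D s)).2 ⟨by rw [x2 hD]; norm_num, (Q_R42 s).2 hQ⟩
      rw [if_neg hU, if_pos hD, if_neg h1, if_pos h2]
    · rw [if_neg hU, if_neg hD]
      have key : (∀ k ≤ d, 0 ≤ xc D (Fin.last d) (cell D s k)) ↔
          ∀ k ≤ d, 0 ≤ xc D (Fin.last d) (cell D (R D s) k) := by
        rw [split42 s, split42 (R D s), Q_R42]
        constructor
        · rintro ⟨h1, h2⟩
          refine ⟨?_, h2⟩
          by_contra h3
          exact hU (cross42 hd h2 h1 (not_le.1 h3))
        · rintro ⟨h1, h2⟩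
          refine ⟨?_, h2⟩
          by_contra h3
          refine hD ((Up_R hd).1 (cross42 hd ((Q_R42 s).2 h2) h1 ?_))
          rw [R_R]
          exact not_le.1 h3
      by_cases h1 : ∀ k ≤ d, 0 ≤ xc D (Fin.last d) (cell D s k)
      · rw [if_pos h1, if_pos (key.1 h1)]
        norm_num
      · rw [if_neg h1, if_neg (fun h2 => h1 (key.2 h2))]

theorem kap_Phi (hd : 1 ≤ d) (c : L → Fin d) (s : St d L) : kap D s = hh D s - hh D (Phi D c s) := by
  have h : hh D (Phi D c s) = hh D (R D s) := by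
    rw [Phi_apply]
    by_cases h : rb D c (R D s)
    · obtain ⟨j, hj⟩ := exists_fc_eq h (c (R D s).1)
      rw [J_eq h hj, hh_turn]
    · rw [J_not h]
  rw [h]
  exact kap_eq hd s

theorem kap_of_not {s : St d L} (h1 : ¬Up D s) (h2 : ¬Dn D s) : kap D s = 0 := by
  unfold kap
  rw [if_neg h1, if_neg h2, sub_zero]

end Pool.Agent.DCE
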