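import Pool.Agent.DCE.LoopA

/-!
# Extended phase of the d-colour paths: the deterministic theorem

PROOF. Suppose that for every `g` all `s ∈ EM` with `rb` are `Small` (negation of the claim). Then for every `g`
`[w = 1] = [Ok] = [Ok ∧ ∃ q ∈ univ, Cl q] + [Ok ∧ no Cl]` on `EM` (`w = 1` implies `rb`, `w_ne`), so by `flux_EM`, `rest_zero`, `cls_mem`
the function `g ↦ ∑ s ∈ UM, w (cg g) s` is in `RepS`. By `flux` `ε * sgm (e ∘ g)` is in `RepS`, hence `sgm (e ∘ g)`, as
`ε = ± 1`: contradiction to `GoodA`.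
-/

set_option autoImplicit false

namespace Pool.Agent.DCE

open Pool.Agent.DCP

variable {d : ℕ} [NeZero d] {L : Type} [AddCommGroup L] {A : Type} [AddCommGroup A]

open Classical in
private theorem split_h75 {D : LD d L} {T : ℤ} (hL : ∀ z : L, (∀ i, i ≠ 0 → xc D i z = 0) → z = 0)
    (hT : 1 ≤ T) (hd : 2 ≤ d) (c : L → Fin d)
    (hc : ∀ s ∈ EM D hL T, rb D c s → Small D T c s) :
    ∑ s ∈ UM D hL T, w D c s = ∑ s ∈ EM D hL T, (if Ok D T c s ∧
      (∃ q ∈ (Finset.univ : Finset (Fin d × Bool)), Cl D T c q s) then kap D s else 0) := by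
  have h1 := rest_zero (hL := hL) hd hT c
  refine Eq.trans ?_ (Eq.trans (congrArg (fun z => ∑ s ∈ EM D hL T, (if Ok D T c s ∧
      (∃ q ∈ (Finset.univ : Finset (Fin d × Bool)), Cl D T c q s) then kap D s else 0) + z) h1)
      (add_zero _))
  rw [flux_EM (hL := hL) hd hT c, ← Finset.sum_add_distrib]
  refine Finset.sum_congr rfl (fun s hs => ?_)
  have h2 : w D c s = 1 ↔ Ok D T c s := by
    constructor
    · intro h
      have hr : rb D c s := w_ne (by rw [h]; exact one_ne_zero)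
      exact ⟨hr, hc s hs hr, h⟩
    · intro h
      exact h.2.2
  by_cases h3 : Ok D T c s
  · rw [if_pos (h2.2 h3)]
    by_cases h4 : ∃ q : Fin d × Bool, Cl D T c q s
    · obtain ⟨q, hq⟩ := h4
      rw [if_pos ⟨h3, q, Finset.mem_univ q, hq⟩, if_neg (fun h => h.2 q hq), add_zero]
    · push Not at h4
      rw [if_neg (fun h => by obtain ⟨_, q, _, hq⟩ := h; exact h4 q hq), if_pos ⟨h3, h4⟩, zero_add]
  · rw [if_neg (fun h => h3 (h2.1 h)), if_neg (fun h => h3 h.1), if_neg (fun h => h3 h.1), add_zero]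

theorem det {D : LD d L} {T : ℤ} {e : A ≃ Fin d} {K : Type} [CommRing K] (hL : ∀ z : L, (∀ i, i ≠ 0 → xc D i z = 0) → z = 0)
    (hT : 1 ≤ T) (hd : 2 ≤ d) (hG : GoodA e K) (ω : L → Fin d) :
    ∃ g : Fin d → A, ∃ s ∈ EM D hL T, rb D (cg D T e ω g) s ∧ ¬Small D T (cg D T e ω g) s := by
  classical
  by_contra hcon
  push Not at hcon
  obtain ⟨ε, hε, hflux⟩ := flux (D := D) (T := T) (e := e) (K := K) hL hT hd hG
  have hf := hflux ω
  have hcls := cls_mem (D := D) (T := T) (e := e) (K := K) (hL := hL) hd hT hG ω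
    (Finset.univ : Finset (Fin d × Bool))
  have hsub := AddSubgroup.sub_mem _ hf hcls
  have heq : ((fun g : Fin d → A => ((∑ s ∈ UM D hL T, w D (cg D T e ω g) s +
      ε * sgm (fun i => e (g i)) : ℤ) : K)) -
      (fun g : Fin d → A => ((∑ s ∈ EM D hL T, (if Ok D T (cg D T e ω g) s ∧
      (∃ q ∈ (Finset.univ : Finset (Fin d × Bool)), Cl D T (cg D T e ω g) q s) then kap D s else 0) :
        ℤ) : K))) =
      (fun g : Fin d → A => ((ε * sgm (fun i => e (g i)) : ℤ) : K)) := by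
    funext g
    rw [Pi.sub_apply, split_h75 hL hT hd (cg D T e ω g) (hcon g), Int.cast_add, add_sub_cancel_left]
  rw [heq] at hsub
  apply hG.2
  rcases hε with h1 | h1
  · rw [h1] at hsub
    simpa only [one_mul] using hsub
  · have h2 := AddSubgroup.neg_mem _ hsub
    rw [h1] at h2
    convert h2 using 1
    funext g
    rw [Pi.neg_apply, neg_one_mul, Int.cast_neg, neg_neg]

end Pool.Agent.DCE
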