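import Pool.Agent.DCE.Top

/-!
# Extended phase of the d-colour paths: the flux through M is the sign, up to representable functions

PROOF. `w_mem`: independence of `g j` by `w_congr` and `cg_update`, invariance by `w_cg_add`.
`flux`: let `ω' z = if xc D (last d) z ≤ 0 then ω z else e 0`. `stokes` for `cg ω' g`; split the boundary states by `bdry`: the states
with `Up` are those of the sum over `UM` (`Up_bdry`), and there `w (cg ω' g) s = w (cg ω g) s` (`w_congr`, `cg_congr`, `Up_fc`);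
the states with `Tp` give `ε * sgm` (`Tp_bdry`, `top_sum`); every other boundary state `s` has, for some `j > 0`, all cells `fc D s i` with
`xc j = 2 T` (then `rg ≥ j`, so `≠ 0`, `le_rg`, `T ≤ 2 T`) or `xc j = 0` (then `rg ≠ j`, `rg_spec`, `T ≥ 1`), so
`g ↦ w (cg ω' g) s` is in `InvS 0` or `InvS j`. So the function is minus a sum of elements of `RepS` (`AddSubgroup.sum_mem`; it may
help to write `Finset.sum` of functions and `Finset.sum_apply`, `Int.cast_sum`).
-/

set_option autoImplicit false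

namespace Pool.Agent.DCE

open Pool.Agent.DCP

variable {d : ℕ} [NeZero d] {L : Type} [AddCommGroup L] {A : Type} [AddCommGroup A]

open Classical in
/-- the crossing states over `M` with vertex above -/
noncomputable def UM (D : LD d L) (hL : ∀ z : L, (∀ i, i ≠ 0 → xc D i z = 0) → z = 0) (T : ℤ) : Finset (St d L) :=
  (BS D hL (-1) (2 * T + 1)).filter (fun s => Up D s ∧ ∀ i, inM D T (fc D s i))

variable {D : LD d L} {T : ℤ} {e : A ≃ Fin d} {K : Type} [CommRing K]

theorem w_mem (hG : GoodA e K) (ω : L → Fin d) (s : St d L) {j : Fin d}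
    (hj : ∀ i : Fin d, rg D T (fc D s i) ≠ j) :
    (fun g : Fin d → A => ((w D (cg D T e ω g) s : ℤ) : K)) ∈ InvS A K d j := by
  rw [mem_InvS]
  refine ⟨fun g a => ?_, fun g a => ?_⟩
  · have h : w D (cg D T e ω (Function.update g j a)) s = w D (cg D T e ω g) s :=
      w_congr (fun i => cg_update ω g a (hj i))
    simp only [h]
  · have h := w_cg_add (D := D) (T := T) hG ω g a s
    simp only [h]

theorem flux (hL : ∀ z : L, (∀ i, i ≠ 0 → xc D i z = 0) → z = 0) (hT : 1 ≤ T) (hd : 2 ≤ d)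
    (hG : GoodA e K) : ∃ ε : ℤ, (ε = 1 ∨ ε = -1) ∧ ∀ ω : L → Fin d,
      (fun g : Fin d → A => ((∑ s ∈ UM D hL T, w D (cg D T e ω g) s + ε * sgm (fun i => e (g i)) : ℤ) :
        K)) ∈ RepS A K d := by
  classical
  obtain ⟨ε, hε, hsum⟩ := top_sum (D := D) (hL := hL) hT hd e
  refine ⟨ε, hε, fun ω => ?_⟩
  have hd1 : 1 ≤ d := by omega
  obtain ⟨ω', hω'⟩ : ∃ ω' : L → Fin d, ∀ z, ω' z = if xc D (Fin.last d) z ≤ 0 then ω z else e 0 :=
    ⟨_, fun _ => rfl⟩
  -- the boundary states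
  set P : St d L → Prop := fun s => (∀ k ≤ d, InBox D T (cell D s k)) ∧ ¬InBox D T (R D s).1 with hP
  set B := (BS D hL (-1) (2 * T + 1)).filter P with hB
  have hUM : B.filter (fun s => Up D s) = UM D hL T := by
    ext s
    rw [hB, UM, Finset.mem_filter, Finset.mem_filter, Finset.mem_filter]
    constructor
    · rintro ⟨⟨h1, h2⟩, h3⟩
      exact ⟨h1, h3, (Up_bdry hd1 h3).1 h2⟩
    · rintro ⟨h1, h3, h2⟩
      exact ⟨⟨h1, (Up_bdry hd1 h3).2 h2⟩, h3⟩
  have hTp : (B.filter (fun s => ¬Up D s)).filter (fun s => Tp D s) =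
      (BS D hL (-1) (2 * T + 1)).filter (fun s => Tp D s ∧ ∀ i, inM D T (fc D s i)) := by
    ext s
    rw [hB, Finset.mem_filter, Finset.mem_filter, Finset.mem_filter, Finset.mem_filter]
    constructor
    · rintro ⟨⟨⟨h1, h2⟩, -⟩, h3⟩
      exact ⟨h1, h3, (Tp_bdry hd1 h3).1 h2⟩
    · rintro ⟨h1, h3, h2⟩
      exact ⟨⟨⟨h1, (Tp_bdry hd1 h3).2 h2⟩, fun h => not_Up_Tp hd1 h h3⟩, h3⟩
  set C := (B.filter (fun s => ¬Up D s)).filter (fun s => ¬Tp D s) with hC
  have key : ∀ g : Fin d → A, ∑ s ∈ UM D hL T, w D (cg D T e ω g) s + ε * sgm (fun i => e (g i))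
      = -∑ s ∈ C, w D (cg D T e ω' g) s := by
    intro g
    have h1 : ∑ s ∈ B, w D (cg D T e ω' g) s = 0 := stokes hd1 hT (cg D T e ω' g)
    have h2 := Finset.sum_filter_add_sum_filter_not B (fun s => Up D s)
      (fun s => w D (cg D T e ω' g) s)
    have h3 := Finset.sum_filter_add_sum_filter_not (B.filter (fun s => ¬Up D s)) (fun s => Tp D s)
      (fun s => w D (cg D T e ω' g) s)
    rw [hUM] at h2
    rw [hTp, hsum ω' g (fun z hz => by rw [hω', if_neg (by omega)])] at h3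
    have h4 : ∑ s ∈ UM D hL T, w D (cg D T e ω' g) s = ∑ s ∈ UM D hL T, w D (cg D T e ω g) s := by
      refine Finset.sum_congr rfl (fun s hs => ?_)
      rw [UM, Finset.mem_filter] at hs
      refine w_congr (fun j => cg_congr g ?_)
      rw [hω', if_pos (le_of_eq (Up_fc hd1 hs.2.1 j))]
    rw [h4] at h2
    linarith
  have hfun : (fun g : Fin d → A => ((∑ s ∈ UM D hL T, w D (cg D T e ω g) s +
      ε * sgm (fun i => e (g i)) : ℤ) : K))
      = -∑ s ∈ C, (fun g : Fin d → A => ((w D (cg D T e ω' g) s : ℤ) : K)) := by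
    funext g
    rw [key g, Pi.neg_apply, Finset.sum_apply, Int.cast_neg, Int.cast_sum]
  rw [hfun]
  refine neg_mem (sum_mem (fun s hs => ?_))
  rw [hC, Finset.mem_filter, Finset.mem_filter, hB, Finset.mem_filter] at hs
  obtain ⟨⟨⟨-, h1, h2⟩, h3⟩, h4⟩ := hs
  rcases bdry hd1 h1 h2 with ⟨j, hj, h5⟩ | ⟨j, hj, h5⟩ | h5 | h5
  · refine InvS_le A K d 0 (w_mem hG ω' s (fun i h => ?_))
    have h6 := le_rg D T (fc D s i) hj (by rw [h5 i]; omega)
    rw [h, Fin.le_def] at h6
    have h7 : ((0 : Fin d) : ℕ) = 0 := rfl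
    omega
  · refine InvS_le A K d j (w_mem hG ω' s (fun i h => ?_))
    have h6 := rg_spec D T (fc D s i) hj h
    rw [h5 i] at h6
    omega
  · exact absurd h5 h3
  · exact absurd h5 h4

end Pool.Agent.DCE
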