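import Pool.Agent.DCE.LoopA
import Pool.Agent.DCP.Equi
import Pool.Agent.DCP.Meas

/-!
# Extended phase of the d-colour paths: locality

`BadAt c z0`: some crossing edge over the translate of `M` by `z0` is a `d`-colour edge which is not on a small loop. It depends only on the
colours in the neighbourhood `Nb z0`.

PROOFS. `BadAt_tr`: `rb_tr`, `Phi_pow_tr` (`Phi` of the shifted colouring), `fc_tr`, `xc_add`: `Small` is invariant under translations.
`BadAt_congr` for `z0 = 0` (the general case by `BadAt_tr`; the colourings `c (x + z0)` and `c' (x + z0)` agree on `Nb 0`): let `c = c'` on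
`Nb 0`, and suppose every `s ∈ EM` with `rb c s` is `Small c`. Let `s ∈ EM`, `rb c' s`. The cells `fc D s j` are in `Nb 0` (they are in
`inM` and have last coordinate `0`, `Up_fc`, `Dn_fc`), so `rb c s`, so `Small c s`, so all cells of the orbit have coordinates `i ≠ 0` in
`(-T, 3 T)`, so they are in `Nb 0`; `orbit_congr` gives the same orbit for `c'`, and `Small c' s`. So `¬BadAt c → ¬BadAt c'`; exchange `c`, `c'`.
`meas_BadAt`: `Nb D T z0` is a finite set (`finite_box` for the pairs `(z - z0, 1)`, or injectivity of the coordinates), so `BadAt` is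
measurable by `meas_fin` (`DCP/Meas.lean`) and `BadAt_congr`.
-/

set_option autoImplicit false

namespace Pool.Agent.DCE

open MeasureTheory Pool.Agent.DCP

variable {d : ℕ} [NeZero d] {L : Type} [AddCommGroup L]

/-- the neighbourhood of the translate of `M` -/
def Nb (D : LD d L) (T : ℤ) (z0 z : L) : Prop :=
  ∀ i, i ≠ 0 → -(T + 1) ≤ xc D i (z - z0) ∧ xc D i (z - z0) ≤ 3 * T + 1

/-- a bad edge over the translate of `M` by `z0` -/
def BadAt (D : LD d L) (hL : ∀ z : L, (∀ i, i ≠ 0 → xc D i z = 0) → z = 0) (T : ℤ) (c : L → Fin d) (z0 : L) : Prop :=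
  ∃ s ∈ EM D hL T, rb D c (tr z0 s) ∧ ¬Small D T c (tr z0 s)

variable {D : LD d L} {T : ℤ} {hL : ∀ z : L, (∀ i, i ≠ 0 → xc D i z = 0) → z = 0}

omit [NeZero d] in
private theorem tr_inj88 {z0 : L} {s t : St d L} : tr z0 s = tr z0 t ↔ s = t := by
  constructor
  · intro h
    have h1 : (tr z0 s).1 = (tr z0 t).1 := congrArg Prod.fst h
    have h2 : (tr z0 s).2 = (tr z0 t).2 := congrArg Prod.snd h
    exact Prod.ext (add_right_cancel h1) h2
  · intro h
    rw [h]

omit [NeZero d] in
private theorem Small_tr88 {c : L → Fin d} {z0 : L} {s : St d L} :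
    Small D T c (tr z0 s) ↔ Small D T (fun x => c (x + z0)) s := by
  unfold Small
  simp only [Phi_pow_tr, tr_inj88, fc_tr, xc_add, add_sub_add_right_eq_sub]

theorem BadAt_tr {c : L → Fin d} {z0 : L} :
    BadAt D hL T c z0 ↔ ∃ s ∈ EM D hL T, rb D (fun x => c (x + z0)) s ∧
      ¬Small D T (fun x => c (x + z0)) s := by
  unfold BadAt
  simp only [rb_tr, Small_tr88]

private theorem EM_xc88 (hd : 1 ≤ d) (hT : 1 ≤ T) {s : St d L} (hs : s ∈ EM D hL T) (j : Fin d)
    {i : Fin (d + 1)} (hi : i ≠ 0) : 0 ≤ xc D i (fc D s j) ∧ xc D i (fc D s j) ≤ 2 * T := by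
  rw [mem_EM hd hT] at hs
  by_cases hl : i = Fin.last d
  · have h5 : xc D i (fc D s j) = 0 := by
      rw [hl]
      rcases hs.1 with h6 | h6
      · exact Up_fc hd h6 _
      · exact Dn_fc hd h6 _
    omega
  · obtain ⟨l, rfl⟩ := Fin.exists_castSucc_eq.2 hl
    refine hs.2 j l ?_
    by_contra h1
    apply hi
    have h2 : (l : ℕ) = 0 := by omega
    ext
    simpa using h2

private theorem bad_aux88 (hd : 2 ≤ d) (hT : 1 ≤ T) {c c' : L → Fin d}
    (h : ∀ z, (∀ i, i ≠ 0 → -(T + 1) ≤ xc D i z ∧ xc D i z ≤ 3 * T + 1) → c z = c' z)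
    (hb : ∀ s ∈ EM D hL T, rb D c s → Small D T c s) :
    ∀ s ∈ EM D hL T, rb D c' s → Small D T c' s := by
  intro s hs hr
  have hd1 : 1 ≤ d := by omega
  have h1 : ∀ j : Fin d, c (fc D s j) = c' (fc D s j) := by
    intro j
    refine h _ (fun i hi => ?_)
    have h2 := EM_xc88 hd1 hT hs j hi
    omega
  have hr1 : rb D c s := by
    unfold rb at hr ⊢
    rw [show (fun j : Fin d => c (fc D s j)) = fun j : Fin d => c' (fc D s j) from funext h1]
    exact hr
  have hS := hb s hs hr1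
  have h3 : ∀ (a : ℕ) (j : Fin d), c (fc D ((Phi D c ^ a) s) j) = c' (fc D ((Phi D c ^ a) s) j) := by
    intro a j
    refine h _ (fun i hi => ?_)
    have e1 := hS.2 a 0 i j ⟨0, by omega⟩ hi
    have e2 := hS.2 0 a i ⟨0, by omega⟩ j hi
    rw [pow_zero, Equiv.Perm.one_apply] at e1 e2
    have h2 := EM_xc88 hd1 hT hs ⟨0, by omega⟩ hi
    omega
  have h4 := orbit_congr hr1 h3
  unfold Small
  simp only [h4]
  exact hS

theorem BadAt_congr (hd : 2 ≤ d) (hT : 1 ≤ T) {c c' : L → Fin d} {z0 : L}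
    (h : ∀ z, Nb D T z0 z → c z = c' z) : BadAt D hL T c z0 ↔ BadAt D hL T c' z0 := by
  have h1 : ∀ z, (∀ i, i ≠ 0 → -(T + 1) ≤ xc D i z ∧ xc D i z ≤ 3 * T + 1) →
      c (z + z0) = c' (z + z0) := by
    intro z hz
    refine h _ (fun i hi => ?_)
    rw [add_sub_cancel_right]
    exact hz i hi
  rw [BadAt_tr, BadAt_tr]
  constructor
  · rintro ⟨s, hs, hr, hb⟩
    by_contra hn
    refine hb (bad_aux88 (hL := hL) hd hT (fun z hz => (h1 z hz).symm) (fun t ht hrt => ?_) s hs hr)
    by_contra h2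
    exact hn ⟨t, ht, hrt, h2⟩
  · rintro ⟨s, hs, hr, hb⟩
    by_contra hn
    refine hb (bad_aux88 (hL := hL) hd hT h1 (fun t ht hrt => ?_) s hs hr)
    by_contra h2
    exact hn ⟨t, ht, hrt, h2⟩

theorem Nb_finite (hL : ∀ z : L, (∀ i, i ≠ 0 → xc D i z = 0) → z = 0) (T : ℤ) (z0 : L) :
    {z : L | Nb D T z0 z}.Finite := by
  have h1 : Function.Injective (fun z : L => ((z - z0, 1) : St d L)) := by
    intro z z' h
    have h2 : z - z0 = z' - z0 := congrArg Prod.fst h
    exact sub_left_injective h2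
  exact (finite_box D hL (-(T + 1)) (3 * T + 1)).preimage h1.injOn

theorem meas_BadAt (hd : 2 ≤ d) (hT : 1 ≤ T) (z0 : L) :
    MeasurableSet {c : L → Fin d | BadAt D hL T c z0} := by
  refine meas_fin _ (Nb_finite hL T z0).toFinset (fun c c' h hc => ?_)
  refine (BadAt_congr hd hT (fun z hz => h z ?_)).1 hc
  rw [Set.Finite.mem_toFinset]
  exact hz

end Pool.Agent.DCE
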