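import Pool.Agent.DCE.Path
import Pool.Agent.DCE.Local

/-!
# Extended phase of the d-colour paths: a bad edge gives a path of large diameter

PROOF. Let `t = tr z0 s`, `s ∈ EM`, `rb`, `¬Small`.
(1) There are `a`, `i ≠ 0`, `j`, `j'` with `Long c t a` and `T ≤ 2 * |xc i (fc ((Phi^a) t) j) - xc i (fc t j')|`. Case 1: `(Phi^k) t = t` for some `k > 0`:
by `¬Small` two edges `(Phi^a) t`, `(Phi^b) t` have cells with `xc`-difference `≥ T`; reduce `a`, `b` modulo the minimal period `k`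
(`Nat.find`), so `a, b < k` and `Long c t a`, `Long c t b`; by the triangle inequality with a cell of `t` one of the two differences is at least
`T / 2`. Case 2: no period: all `Long c t a` hold and the states `(Phi^a) t` are distinct; if all differences were less than `T` they
would all lie in a finite set (`finite_box`).
(2) `γ k = vtx ((Phi^k) t)`, `path_of`. `xc i z = z i - z 0` (`AD_rt`, real coordinates), `vtx_cell`: so
`|γ a i - γ 0 i| + |γ a 0 - γ 0 0| ≥ T/2 - 2`, so for one of the indices `≥ T/4 - 1`.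
(3) `γ 0 = vtx t`: for a cell `x = fc s j` of `s`: `0 ≤ xc i x ≤ 2 T` for all `i`, i.e. `0 ≤ x i - x 0 ≤ 2T`, `∑ x i = 0`, so `-2T ≤ x 0 ≤ 0`
and `|x i| ≤ 2T` for all `i`; and the cell of `t` is `x + z0`; `vtx_cell`: `|γ 0 i - z0 i| ≤ 2 T + 1`.
-/

set_option autoImplicit false

namespace Pool.Agent.DCE

open Pool.Agent.DCP

theorem xc_AD_inj {d : ℕ} (z : Ast d) (h : ∀ i, i ≠ 0 → xc (AD d) i z = 0) : z = 0 := by
  have h1 : ∀ i, (z : Fin (d + 1) → ℝ) i = (z : Fin (d + 1) → ℝ) 0 := by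
    intro i
    by_cases hi : i = 0
    · rw [hi]
    · have h2 := AD_rt i 0 z
      have h3 : (AD d).rt i 0 z = 0 := h i hi
      rw [h3, Int.cast_zero] at h2
      linarith
  have h4 : ∑ i, (z : Fin (d + 1) → ℝ) i = 0 := z.2.1
  simp only [h1] at h4
  rw [Finset.sum_const, Finset.card_univ, Fintype.card_fin, nsmul_eq_mul] at h4
  have hd : (((d + 1 : ℕ) : ℝ)) ≠ 0 := by positivity
  have h5 : (z : Fin (d + 1) → ℝ) 0 = 0 := by
    rcases mul_eq_zero.1 h4 with h | h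
    · exact absurd h hd
    · exact h
  refine Subtype.ext (funext fun j => ?_)
  rw [h1 j, h5]
  rfl

/-- step (1): a long path gets far from its first edge -/
private theorem exists_far_Far {d : ℕ} [NeZero d] (hd : 2 ≤ d) {T : ℤ} (hT : 1 ≤ T)
    {c : Ast d → Fin d} {t : St d (Ast d)} (hr : rb (AD d) c t) (hs : ¬Small (AD d) T c t) :
    ∃ (a : ℕ) (i : Fin (d + 1)) (j j' : Fin d), Long (AD d) c t a ∧
      T ≤ 2 * |xc (AD d) i (fc (AD d) ((Phi (AD d) c ^ a) t) j) - xc (AD d) i (fc (AD d) t j')| := by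
  classical
  have j0 : Fin d := ⟨0, by omega⟩
  by_cases hp : ∃ k, 0 < k ∧ (Phi (AD d) c ^ k) t = t
  · have hns : ∃ (a b : ℕ) (i : Fin (d + 1)) (j j' : Fin d), i ≠ 0 ∧
        T ≤ xc (AD d) i (fc (AD d) ((Phi (AD d) c ^ a) t) j) -
          xc (AD d) i (fc (AD d) ((Phi (AD d) c ^ b) t) j') := by
      by_contra hcon
      push Not at hcon
      exact hs ⟨hp, hcon⟩
    obtain ⟨a, b, i, j, j', hi, hab⟩ := hns
    obtain ⟨k, hk0, hk, hmin⟩ : ∃ k, 0 < k ∧ (Phi (AD d) c ^ k) t = t ∧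
        ∀ l, 0 < l → l < k → (Phi (AD d) c ^ l) t ≠ t := by
      refine ⟨Nat.find hp, (Nat.find_spec hp).1, (Nat.find_spec hp).2, ?_⟩
      intro l h1 h2 h3
      exact Nat.find_min hp h2 ⟨h1, h3⟩
    have hmul : ∀ q : ℕ, (Phi (AD d) c ^ (k * q)) t = t := by
      intro q
      induction q with
      | zero => rw [Nat.mul_zero, pow_zero]; rfl
      | succ q ih => rw [Nat.mul_succ, pow_add, Equiv.Perm.mul_apply, hk, ih]
    have hred : ∀ a : ℕ, (Phi (AD d) c ^ a) t = (Phi (AD d) c ^ (a % k)) t := by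
      intro a
      conv_lhs => rw [← Nat.mod_add_div a k, pow_add, Equiv.Perm.mul_apply, hmul]
    have hlong : ∀ a : ℕ, Long (AD d) c t (a % k) := by
      intro a
      refine ⟨hr, fun l h1 h2 => hmin l h1 ?_⟩
      exact lt_of_le_of_lt h2 (Nat.mod_lt _ hk0)
    rw [hred a, hred b] at hab
    rcases le_total T (2 * |xc (AD d) i (fc (AD d) ((Phi (AD d) c ^ (a % k)) t) j) -
        xc (AD d) i (fc (AD d) t j0)|) with h | h
    · exact ⟨a % k, i, j, j0, hlong a, h⟩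
    · refine ⟨b % k, i, j', j0, hlong b, ?_⟩
      have h1 := le_abs_self (xc (AD d) i (fc (AD d) ((Phi (AD d) c ^ (a % k)) t) j) -
        xc (AD d) i (fc (AD d) t j0))
      have h2 := neg_abs_le (xc (AD d) i (fc (AD d) ((Phi (AD d) c ^ (b % k)) t) j') -
        xc (AD d) i (fc (AD d) t j0))
      linarith
  · have hne : ∀ l, 0 < l → (Phi (AD d) c ^ l) t ≠ t := by
      intro l h1 h2
      exact hp ⟨l, h1, h2⟩
    by_contra hcon
    push Not at hcon
    have hb : ∀ (a : ℕ) (i : Fin (d + 1)) (j j' : Fin d),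
        2 * |xc (AD d) i (fc (AD d) ((Phi (AD d) c ^ a) t) j) - xc (AD d) i (fc (AD d) t j')| < T :=
      fun a i j j' => hcon a i j j' ⟨hr, fun l h1 _ => hne l h1⟩
    obtain ⟨M, hM⟩ : ∃ M : ℤ, ∀ i, |xc (AD d) i (fc (AD d) t j0)| ≤ M :=
      ⟨∑ i, |xc (AD d) i (fc (AD d) t j0)|, fun i =>
        Finset.single_le_sum (f := fun i => |xc (AD d) i (fc (AD d) t j0)|)
          (fun _ _ => abs_nonneg _) (Finset.mem_univ i)⟩
    have hfin := finite_box (AD d) xc_AD_inj (-(M + T + 1)) (M + T + 1)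
    have hinj : Function.Injective (fun a : ℕ => (Phi (AD d) c ^ a) t) := by
      have key : ∀ a b : ℕ, a < b → (Phi (AD d) c ^ a) t ≠ (Phi (AD d) c ^ b) t := by
        intro a b hab h
        obtain ⟨e, rfl⟩ := Nat.exists_eq_add_of_lt hab
        rw [show a + e + 1 = a + (e + 1) by omega, pow_add, Equiv.Perm.mul_apply] at h
        exact hne (e + 1) (by omega) ((Phi (AD d) c ^ a).injective h).symm
      intro a b h
      rcases lt_trichotomy a b with h1 | h1 | h1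
      · exact absurd h (key a b h1)
      · exact h1
      · exact absurd h.symm (key b a h1)
    refine Set.infinite_range_of_injective hinj (hfin.subset ?_)
    rintro _ ⟨a, rfl⟩ i _
    show -(M + T + 1) ≤ xc (AD d) i ((Phi (AD d) c ^ a) t).1 ∧
      xc (AD d) i ((Phi (AD d) c ^ a) t).1 ≤ M + T + 1
    have h1 := hb a i j0 j0
    have h2 := abs_le.1 (hM i)
    have h3 := le_abs_self (xc (AD d) i (fc (AD d) ((Phi (AD d) c ^ a) t) j0) -
      xc (AD d) i (fc (AD d) t j0))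
    have h4 := neg_abs_le (xc (AD d) i (fc (AD d) ((Phi (AD d) c ^ a) t) j0) -
      xc (AD d) i (fc (AD d) t j0))
    have h5 := xc_cell_le (AD d) ((Phi (AD d) c ^ a) t) i 0 (j0 + 1)
    have h6 := xc_cell_le (AD d) ((Phi (AD d) c ^ a) t) i (j0 + 1) 0
    rw [cell_zero] at h5 h6
    have h7 : cell (AD d) ((Phi (AD d) c ^ a) t) (j0 + 1) =
      fc (AD d) ((Phi (AD d) c ^ a) t) j0 := rfl
    rw [h7] at h5 h6
    constructor <;> linarith [h2.1, h2.2]

private theorem xc_cast_Far {d : ℕ} (i : Fin (d + 1)) (z : Ast d) :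
    ((xc (AD d) i z : ℤ) : ℝ) = (z : Fin (d + 1) → ℝ) i - (z : Fin (d + 1) → ℝ) 0 :=
  AD_rt i 0 z

private theorem vtx_fc_Far {d : ℕ} (s : St d (Ast d)) (j : Fin d) (i : Fin (d + 1)) :
    |vtx s i - ((fc (AD d) s j : Ast d) : Fin (d + 1) → ℝ) i| ≤ 1 / 2 :=
  vtx_cell s (k := (j : ℕ) + 1) (by omega) i

/-- the coordinates of a cell over `M` -/
private theorem abs_cell_Far {d : ℕ} {T : ℤ} (hT : 1 ≤ T) {x : Ast d} (h1 : inM (AD d) T x)
    (h2 : xc (AD d) (Fin.last d) x = 0) (i : Fin (d + 1)) :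
    |(x : Fin (d + 1) → ℝ) i| ≤ 2 * T := by
  have hT' : (1 : ℝ) ≤ T := by exact_mod_cast hT
  have hb : ∀ i : Fin (d + 1), 0 ≤ (x : Fin (d + 1) → ℝ) i - (x : Fin (d + 1) → ℝ) 0 ∧
      (x : Fin (d + 1) → ℝ) i - (x : Fin (d + 1) → ℝ) 0 ≤ 2 * T := by
    intro i
    rcases Fin.eq_castSucc_or_eq_last i with ⟨j, rfl⟩ | rfl
    · rcases Nat.eq_zero_or_pos (j : ℕ) with h | h
      · have h3 : j.castSucc = 0 := by
          ext
          exact h
        rw [h3, sub_self]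
        constructor <;> linarith
      · have h3 := h1 j h
        have h4 := xc_cast_Far j.castSucc x
        have h5 : (0 : ℝ) ≤ ((xc (AD d) j.castSucc x : ℤ) : ℝ) := by exact_mod_cast h3.1
        have h6 : ((xc (AD d) j.castSucc x : ℤ) : ℝ) ≤ 2 * T := by exact_mod_cast h3.2
        constructor <;> linarith
    · have h4 := xc_cast_Far (Fin.last d) x
      rw [h2, Int.cast_zero] at h4
      constructor <;> linarith
  have hsum : ∑ i, (x : Fin (d + 1) → ℝ) i = 0 := x.2.1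
  have hd : (0 : ℝ) < (d : ℝ) + 1 := by positivity
  have e1 : ∑ i : Fin (d + 1), ((x : Fin (d + 1) → ℝ) i - (x : Fin (d + 1) → ℝ) 0) =
      -(((d : ℝ) + 1) * (x : Fin (d + 1) → ℝ) 0) := by
    rw [Finset.sum_sub_distrib, hsum, Finset.sum_const, Finset.card_univ, Fintype.card_fin,
      nsmul_eq_mul]
    push_cast
    ring
  have e2 : 0 ≤ ∑ i : Fin (d + 1), ((x : Fin (d + 1) → ℝ) i - (x : Fin (d + 1) → ℝ) 0) :=
    Finset.sum_nonneg fun i _ => (hb i).1
  have e3 : ∑ i : Fin (d + 1), ((x : Fin (d + 1) → ℝ) i - (x : Fin (d + 1) → ℝ) 0) ≤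
      ∑ _i : Fin (d + 1), (2 * (T : ℝ)) := Finset.sum_le_sum fun i _ => (hb i).2
  rw [Finset.sum_const, Finset.card_univ, Fintype.card_fin, nsmul_eq_mul] at e3
  push_cast at e3
  rw [e1] at e2 e3
  have e4 : (x : Fin (d + 1) → ℝ) 0 ≤ 0 := by
    by_contra hcon
    have := mul_pos hd (not_le.1 hcon)
    linarith
  have e5 : -(2 * (T : ℝ)) ≤ (x : Fin (d + 1) → ℝ) 0 := by
    by_contra hcon
    have := mul_pos hd (sub_pos.2 (not_le.1 hcon))
    linarith
  have e6 := hb i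
  rw [abs_le]
  constructor <;> linarith [e6.1, e6.2]

theorem far_of_bad {d : ℕ} [NeZero d] (hd : 2 ≤ d) {T : ℤ} (hT : 1 ≤ T) {c : Ast d → Fin d} {z0 : Ast d}
    (h : BadAt (AD d) xc_AD_inj T c z0) :
    ∃ (γ : ℕ → Fin (d + 1) → ℝ) (m : ℕ), IsPath c γ m ∧
      (∀ i, |γ 0 i - (z0 : Fin (d + 1) → ℝ) i| ≤ 2 * T + 1) ∧
      ∃ i, (T : ℝ) / 4 - 1 ≤ |γ m i - γ 0 i| := by
  obtain ⟨s, hsM, hr, hs⟩ := h
  obtain ⟨a, i, j, j', hlong, hfar⟩ := exists_far_Far hd hT hr hs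
  have hd1 : 1 ≤ d := by omega
  refine ⟨fun k => vtx ((Phi (AD d) c ^ k) (tr z0 s)), a, path_of hd1 hlong, ?_, ?_⟩
  · intro i
    show |vtx (tr z0 s) i - (z0 : Fin (d + 1) → ℝ) i| ≤ 2 * T + 1
    obtain ⟨h1, h2⟩ := (mem_EM hd1 hT).1 hsM
    have j0 : Fin d := ⟨0, by omega⟩
    have h3 : xc (AD d) (Fin.last d) (fc (AD d) s j0) = 0 := by
      rcases h1 with h1 | h1
      · exact Up_fc hd1 h1 j0
      · exact Dn_fc hd1 h1 j0
    have h4 := abs_cell_Far hT (h2 j0) h3 i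
    have h5 := vtx_fc_Far (tr z0 s) j0 i
    rw [fc_tr, AddSubgroup.coe_add, Pi.add_apply] at h5
    rw [abs_le] at h4 h5 ⊢
    constructor <;> linarith [h4.1, h4.2, h5.1, h5.2]
  · have e1 := vtx_fc_Far ((Phi (AD d) c ^ a) (tr z0 s)) j i
    have e2 := vtx_fc_Far ((Phi (AD d) c ^ a) (tr z0 s)) j 0
    have e3 := vtx_fc_Far (tr z0 s) j' i
    have e4 := vtx_fc_Far (tr z0 s) j' 0
    have hfar' : (T : ℝ) ≤ 2 * |((xc (AD d) i (fc (AD d) ((Phi (AD d) c ^ a) (tr z0 s)) j) : ℤ) : ℝ) -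
        ((xc (AD d) i (fc (AD d) (tr z0 s) j') : ℤ) : ℝ)| := by exact_mod_cast hfar
    rw [xc_cast_Far, xc_cast_Far] at hfar'
    by_contra hcon
    push Not at hcon
    have f1 := hcon i
    have f2 := hcon 0
    have f3 : |vtx ((Phi (AD d) c ^ a) (tr z0 s)) i - vtx (tr z0 s) i| < (T : ℝ) / 4 - 1 := f1
    have f4 : |vtx ((Phi (AD d) c ^ a) (tr z0 s)) 0 - vtx (tr z0 s) 0| < (T : ℝ) / 4 - 1 := f2
    have f5 := abs_lt.1 f3
    have f6 := abs_lt.1 f4
    have g1 := abs_le.1 e1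
    have g2 := abs_le.1 e2
    have g3 := abs_le.1 e3
    have g4 := abs_le.1 e4
    rcases le_abs.1 ((div_le_iff₀' (two_pos : (0 : ℝ) < 2)).2 hfar') with h | h <;>
      linarith [f5.1, f5.2, f6.1, f6.2, g1.1, g1.2, g2.1, g2.2, g3.1, g3.2, g4.1, g4.2]

end Pool.Agent.DCE
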