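import Pool.Agent.DCE.Local
import Pool.Agent.DCE.BadProb

/-!
# Extended phase of the d-colour paths: many boxes

PROOF. Let `e : A ≃ Fin d` be as in `Good d`, `N = d ^ d` the number of `g : Fin d → A`. For `G : Fin K → Fin d → A` let
`cG ω G x = e (e.symm (ω x) + ∑ b, if Nb (z b) x then G b (rg D T (x - z b)) else 0)`. By `hz` at most one term of the sum is not zero, and
for `x` in `Nb (z b)`: `cG ω G x = cg D T e (fun y => ω (y + z b)) (G b) (x - z b)`. So, by `BadAt_tr` and `BadAt_congr`,
`BadAt (cG ω G) (z b) ↔ (∃ s ∈ EM, rb (cg (ω (· + z b)) (G b)) s ∧ ¬Small ..)`: this depends only on `b`, `ω` and `G b`, call it `B b ω (G b)`, and by `det`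
for all `b`, `ω` there is a `g` with `B b ω g`. So the number of `G` with `∀ b, ¬B b ω (G b)` is `∏ b, #{g | ¬B b ω g} ≤ (N - 1) ^ K`
(`Fintype.piFinset`, `Fintype.card_piFinset`). Let `S = {c | ∀ b, ¬BadAt c (z b)}` (measurable, `meas_BadAt`). For every `G`,
`mu {ω | cG ω G ∈ S} = mu S` (`mu_twist`). Hence `N ^ K * mu S = ∑ G, mu {ω | cG ω G ∈ S} = ∫⁻ ω, ∑ G, indicator = ∫⁻ ω, #{G | ...} ≤ (N - 1) ^ K`
(`lintegral_finset_sum`, `lintegral_indicator_one`; `mu` is a probability measure).
-/

set_option autoImplicit false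

namespace Pool.Agent.DCE

open MeasureTheory Pool.Agent.DCP

variable {d : ℕ} [NeZero d] {L : Type} [AddCommGroup L]

/-- the number of the choices without a bad box -/
private theorem card_none {A : Type} [Fintype A] {d K N : ℕ}
    (hN : Fintype.card (Fin d → A) = N) (B : Fin K → (Fin d → A) → Prop)
    (hB : ∀ b, ∃ g, B b g) (P : (Fin K → Fin d → A) → Prop) [DecidablePred P]
    (hP : ∀ G, P G → ∀ b, ¬B b (G b)) :
    (Finset.univ.filter P).card ≤ (N - 1) ^ K := by
  classical
  have h1 : Finset.univ.filter P ⊆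
      Fintype.piFinset (fun b => Finset.univ.filter fun g => ¬B b g) := by
    intro G hG
    rw [Fintype.mem_piFinset]
    intro b
    rw [Finset.mem_filter] at hG ⊢
    exact ⟨Finset.mem_univ _, hP G hG.2 b⟩
  refine (Finset.card_le_card h1).trans ?_
  rw [Fintype.card_piFinset]
  calc ∏ b, (Finset.univ.filter fun g => ¬B b g).card ≤ ∏ _b : Fin K, (N - 1) := by
        refine Finset.prod_le_prod' fun b _ => ?_
        obtain ⟨g, hg⟩ := hB b
        have h2 : (Finset.univ.filter fun g => ¬B b g) ⊆ Finset.univ.erase g := by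
          intro g' hg'
          rw [Finset.mem_filter] at hg'
          refine Finset.mem_erase.2 ⟨fun h => hg'.2 (h ▸ hg), Finset.mem_univ _⟩
        refine (Finset.card_le_card h2).trans ?_
        rw [Finset.card_erase_of_mem (Finset.mem_univ g), Finset.card_univ, hN]
    _ = (N - 1) ^ K := by rw [Finset.prod_const, Finset.card_univ, Fintype.card_fin]

theorem none_bad {D : LD d L} {T : ℤ} (hL : ∀ z : L, (∀ i, i ≠ 0 → xc D i z = 0) → z = 0)
    (hT : 1 ≤ T) (hd : 2 ≤ d) (hG : Good d) {ν : Measure (Fin d)} [IsProbabilityMeasure ν]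
    (hν : ∀ i j, ν {i} = ν {j}) {K : ℕ} (z : Fin K → L)
    (hz : ∀ b b', b ≠ b' → ∀ x, ¬(Nb D T (z b) x ∧ Nb D T (z b') x)) :
    ((d : ENNReal) ^ d) ^ K * mu L ν {c | ∀ b, ¬BadAt D hL T c (z b)} ≤ ((d : ENNReal) ^ d - 1) ^ K := by
  classical
  obtain ⟨A, K', iA, iK, e, hA⟩ := hG
  have : Fintype A := Fintype.ofEquiv (Fin d) e.symm
  set S : Set (L → Fin d) := {c | ∀ b, ¬BadAt D hL T c (z b)} with hS
  let a : (Fin K → Fin d → A) → L → A := fun G x =>
    ∑ b, if Nb D T (z b) x then G b (rg D T (x - z b)) else 0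
  let cG : (Fin K → Fin d → A) → (L → Fin d) → (L → Fin d) := fun G ω x =>
    e (e.symm (ω x) + a G x)
  let B : Fin K → (L → Fin d) → (Fin d → A) → Prop := fun b ω g =>
    BadAt D hL T (fun x => e (e.symm (ω x) + g (rg D T (x - z b)))) (z b)
  have h1 : ∀ G ω b, BadAt D hL T (cG G ω) (z b) ↔ B b ω (G b) := by
    intro G ω b
    refine BadAt_congr hd hT (fun x hx => ?_)
    have h3 : a G x = G b (rg D T (x - z b)) := by
      show (∑ b', if Nb D T (z b') x then G b' (rg D T (x - z b')) else 0) = _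
      rw [Finset.sum_eq_single b, if_pos hx]
      · intro b' _ hne
        exact if_neg fun h => hz b' b hne x ⟨h, hx⟩
      · intro h
        exact absurd (Finset.mem_univ b) h
    show e (e.symm (ω x) + a G x) = e (e.symm (ω x) + G b (rg D T (x - z b)))
    rw [h3]
  have h2 : ∀ b ω, ∃ g, B b ω g := by
    intro b ω
    obtain ⟨g, s, hs, hr, hsm⟩ := det (D := D) (T := T) (e := e) (K := K') hL hT hd hA
      (fun x => ω (x + z b))
    refine ⟨g, ?_⟩
    have h3 : (fun x => (fun x => e (e.symm (ω x) + g (rg D T (x - z b)))) (x + z b)) =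
        cg D T e (fun x => ω (x + z b)) g := by
      funext x
      show e (e.symm (ω (x + z b)) + g (rg D T (x + z b - z b))) = _
      rw [add_sub_cancel_right]
      rfl
    refine BadAt_tr.2 ⟨s, hs, ?_, ?_⟩
    · rw [h3]; exact hr
    · rw [h3]; exact hsm
  have hSm : MeasurableSet S := by
    have h3 : S = ⋂ b, {c : L → Fin d | BadAt D hL T c (z b)}ᶜ := by
      ext c
      simp [hS]
    rw [h3]
    exact MeasurableSet.iInter fun b => (meas_BadAt hd hT (z b)).compl
  have hcm : ∀ G, Measurable (cG G) := fun G =>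
    measurable_pi_lambda _ fun x =>
      (measurable_of_countable fun i : Fin d => e (e.symm i + a G x)).comp (measurable_pi_apply x)
  have hmu : ∀ G, mu L ν {ω | cG G ω ∈ S} = mu L ν S := fun G =>
    mu_twist hν (fun x => e.symm.trans ((Equiv.addRight (a G x)).trans e)) S
  have hN : Fintype.card (Fin d → A) = d ^ d := by
    rw [Fintype.card_fun, Fintype.card_congr e, Fintype.card_fin]
  have hNK : Fintype.card (Fin K → Fin d → A) = (d ^ d) ^ K := by
    rw [Fintype.card_fun, hN, Fintype.card_fin]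
  calc ((d : ENNReal) ^ d) ^ K * mu L ν S
      = ∑ G : Fin K → Fin d → A, mu L ν {ω | cG G ω ∈ S} := by
        simp only [hmu]
        rw [Finset.sum_const, Finset.card_univ, hNK, nsmul_eq_mul]
        push_cast
        rfl
    _ = ∑ G : Fin K → Fin d → A, ∫⁻ ω, {ω | cG G ω ∈ S}.indicator 1 ω ∂(mu L ν) := by
        refine Finset.sum_congr rfl fun G _ => ?_
        exact (lintegral_indicator_one (hcm G hSm)).symm
    _ = ∫⁻ ω, ∑ G : Fin K → Fin d → A, {ω | cG G ω ∈ S}.indicator 1 ω ∂(mu L ν) := by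
        rw [lintegral_finsetSum]
        intro G _
        exact measurable_one.indicator (hcm G hSm)
    _ ≤ ∫⁻ _, (((d ^ d - 1) ^ K : ℕ) : ENNReal) ∂(mu L ν) := by
        refine lintegral_mono fun ω => ?_
        have h3 : ∑ G : Fin K → Fin d → A, {ω | cG G ω ∈ S}.indicator (1 : (L → Fin d) → ENNReal) ω =
            (((Finset.univ.filter fun G : Fin K → Fin d → A => cG G ω ∈ S).card : ℕ) : ENNReal) := by
          rw [Finset.card_filter]
          push_cast
          refine Finset.sum_congr rfl fun G _ => ?_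
          by_cases h : cG G ω ∈ S
          · rw [if_pos h, Set.indicator_of_mem (show ω ∈ {ω | cG G ω ∈ S} from h)]; rfl
          · rw [if_neg h, Set.indicator_of_notMem (show ω ∉ {ω | cG G ω ∈ S} from h)]
        rw [h3]
        exact Nat.cast_le.2 <| card_none hN (fun b g => B b ω g) (fun b => h2 b ω)
          (fun G => cG G ω ∈ S) (fun G hGS b hb => hGS b ((h1 G ω b).2 hb))
    _ = ((d : ENNReal) ^ d - 1) ^ K := by
        rw [lintegral_const, measure_univ, mul_one, Nat.cast_pow, ENNReal.natCast_sub]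
        push_cast
        rfl

end Pool.Agent.DCE
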