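import Pool.Agent.DCE.Long
import Pool.Agent.DCE.BadProb
import Pool.Agent.DCP.NullA
import Pool.Agent.DCP.Prob

/-!
# Extended phase of the d-colour paths: all edges are equivalent, lower bound for long paths

PROOFS. `long_eq`: `mu {c | Long c (tr z s) m} = mu {c | Long c s m}` by `Long_tr` and `mu_equiv` (the translation `Equiv.addRight z`; for
outer measures of arbitrary sets use that the map of colourings is a measurable equivalence, or the form of `mu_equiv`), the same for
`rfs D b b' m s` by `Long_rfs` and `rfE`. `(rfs D b b' m s).2 = s.2.trans (swap b b')` (see `Equi.lean`), the permutation group is generated by the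
transpositions (`Equiv.Perm.swap_induction_on`), and the hole can be moved by a translation; so any state can be mapped to any other
one.
`long_lower`: `T = m + 1`. By `bad_prob`, the union bound over `EM` and `long_of_not_small`:
`1 ≤ d^d * ∑ s ∈ EM, mu {c | Long c s m} = d^d * #EM * mu {c | Long c s0 m}`; `card_EM`.
-/

set_option autoImplicit false

namespace Pool.Agent.DCE

open MeasureTheory Pool.Agent.DCP

variable {d : ℕ} [NeZero d] {L : Type} [AddCommGroup L] {D : LD d L} {ν : Measure (Fin d)}
  [IsProbabilityMeasure ν]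

/-- the law is invariant under a bijection of the cells, for arbitrary sets -/
private theorem mu_pre87 (E : L ≃ L) (S : Set (L → Fin d)) :
    mu L ν {c | (fun x => c (E x)) ∈ S} = mu L ν S := by
  have hm : ∀ E' : L ≃ L, Measurable fun (c : L → Fin d) (x : L) => c (E' x) := fun E' =>
    measurable_pi_lambda _ fun x => measurable_pi_apply (E' x)
  let F : (L → Fin d) ≃ᵐ (L → Fin d) :=
    { toFun := fun c x => c (E x)
      invFun := fun c x => c (E.symm x)
      left_inv := fun c => by
        funext x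
        show c (E (E.symm x)) = c x
        rw [Equiv.apply_symm_apply]
      right_inv := fun c => by
        funext x
        show c (E.symm (E x)) = c x
        rw [Equiv.symm_apply_apply]
      measurable_toFun := hm E
      measurable_invFun := hm E.symm }
  have hF : MeasurePreserving F (mu L ν) (mu L ν) := mu_equiv ν E
  exact hF.measure_preimage_equiv S

private theorem long_tr87 (z : L) (s : St d L) (m : ℕ) :
    mu L ν {c | Long D c (tr z s) m} = mu L ν {c | Long D c s m} := by
  rw [← mu_pre87 (ν := ν) (Equiv.addRight z) {c | Long D c s m}]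
  congr 1
  ext c
  exact Long_tr z

private theorem long_rfs87 {b b' : Fin (d + 1)} (hb : b ≠ b') (k : ℤ) (s : St d L) (m : ℕ) :
    mu L ν {c | Long D c (rfs D b b' k s) m} = mu L ν {c | Long D c s m} := by
  rw [← mu_pre87 (ν := ν) (rfE D hb k) {c | Long D c s m}]
  congr 1
  ext c
  exact Long_rfs hb k

private theorem long_perm87 (s : St d L) (m : ℕ) (σ : Equiv.Perm (Fin (d + 1))) :
    ∃ s' : St d L, s'.2 = s.2.trans σ ∧ mu L ν {c | Long D c s' m} = mu L ν {c | Long D c s m} := by
  induction σ using Equiv.Perm.swap_induction_on with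
  | one => exact ⟨s, rfl, rfl⟩
  | swap_mul f x y hxy ih =>
    obtain ⟨s', h1, h2⟩ := ih
    refine ⟨rfs D x y 0 s', ?_, (long_rfs87 hxy 0 s' m).trans h2⟩
    show s'.2.trans (Equiv.swap x y) = _
    rw [h1]
    rfl

theorem long_eq (s t : St d L) (m : ℕ) : mu L ν {c | Long D c s m} = mu L ν {c | Long D c t m} := by
  obtain ⟨s', h1, h2⟩ := long_perm87 (D := D) (ν := ν) s m (s.2.symm.trans t.2)
  have h3 : t = tr (t.1 - s'.1) s' := by
    refine Prod.ext ?_ ?_
    · show t.1 = s'.1 + (t.1 - s'.1)
      abel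
    · show t.2 = s'.2
      rw [h1, ← Equiv.trans_assoc, Equiv.self_trans_symm, Equiv.refl_trans]
  rw [← h2, h3, long_tr87]

theorem long_lower (hL : ∀ z : L, (∀ i, i ≠ 0 → xc D i z = 0) → z = 0) (hd : 2 ≤ d) (hG : Good d)
    (hν : ∀ i j, ν {i} = ν {j}) (s : St d L) (m : ℕ) :
    1 ≤ (d : ENNReal) ^ d * (2 * (d + 1).factorial * (5 * (m + 1)) ^ (d - 1)) *
      mu L ν {c | Long D c s m} := by
  have hT : (1 : ℤ) ≤ (m : ℤ) + 1 := by omega
  have h1 := bad_prob (D := D) (T := (m : ℤ) + 1) hL hT hd hG hν
  have h2 : mu L ν {c | ∃ s ∈ EM D hL ((m : ℤ) + 1), rb D c s ∧ ¬Small D ((m : ℤ) + 1) c s} ≤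
      ((EM D hL ((m : ℤ) + 1)).card : ENNReal) * mu L ν {c | Long D c s m} := by
    refine (measure_mono (t := ⋃ u ∈ EM D hL ((m : ℤ) + 1), {c | Long D c u m}) ?_).trans
      ((measure_biUnion_finset_le _ _).trans ?_)
    · rintro c ⟨u, hu, hr, hsm⟩
      refine Set.mem_iUnion₂.2 ⟨u, hu, ?_⟩
      exact long_of_not_small hd hr hsm (by omega)
    · rw [Finset.sum_congr rfl fun u _ => long_eq (D := D) (ν := ν) u s m, Finset.sum_const,
        nsmul_eq_mul]
  have h3 : (EM D hL ((m : ℤ) + 1)).card ≤ 2 * (d + 1).factorial * (5 * (m + 1)) ^ (d - 1) := by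
    have h4 := card_EM (D := D) hd (hL := hL) hT
    exact_mod_cast h4
  have h5 : ((EM D hL ((m : ℤ) + 1)).card : ENNReal) ≤
      2 * (d + 1).factorial * (5 * (m + 1)) ^ (d - 1) := by
    have h6 : ((EM D hL ((m : ℤ) + 1)).card : ENNReal) ≤
        ((2 * (d + 1).factorial * (5 * (m + 1)) ^ (d - 1) : ℕ) : ENNReal) := Nat.cast_le.2 h3
    push_cast at h6
    exact h6
  calc (1 : ENNReal) ≤ (d : ENNReal) ^ d *
      mu L ν {c | ∃ s ∈ EM D hL ((m : ℤ) + 1), rb D c s ∧ ¬Small D ((m : ℤ) + 1) c s} := h1
    _ ≤ (d : ENNReal) ^ d * ((2 * (d + 1).factorial * (5 * (m + 1)) ^ (d - 1)) *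
        mu L ν {c | Long D c s m}) := by
        gcongr
        exact h2.trans (by gcongr)
    _ = _ := by ring

end Pool.Agent.DCE
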