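import Pool.Agent.DCE.Far
import Pool.Agent.DCE.Multi
import Pool.Agent.DCE.Trans

/-!
# Extended phase of the d-colour paths: the two final statements, for good `d`

PROOFS. `final_box`: let `ε > 0` (`ENNReal`, `ε ≠ 0`), `N = d^d`, `K ≥ 1` with `((N-1)/N)^K ≤ ε`. Let `δ = 1 / (100 * K)`, `R0 = 100 * K`, and for `R ≥ R0`
`T = ⌊R / (10 K)⌋ - 2 ≥ 1` (so `K * (4 T + 4) + 2 T + 1 ≤ R` and `δ * R ≤ T / 4 - 1` (for large `R0`; choose `R0` and `δ` generously). The boxes: `z b = b • ((4 T + 4) • v last)`, `b : Fin K`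
(`xc last (z b) = b * (4 T + 4)`; two neighbourhoods `Nb` with `b ≠ b'` are disjoint as `3 T + 1 + (T + 1) < 4 T + 4`), coordinates of `z b` bounded by
`b * (4 T + 4)` (`AD_v`). If the event fails then no box is bad (`far_of_bad`), so `none_bad` bounds the probability by `((N-1)/N)^K`.
`final_edge`: let `p`, `q` be vertices with exactly `d` common cells. Choose a colouring `c0` injective on the common cells, so `ColEdge c0 p q`, and
`s` from `edge_state`: `vtx s = p`, `vtx (R s) = q`. For every `c` with `Long c s m` the path of `path_of` starts with `p`, `q` (`vtx_Phi_eq`). `long_lower`.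
-/

set_option autoImplicit false

namespace Pool.Agent.DCE

open MeasureTheory Pool.Agent.DCP

variable {d : ℕ} {ν : Measure (Fin d)} [IsProbabilityMeasure ν]

private theorem last_ne_zeroF (hd : 2 ≤ d) : Fin.last d ≠ 0 := by
  intro h
  have h1 := congrArg Fin.val h
  simp at h1
  omega

/-- the vertical coordinate of a box -/
private theorem xc_boxF (hd : 2 ≤ d) (n : ℤ) : xc (AD d) (Fin.last d) (n • (AD d).v (Fin.last d)) = n := by
  have h1 : xc (AD d) (Fin.last d) (n • (AD d).v (Fin.last d)) =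
      n * xc (AD d) (Fin.last d) ((AD d).v (Fin.last d)) := by
    unfold xc
    rw [map_zsmul, smul_eq_mul]
  rw [h1, xc_v, if_pos rfl, if_neg (last_ne_zeroF hd)]
  ring

/-- the coordinates of the boxes are bounded -/
private theorem abs_boxF {n : ℤ} (hn : 0 ≤ n) (i : Fin (d + 1)) :
    |((n • (AD d).v (Fin.last d) : Ast d) : Fin (d + 1) → ℝ) i| ≤ n := by
  have h1 : ((n • (AD d).v (Fin.last d) : Ast d) : Fin (d + 1) → ℝ) i =
      (n : ℝ) * ((AD d).v (Fin.last d) : Fin (d + 1) → ℝ) i := by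
    rw [AddSubgroup.coe_zsmul, Pi.smul_apply, zsmul_eq_mul]
  have h2 : |((AD d).v (Fin.last d) : Fin (d + 1) → ℝ) i| ≤ 1 := by
    rw [AD_v]
    have h3 : (0 : ℝ) < 1 / ((d : ℝ) + 1) := by positivity
    have h4 : 1 / ((d : ℝ) + 1) ≤ 1 := by
      rw [div_le_one (by positivity)]
      have : (0 : ℝ) ≤ d := Nat.cast_nonneg d
      linarith
    rw [abs_le]
    split_ifs <;> constructor <;> linarith
  have h5 : (0 : ℝ) ≤ n := by exact_mod_cast hn
  rw [h1, abs_mul, abs_of_nonneg h5]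
  calc (n : ℝ) * |((AD d).v (Fin.last d) : Fin (d + 1) → ℝ) i| ≤ n * 1 :=
        mul_le_mul_of_nonneg_left h2 h5
    _ = n := mul_one _

/-- the number of boxes -/
private theorem exists_KF (hd : 2 ≤ d) {ε : ENNReal} (hε : ε ≠ 0) :
    ∃ K : ℕ, 1 ≤ K ∧ ∀ a : ENNReal,
      ((d : ENNReal) ^ d) ^ K * a ≤ ((d : ENNReal) ^ d - 1) ^ K → a ≤ ε := by
  have hN0 : ((d : ENNReal) ^ d) ≠ 0 := by
    refine pow_ne_zero _ ?_
    exact_mod_cast (show d ≠ 0 by omega)
  have hNt : ((d : ENNReal) ^ d) ≠ ⊤ := ENNReal.pow_ne_top (ENNReal.natCast_ne_top d)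
  have hr : ((d : ENNReal) ^ d - 1) / (d : ENNReal) ^ d < 1 := by
    rw [ENNReal.div_lt_iff (Or.inl hN0) (Or.inl hNt), one_mul]
    exact ENNReal.sub_lt_self hNt hN0 one_ne_zero
  have h1 := ENNReal.tendsto_pow_atTop_nhds_zero_of_lt_one hr
  have h2 := (h1.eventually (gt_mem_nhds (pos_iff_ne_zero.2 hε))).and (Filter.eventually_ge_atTop 1)
  obtain ⟨K, hK, hK1⟩ := h2.exists
  refine ⟨K, hK1, fun a ha => ?_⟩
  have h3 : a ≤ (((d : ENNReal) ^ d - 1) / (d : ENNReal) ^ d) ^ K := by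
    rw [ENNReal.div_eq_inv_mul, mul_pow, ← ENNReal.inv_pow, ← ENNReal.div_eq_inv_mul,
      ENNReal.le_div_iff_mul_le (Or.inl (pow_ne_zero _ hN0)) (Or.inl (ENNReal.pow_ne_top hNt)),
      mul_comm]
    exact ha
  exact h3.trans hK.le

theorem final_box (hd : 2 ≤ d) (hG : Good d) (hν : ∀ i j, ν {i} = ν {j}) {ε : ENNReal} (hε : ε ≠ 0) :
    ∃ δ : ℝ, 0 < δ ∧ ∃ R0 : ℝ, ∀ R : ℝ, R0 ≤ R →
      mu (Ast d) ν {c | ¬∃ (γ : ℕ → Fin (d + 1) → ℝ) (m : ℕ), IsPath c γ m ∧ (∀ i, |γ 0 i| ≤ R) ∧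
        ∃ i, δ * R ≤ |γ m i - γ 0 i|} ≤ ε := by
  have : NeZero d := ⟨by omega⟩
  obtain ⟨K, hK, hKe⟩ := exists_KF hd hε
  have hK' : (1 : ℝ) ≤ K := by exact_mod_cast hK
  refine ⟨1 / (80 * K), by positivity, 100 * K, fun R hR => ?_⟩
  obtain ⟨T, hT⟩ : ∃ T : ℤ, T = ⌊R / (10 * K)⌋ := ⟨_, rfl⟩
  have hT1 : (T : ℝ) ≤ R / (10 * K) := by
    rw [hT]
    exact Int.floor_le _
  have hT2 : R / (10 * K) < T + 1 := by
    rw [hT]
    exact Int.lt_floor_add_one _
  have hT3 : 1 ≤ T := by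
    rw [hT, Int.le_floor]
    push_cast
    rw [le_div_iff₀ (by positivity)]
    linarith
  have hT1' : T * (10 * K) ≤ R := by
    rwa [le_div_iff₀ (by positivity)] at hT1
  have hT3' : (1 : ℝ) ≤ T := by exact_mod_cast hT3
  let z : Fin K → Ast d := fun b => (((b : ℕ) : ℤ) * (4 * T + 4)) • (AD d).v (Fin.last d)
  have hzn : ∀ b : Fin K, 0 ≤ ((b : ℕ) : ℤ) * (4 * T + 4) := fun b => by positivity
  have hz : ∀ b b', b ≠ b' → ∀ x, ¬(Nb (AD d) T (z b) x ∧ Nb (AD d) T (z b') x) := by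
    have key : ∀ b b' : Fin K, b < b' → ∀ x, ¬(Nb (AD d) T (z b) x ∧ Nb (AD d) T (z b') x) := by
      rintro b b' hbb x ⟨h1, h2⟩
      have h3 := (h1 (Fin.last d) (last_ne_zeroF hd)).2
      have h4 := (h2 (Fin.last d) (last_ne_zeroF hd)).1
      rw [xc_sub] at h3 h4
      have h5 : xc (AD d) (Fin.last d) (z b) = ((b : ℕ) : ℤ) * (4 * T + 4) := xc_boxF hd _
      have h6 : xc (AD d) (Fin.last d) (z b') = ((b' : ℕ) : ℤ) * (4 * T + 4) := xc_boxF hd _
      rw [h5] at h3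
      rw [h6] at h4
      have h7 : ((b : ℕ) : ℤ) + 1 ≤ ((b' : ℕ) : ℤ) := by
        have : (b : ℕ) < (b' : ℕ) := hbb
        omega
      have h8 : (((b : ℕ) : ℤ) + 1) * (4 * T + 4) ≤ ((b' : ℕ) : ℤ) * (4 * T + 4) :=
        mul_le_mul_of_nonneg_right h7 (by omega)
      linarith
    intro b b' hbb x hx
    rcases lt_or_gt_of_ne hbb with h | h
    · exact key b b' h x hx
    · exact key b' b h x hx.symm
  have h1 := none_bad (D := AD d) xc_AD_inj hT3 hd hG hν z hz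
  refine le_trans (measure_mono ?_) (hKe _ h1)
  intro c hc b hb
  apply hc
  obtain ⟨γ, m, hγ, hγ0, i, hi⟩ := far_of_bad hd hT3 hb
  refine ⟨γ, m, hγ, fun i => ?_, i, ?_⟩
  · have h2 := hγ0 i
    have h3 : |((z b : Ast d) : Fin (d + 1) → ℝ) i| ≤ ((((b : ℕ) : ℤ) * (4 * T + 4) : ℤ) : ℝ) :=
      abs_boxF (hzn b) i
    push_cast at h3
    have h4 : ((b : ℕ) : ℝ) + 1 ≤ K := by exact_mod_cast b.2
    have h5 : ((b : ℕ) : ℝ) * (4 * T + 4) ≤ (K - 1) * (4 * T + 4) :=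
      mul_le_mul_of_nonneg_right (by linarith) (by linarith)
    rw [abs_le] at h2 h3 ⊢
    constructor
    · nlinarith [h2.1, h3.1]
    · nlinarith [h2.2, h3.2]
  · refine le_trans ?_ hi
    have h2 : R / (10 * K) = 8 * (1 / (80 * K) * R) := by
      field_simp
      ring
    have h3 : 10 ≤ R / (10 * K) := by
      rw [le_div_iff₀ (by positivity)]
      linarith
    linarith

theorem final_edge (hd : 2 ≤ d) (hG : Good d) (hν : ∀ i j, ν {i} = ν {j})
    {p q : Fin (d + 1) → ℝ} (hp : IsVertex p) (hq : IsVertex q)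
    (hpq : (cellsAt p ∩ cellsAt q).ncard = d) {m : ℕ} (hm : 1 ≤ m) :
    1 ≤ (d : ENNReal) ^ d * (2 * (d + 1).factorial * (5 * (m + 1)) ^ (d - 1)) *
      mu (Ast d) ν {c | ∃ γ : ℕ → Fin (d + 1) → ℝ, γ 0 = p ∧ γ 1 = q ∧ IsPath c γ m} := by
  classical
  have _ := hm
  have : NeZero d := ⟨by omega⟩
  have hfin : (cellsAt p ∩ cellsAt q).Finite := Set.finite_of_ncard_pos (by omega)
  obtain ⟨c0, hc0⟩ : ∃ c0 : Ast d → Fin d, Set.InjOn c0 (cellsAt p ∩ cellsAt q) := by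
    have := hfin.to_subtype
    have hcard : Nat.card ↥(cellsAt p ∩ cellsAt q) = d := hpq
    let e := Finite.equivFinOfCardEq hcard
    refine ⟨fun x => if h : x ∈ cellsAt p ∩ cellsAt q then e ⟨x, h⟩ else 0, ?_⟩
    intro x hx y hy hxy
    have h1 : e ⟨x, hx⟩ = e ⟨y, hy⟩ := by
      have h2 : (fun x => if h : x ∈ cellsAt p ∩ cellsAt q then e ⟨x, h⟩ else 0) x =
        (fun x => if h : x ∈ cellsAt p ∩ cellsAt q then e ⟨x, h⟩ else 0) y := hxy
      beta_reduce at h2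
      rwa [dif_pos hx, dif_pos hy] at h2
    exact congrArg Subtype.val (e.injective h1)
  obtain ⟨s, -, h1, h2, -⟩ := edge_state (by omega : 1 ≤ d) (⟨hp, hq, hpq, hc0⟩ : ColEdge c0 p q)
  refine (long_lower (D := AD d) (ν := ν) xc_AD_inj hd hG hν s m).trans ?_
  refine mul_le_mul_right (measure_mono ?_) _
  intro c hc
  refine ⟨fun k => vtx ((Phi (AD d) c ^ k) s), ?_, ?_, path_of (by omega) hc⟩
  · show vtx ((Phi (AD d) c ^ 0) s) = p
    rw [pow_zero]
    exact h1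
  · show vtx ((Phi (AD d) c ^ 1) s) = q
    rw [pow_one, vtx_Phi_eq, h2]

end Pool.Agent.DCE
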