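import Mathlib

/-!
# The signed rainbow indicator is not representable (all prime powers)

Let `F` be a finite field with `d` elements.  The Vandermonde product
`vdm g = ∏ i < j, (g j - g i)` of a word `g : Fin d → F` is a signed indicator of the injective
(rainbow) words.  We give an explicit functional `n : (Fin d → F) → F` which kills every function
that does not depend on one of the letters and is invariant under simultaneous translation of all
letters, but which does not kill `vdm`:

  `n g = [g 0 = 0] * ∏ over i, j with j ≥ i + 2 of (g j - g i)`.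

* every variable has degree at most `d - 2` in the product, so that the sum over it vanishes;
* `∑ n g * vdm g` is the discriminant times the sum over all orderings `0 = x 0, x 1, …` of `F` of
  `∏ 1 / (x (i+1) - x i)`, which is `∏ over y ≠ 0 of 1 / y` by partial fractions.
-/

namespace Pool.Agent.DCE

open Finset

/-- The Vandermonde product of a word: a signed indicator of the injective words. -/
def vdm {F : Type*} [Field F] {d : ℕ} (g : Fin d → F) : F :=
  ∏ i, ∏ j ∈ Ioi i, (g j - g i)

section basic

variable {F : Type*} [Field F] {d : ℕ}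

theorem vdm_eq_det (g : Fin d → F) : vdm g = (Matrix.vandermonde g).det :=
  (Matrix.det_vandermonde g).symm

/-- A permutation of the letters changes the Vandermonde product by its sign. -/
theorem vdm_perm (g : Fin d → F) (s : Equiv.Perm (Fin d)) :
    vdm (g ∘ s) = (Equiv.Perm.sign s : ℤ) * vdm g := by
  rw [vdm_eq_det, vdm_eq_det]
  have h : Matrix.vandermonde (g ∘ s) = (Matrix.vandermonde g).submatrix s id := by
    ext i j
    simp [Matrix.vandermonde_apply]
  rw [h, Matrix.det_permute]

/-- Exchanging two letters changes the sign. -/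
theorem vdm_swap (g : Fin d → F) {i j : Fin d} (hij : i ≠ j) :
    vdm (g ∘ Equiv.swap i j) = - vdm g := by
  rw [vdm_perm, Equiv.Perm.sign_swap hij]
  simp

/-- The Vandermonde product is nonzero exactly on the injective words. -/
theorem vdm_ne_zero_iff (g : Fin d → F) : vdm g ≠ 0 ↔ Function.Injective g := by
  rw [vdm_eq_det, Matrix.det_vandermonde_ne_zero_iff]

theorem vdm_eq_zero (g : Fin d → F) (h : ¬ Function.Injective g) : vdm g = 0 := by
  by_contra h0
  exact h ((vdm_ne_zero_iff g).1 h0)

/-- Translation invariance. -/
theorem vdm_add (g : Fin d → F) (a : F) : vdm (fun j => g j + a) = vdm g := by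
  unfold vdm
  refine Finset.prod_congr rfl (fun i _ => Finset.prod_congr rfl (fun j _ => ?_))
  ring

end basic

section weight

variable {F : Type*} [Field F]

/-- The weight without the normalisation: all factors of the Vandermonde product but those of
neighbouring letters. -/
def far {d : ℕ} (g : Fin d → F) : F :=
  ∏ i, ∏ j ∈ (Ioi i).filter (fun j => i.val + 2 ≤ j.val), (g j - g i)

theorem far_add {d : ℕ} (g : Fin d → F) (a : F) : far (fun j => g j + a) = far g := by
  unfold far
  refine Finset.prod_congr rfl (fun i _ => Finset.prod_congr rfl (fun j _ => ?_))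
  ring

/-- Sums of polynomial values over a finite field vanish in low degree. -/
theorem sum_eval_zero [Fintype F] (p : Polynomial F) (h : p.natDegree < Fintype.card F - 1) :
    ∑ x : F, p.eval x = 0 := by
  simp_rw [Polynomial.eval_eq_sum_range]
  rw [Finset.sum_comm]
  refine Finset.sum_eq_zero (fun i hi => ?_)
  rw [← Finset.mul_sum, FiniteField.sum_pow_lt_card_sub_one F i, mul_zero]
  have := Finset.mem_range.1 hi
  omega

theorem card_up {d : ℕ} (i : Fin d) :
    ((Ioi i).filter (fun j => i.val + 2 ≤ j.val)).card ≤ d - (i.val + 2) := by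
  rw [← Nat.card_Ico]
  refine Finset.card_le_card_of_injOn (fun b => b.val) (fun b hb => ?_) (fun a _ b _ h => Fin.ext h)
  have hb' := (Finset.mem_filter.1 (Finset.mem_coe.1 hb)).2
  simp only [Finset.coe_Ico, Set.mem_Ico]
  exact ⟨hb', b.2⟩

theorem card_down {d : ℕ} (i : Fin d) :
    ((univ : Finset (Fin d)).filter (fun a => a.val + 2 ≤ i.val)).card ≤ i.val - 1 := by
  rw [← Finset.card_range (i.val - 1)]
  refine Finset.card_le_card_of_injOn (fun b => b.val) (fun b hb => ?_) (fun a _ b _ h => Fin.ext h)
  have hb' := (Finset.mem_filter.1 (Finset.mem_coe.1 hb)).2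
  simp only [Finset.coe_range, Set.mem_Iio]
  omega

/-- One variable of `far` : the polynomial. -/
theorem far_poly {d : ℕ} (hd : 2 ≤ d) (g : Fin d → F) (i : Fin d) :
    ∃ p : Polynomial F, p.natDegree ≤ d - 2 ∧ ∀ x, p.eval x = far (Function.update g i x) := by
  classical
  set L : Fin d → Polynomial F := fun a => if a = i then Polynomial.X else Polynomial.C (g a)
    with hL
  have hLe : ∀ a x, (L a).eval x = Function.update g i x a := by
    intro a x
    rw [hL]
    by_cases h : a = i
    · subst h
      simp
    · simp [h]
  have hLd : ∀ a b, (L b - L a).natDegree ≤ (if a = i then 1 else 0) + (if b = i then 1 else 0) := by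
    intro a b
    refine (Polynomial.natDegree_sub_le _ _).trans ?_
    have h1 : ∀ c, (L c).natDegree ≤ (if c = i then 1 else 0) := by
      intro c
      rw [hL]
      by_cases h : c = i
      · simp [h]
      · simp [h]
    have := h1 a
    have := h1 b
    exact max_le (by omega) (by omega)
  refine ⟨∏ a, ∏ b ∈ (Ioi a).filter (fun b => a.val + 2 ≤ b.val), (L b - L a), ?_, ?_⟩
  · refine (Polynomial.natDegree_prod_le _ _).trans ?_
    calc ∑ a, (∏ b ∈ (Ioi a).filter (fun b => a.val + 2 ≤ b.val), (L b - L a)).natDegree
        ≤ ∑ a, ∑ b ∈ (Ioi a).filter (fun b => a.val + 2 ≤ b.val),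
            ((if a = i then 1 else 0) + (if b = i then 1 else 0)) := by
          refine Finset.sum_le_sum (fun a _ => ?_)
          exact (Polynomial.natDegree_prod_le _ _).trans
            (Finset.sum_le_sum (fun b _ => hLd a b))
      _ = (∑ a, ∑ b ∈ (Ioi a).filter (fun b => a.val + 2 ≤ b.val), (if a = i then 1 else 0))
          + (∑ a, ∑ b ∈ (Ioi a).filter (fun b => a.val + 2 ≤ b.val), (if b = i then 1 else 0)) := by
          rw [← Finset.sum_add_distrib]
          exact Finset.sum_congr rfl (fun a _ => Finset.sum_add_distrib)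
      _ ≤ (d - (i.val + 2)) + (i.val - 1) := by
          refine add_le_add ?_ ?_
          · rw [Finset.sum_eq_single i]
            · simp only [if_true, Finset.sum_const, smul_eq_mul, mul_one]
              exact card_up i
            · intro b _ hb
              simp [hb]
            · intro h
              exact absurd (Finset.mem_univ i) h
          · refine le_trans ?_ (card_down i)
            rw [Finset.card_filter]
            refine Finset.sum_le_sum (fun a _ => ?_)
            rw [Finset.sum_ite_eq']
            by_cases h : a.val + 2 ≤ i.val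
            · split_ifs <;> omega
            · rw [if_neg, if_neg h]
              intro h'
              exact h (Finset.mem_filter.1 h').2
      _ ≤ d - 2 := by
          have := i.2
          omega
  · intro x
    rw [Polynomial.eval_prod]
    unfold far
    refine Finset.prod_congr rfl (fun a _ => ?_)
    rw [Polynomial.eval_prod]
    refine Finset.prod_congr rfl (fun b _ => ?_)
    rw [Polynomial.eval_sub, hLe, hLe]

/-- The sum over one letter of `far` vanishes. -/
theorem far_sum [Fintype F] {d : ℕ} (hd : 2 ≤ d) (hF : Fintype.card F = d) (g : Fin d → F)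
    (i : Fin d) : ∑ x : F, far (Function.update g i x) = 0 := by
  obtain ⟨p, hp, he⟩ := far_poly hd g i
  rw [← sum_eval_zero p (by omega)]
  exact Finset.sum_congr rfl (fun x _ => (he x).symm)

/-- A sum over words vanishes if all partial sums over one letter vanish. -/
theorem sum_zero_of_update {ι A K : Type*} [Fintype ι] [DecidableEq ι] [Fintype A]
    [AddCommMonoid K] (i : ι) (h : (ι → A) → K)
    (H : ∀ g, ∑ x : A, h (Function.update g i x) = 0) : ∑ g, h g = 0 := by
  classical
  rw [← (Equiv.funSplitAt i A).symm.sum_comp h, Fintype.sum_prod_type, Finset.sum_comm]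
  refine Finset.sum_eq_zero (fun g' _ => ?_)
  by_cases hA : Nonempty A
  · obtain ⟨x0⟩ := hA
    rw [← H ((Equiv.funSplitAt i A).symm (x0, g'))]
    refine Finset.sum_congr rfl (fun x _ => ?_)
    congr 1
    funext j
    by_cases hj : j = i
    · subst hj
      simp [Equiv.funSplitAt, Equiv.piSplitAt]
    · simp [Equiv.funSplitAt, Equiv.piSplitAt, hj]
  · haveI := not_nonempty_iff.1 hA
    simp

end weight

section orderings

variable {F : Type*} [Field F] [DecidableEq F]

/-- Partial fractions. -/
theorem partial_frac (S : Finset F) (hS : S.Nonempty) (y : F) (hy : y ∉ S) :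
    ∑ a ∈ S, (a - y)⁻¹ * ∏ b ∈ S.erase a, (b - a)⁻¹ = ∏ b ∈ S, (b - y)⁻¹ := by
  have h1 : ∑ a ∈ S, ∏ b ∈ S.erase a, ((b - a)⁻¹ * (b - y)) = 1 := by
    have h := congrArg (Polynomial.eval y)
      (Lagrange.sum_basis (s := S) (v := (id : F → F)) Function.injective_id.injOn hS)
    rw [Polynomial.eval_finset_sum, Polynomial.eval_one] at h
    rw [← h]
    refine Finset.sum_congr rfl (fun a _ => ?_)
    rw [Lagrange.basis, Polynomial.eval_prod]
    refine Finset.prod_congr rfl (fun b _ => ?_)
    simp only [Lagrange.basisDivisor, id, Polynomial.eval_mul, Polynomial.eval_C,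
      Polynomial.eval_sub, Polynomial.eval_X]
    rw [← neg_sub b a, ← neg_sub b y, inv_neg]
    ring
  have h2 : ∀ a ∈ S, (a - y)⁻¹ * ∏ b ∈ S.erase a, (b - a)⁻¹
      = (∏ b ∈ S, (b - y)⁻¹) * ∏ b ∈ S.erase a, ((b - a)⁻¹ * (b - y)) := by
    intro a ha
    rw [← Finset.mul_prod_erase S _ ha, Finset.prod_mul_distrib]
    have h3 : (∏ b ∈ S.erase a, (b - y)⁻¹) * ∏ b ∈ S.erase a, (b - y) = 1 := by
      rw [← Finset.prod_mul_distrib]
      refine Finset.prod_eq_one (fun b hb => ?_)
      refine inv_mul_cancel₀ (sub_ne_zero.2 ?_)
      rintro rfl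
      exact hy (Finset.mem_of_mem_erase hb)
    calc (a - y)⁻¹ * ∏ b ∈ S.erase a, (b - a)⁻¹
        = (a - y)⁻¹ * (∏ b ∈ S.erase a, (b - a)⁻¹)
          * ((∏ b ∈ S.erase a, (b - y)⁻¹) * ∏ b ∈ S.erase a, (b - y)) := by
          rw [h3, mul_one]
      _ = _ := by ring
  rw [Finset.sum_congr rfl h2, ← Finset.mul_sum, h1, mul_one]

/-- The sum over all orderings of a finite set of the reciprocal of the product of the
increments. -/
theorem ord_sum (n : ℕ) [Fintype F] : ∀ (S : Finset F) (y : F), S.card = n → y ∉ S →
    ∑ g : Fin n → F, (if Function.Injective g ∧ ∀ i, g i ∈ S then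
      ∏ i : Fin n, (g i - (Fin.cons y g : Fin (n + 1) → F) i.castSucc)⁻¹ else 0)
      = ∏ b ∈ S, (b - y)⁻¹ := by
  induction n with
  | zero =>
    intro S y hS hy
    have : S = ∅ := Finset.card_eq_zero.1 hS
    subst this
    simp [Function.injective_of_subsingleton]
  | succ n ih =>
    intro S y hS hy
    have hne : S.Nonempty := Finset.card_pos.1 (by omega)
    rw [← partial_frac S hne y hy]
    rw [← (Fin.consEquiv (fun _ : Fin (n + 1) => F)).sum_comp, Fintype.sum_prod_type]
    rw [← Finset.sum_subset (Finset.subset_univ S)]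
    · refine Finset.sum_congr rfl (fun a ha => ?_)
      rw [← ih (S.erase a) a (by rw [Finset.card_erase_of_mem ha]; omega)
        (Finset.notMem_erase a S), Finset.mul_sum]
      refine Finset.sum_congr rfl (fun g' _ => ?_)
      have hiff : (Function.Injective (Fin.cons a g' : Fin (n + 1) → F)
          ∧ ∀ i, (Fin.cons a g' : Fin (n + 1) → F) i ∈ S)
          ↔ (Function.Injective g' ∧ ∀ i, g' i ∈ S.erase a) := by
        rw [Fin.cons_injective_iff]
        constructor
        · rintro ⟨⟨h1, h2⟩, h3⟩
          refine ⟨h2, fun i => Finset.mem_erase.2 ⟨fun h => h1 ⟨i, h⟩, ?_⟩⟩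
          have := h3 i.succ
          rwa [Fin.cons_succ] at this
        · rintro ⟨h1, h2⟩
          refine ⟨⟨?_, h1⟩, fun i => ?_⟩
          · rintro ⟨i, hi⟩
            exact (Finset.mem_erase.1 (h2 i)).1 hi
          · refine Fin.cases ?_ (fun i => ?_) i
            · rw [Fin.cons_zero]
              exact ha
            · rw [Fin.cons_succ]
              exact (Finset.mem_erase.1 (h2 i)).2
      have hprod : ∏ i : Fin (n + 1), ((Fin.cons a g' : Fin (n + 1) → F) i
          - (Fin.cons y (Fin.cons a g' : Fin (n + 1) → F) : Fin (n + 2) → F) i.castSucc)⁻¹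
          = (a - y)⁻¹ * ∏ i : Fin n, (g' i - (Fin.cons a g' : Fin (n + 1) → F) i.castSucc)⁻¹ := by
        rw [Fin.prod_univ_succ]
        congr 1
      change (if Function.Injective (Fin.cons a g' : Fin (n + 1) → F)
          ∧ ∀ i, (Fin.cons a g' : Fin (n + 1) → F) i ∈ S then
          ∏ i : Fin (n + 1), ((Fin.cons a g' : Fin (n + 1) → F) i
          - (Fin.cons y (Fin.cons a g' : Fin (n + 1) → F) : Fin (n + 2) → F) i.castSucc)⁻¹
          else 0) = _
      rw [hprod]
      by_cases h : Function.Injective g' ∧ ∀ i, g' i ∈ S.erase a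
      · rw [if_pos (hiff.2 h), if_pos h]
      · rw [if_neg (fun h' => h (hiff.1 h')), if_neg h, mul_zero]
    · intro a _ ha
      refine Finset.sum_eq_zero (fun g' _ => ?_)
      refine if_neg ?_
      rintro ⟨_, h⟩
      have := h 0
      exact ha this

end orderings

section main

variable {F : Type*} [Field F] [Fintype F] [DecidableEq F]

/-- The squares of the Vandermonde products of two orderings of the field agree. -/
theorem vdm_sq {d : ℕ} (hF : Fintype.card F = d) (g g0 : Fin d → F)
    (hg : Function.Injective g) (hg0 : Function.Injective g0) : vdm g ^ 2 = vdm g0 ^ 2 := by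
  have hb : Function.Bijective g :=
    (Fintype.bijective_iff_injective_and_card g).2 ⟨hg, by simp [hF]⟩
  have hb0 : Function.Bijective g0 :=
    (Fintype.bijective_iff_injective_and_card g0).2 ⟨hg0, by simp [hF]⟩
  set s : Equiv.Perm (Fin d) := (Equiv.ofBijective g hb).trans (Equiv.ofBijective g0 hb0).symm
    with hs
  have h : g = g0 ∘ s := by
    funext i
    have : (Equiv.ofBijective g0 hb0) (s i) = Equiv.ofBijective g hb i := by
      rw [hs]
      simp
    exact this.symm
  rw [h, vdm_perm, mul_pow]
  rcases Int.units_eq_one_or (Equiv.Perm.sign s) with h1 | h1 <;> rw [h1] <;> simp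

/-- The Vandermonde product is `far` times the product of the increments. -/
theorem vdm_eq_far {m : ℕ} (g : Fin (m + 1) → F) :
    vdm g = far g * ∏ i : Fin m, (g i.succ - g i.castSucc) := by
  unfold vdm far
  have h1 : ∀ i : Fin (m + 1), ∏ j ∈ Ioi i, (g j - g i)
      = (∏ j ∈ (Ioi i).filter (fun j => i.val + 2 ≤ j.val), (g j - g i))
        * ∏ j ∈ (Ioi i).filter (fun j => ¬ i.val + 2 ≤ j.val), (g j - g i) := by
    intro i
    rw [Finset.prod_filter_mul_prod_filter_not]
  rw [Finset.prod_congr rfl (fun i _ => h1 i), Finset.prod_mul_distrib]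
  congr 1
  rw [Fin.prod_univ_castSucc]
  have h2 : (Ioi (Fin.last m)).filter (fun j => ¬ (Fin.last m).val + 2 ≤ j.val) = ∅ := by
    refine Finset.filter_eq_empty_iff.2 (fun j hj => ?_)
    have := Finset.mem_Ioi.1 hj
    exact absurd this (not_lt.2 (Fin.le_last j))
  rw [h2, Finset.prod_empty, mul_one]
  refine Finset.prod_congr rfl (fun i _ => ?_)
  have h3 : (Ioi (Fin.castSucc i)).filter (fun j => ¬ (Fin.castSucc i).val + 2 ≤ j.val)
      = {i.succ} := by
    ext j
    rw [Finset.mem_filter, Finset.mem_Ioi, Finset.mem_singleton, Fin.lt_def, Fin.ext_iff]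
    simp only [Fin.val_castSucc, Fin.val_succ]
    omega
  rw [h3, Finset.prod_singleton]

/-- **The signed rainbow indicator over a finite field is not representable.** -/
theorem good_q {d : ℕ} (hF : Fintype.card F = d) : ∃ n : (Fin d → F) → F,
    (∀ (i : Fin d) (f : (Fin d → F) → F), (∀ g x, f (Function.update g i x) = f g) →
      (∀ g a, f (fun j => g j + a) = f g) → ∑ g, n g * f g = 0)
    ∧ ∑ g, n g * vdm g ≠ 0 := by
  have hd : 2 ≤ d := by
    have := Fintype.one_lt_card (α := F)
    omega
  obtain ⟨m, rfl⟩ : ∃ m, d = m + 2 := ⟨d - 2, by omega⟩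
  refine ⟨fun g => if g 0 = 0 then far g else 0, ?_, ?_⟩
  · intro i f hfi hfa
    by_cases hi : i = 0
    · subst hi
      -- change of gauge
      have h1 : ∑ g : Fin (m + 2) → F, (if g 0 = 0 then far g else 0) * f g
          = ∑ g : Fin (m + 2) → F, (if g 1 = 0 then far g else 0) * f g := by
        simp_rw [ite_mul, zero_mul]
        rw [← Finset.sum_filter, ← Finset.sum_filter]
        refine Finset.sum_nbij' (fun g j => g j + (- g 1)) (fun g j => g j + (- g 0)) ?_ ?_ ?_ ?_ ?_
        · intro g _
          simp
        · intro g _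
          simp
        · intro g hg
          have hg' : g 0 = 0 := (Finset.mem_filter.1 hg).2
          funext j
          simp [hg']
        · intro g hg
          have hg' : g 1 = 0 := (Finset.mem_filter.1 hg).2
          funext j
          simp [hg']
        · intro g _
          rw [far_add, hfa]
      rw [h1]
      refine sum_zero_of_update 0 _ (fun g => ?_)
      have h2 : ∀ x : F, (if (Function.update g 0 x) 1 = 0 then far (Function.update g 0 x) else 0)
          * f (Function.update g 0 x)
          = (if g 1 = 0 then f g else 0) * far (Function.update g 0 x) := by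
        intro x
        rw [hfi, Function.update_of_ne (by simp)]
        split_ifs <;> ring
      rw [Finset.sum_congr rfl (fun x _ => h2 x), ← Finset.mul_sum,
        far_sum hd hF g 0, mul_zero]
    · refine sum_zero_of_update i _ (fun g => ?_)
      have h2 : ∀ x : F, (if (Function.update g i x) 0 = 0 then far (Function.update g i x) else 0)
          * f (Function.update g i x)
          = (if g 0 = 0 then f g else 0) * far (Function.update g i x) := by
        intro x
        rw [hfi, Function.update_of_ne (Ne.symm hi)]
        split_ifs <;> ring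
      rw [Finset.sum_congr rfl (fun x _ => h2 x), ← Finset.mul_sum,
        far_sum hd hF g i, mul_zero]
  · -- the value
    obtain ⟨e⟩ : Nonempty (Fin (m + 2) ≃ F) := ⟨(Fintype.equivFinOfCardEq hF).symm⟩
    have hD : vdm (e : Fin (m + 2) → F) ≠ 0 := (vdm_ne_zero_iff _).2 e.injective
    have hkey : ∑ g : Fin (m + 2) → F, (if g 0 = 0 then far g else 0) * vdm g
        = vdm (e : Fin (m + 2) → F) ^ 2 * ∏ b ∈ (univ : Finset F).erase 0, (b - 0)⁻¹ := by
      rw [← ord_sum (m + 1) ((univ : Finset F).erase 0) 0 (by
        rw [Finset.card_erase_of_mem (Finset.mem_univ _), Finset.card_univ, hF]; omega)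
        (Finset.notMem_erase _ _), Finset.mul_sum]
      rw [← (Fin.consEquiv (fun _ : Fin (m + 2) => F)).sum_comp, Fintype.sum_prod_type]
      rw [Finset.sum_eq_single (0 : F)]
      · refine Finset.sum_congr rfl (fun g' _ => ?_)
        change (if (0 : F) = 0 then far (Fin.cons 0 g' : Fin (m + 2) → F) else 0)
          * vdm (Fin.cons 0 g' : Fin (m + 2) → F) = _
        rw [if_pos rfl]
        have hiff : Function.Injective (Fin.cons 0 g' : Fin (m + 2) → F)
            ↔ (Function.Injective g' ∧ ∀ i, g' i ∈ (univ : Finset F).erase 0) := by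
          rw [Fin.cons_injective_iff]
          constructor
          · rintro ⟨h1, h2⟩
            exact ⟨h2, fun i => Finset.mem_erase.2 ⟨fun h => h1 ⟨i, h⟩, Finset.mem_univ _⟩⟩
          · rintro ⟨h1, h2⟩
            refine ⟨?_, h1⟩
            rintro ⟨i, hi⟩
            exact (Finset.mem_erase.1 (h2 i)).1 hi
        by_cases h : Function.Injective g' ∧ ∀ i, g' i ∈ (univ : Finset F).erase 0
        · rw [if_pos h]
          have hinj := hiff.2 h
          rw [← vdm_sq hF _ _ hinj e.injective, sq, vdm_eq_far (Fin.cons 0 g' : Fin (m + 2) → F)]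
          have hp : (∏ i : Fin (m + 1), ((Fin.cons 0 g' : Fin (m + 2) → F) i.succ
              - (Fin.cons 0 g' : Fin (m + 2) → F) i.castSucc))
              * ∏ i : Fin (m + 1), (g' i - (Fin.cons 0 g' : Fin (m + 2) → F) i.castSucc)⁻¹ = 1 := by
            rw [← Finset.prod_mul_distrib]
            refine Finset.prod_eq_one (fun i _ => ?_)
            rw [Fin.cons_succ]
            refine mul_inv_cancel₀ (sub_ne_zero.2 (fun h' => ?_))
            have h'' : (Fin.cons 0 g' : Fin (m + 2) → F) i.succ
                = (Fin.cons 0 g' : Fin (m + 2) → F) i.castSucc := by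
              rw [Fin.cons_succ]
              exact h'
            have := hinj h''
            exact absurd this (by simp [Fin.ext_iff])
          set A := ∏ i : Fin (m + 1), ((Fin.cons 0 g' : Fin (m + 2) → F) i.succ
              - (Fin.cons 0 g' : Fin (m + 2) → F) i.castSucc) with hA
          set B := ∏ i : Fin (m + 1), (g' i - (Fin.cons 0 g' : Fin (m + 2) → F) i.castSucc)⁻¹
            with hB
          set P := far (Fin.cons 0 g' : Fin (m + 2) → F) with hP
          calc P * (P * A) = P * P * A * 1 := by ring
            _ = P * P * A * (A * B) := by rw [hp]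
            _ = P * A * (P * A) * B := by ring
        · rw [if_neg h, vdm_eq_zero _ (fun h' => h (hiff.1 h')), mul_zero, mul_zero]
      · intro a _ ha
        refine Finset.sum_eq_zero (fun g' _ => ?_)
        change (if a = 0 then far (Fin.cons a g' : Fin (m + 2) → F) else 0)
          * vdm (Fin.cons a g' : Fin (m + 2) → F) = 0
        rw [if_neg ha, zero_mul]
      · intro h
        exact absurd (Finset.mem_univ _) h
    rw [hkey]
    refine mul_ne_zero (pow_ne_zero _ hD) (Finset.prod_ne_zero_iff.2 (fun b hb => ?_))
    rw [sub_zero]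
    exact inv_ne_zero (Finset.mem_erase.1 hb).1

end main

end Pool.Agent.DCE
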