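import Pool.Agent.DCE.Rep
import Pool.Agent.DCE.GoodQ

/-!
# Extended phase of the d-colour paths: prime powers are good

PROOF. Let `F` be a field with `d` elements (`GaloisField p n`, `IsPrimePow`), `A = K = F`, `e : F ≃ Fin d` any bijection
(`Fintype.equivFinOfCardEq`).
Translations are even (`3 ≤ d`): let `τ a` be the permutation `e.symm.trans ((Equiv.addRight a).trans e)`, and `s a` its sign. For `c ≠ 0` in `F`
the multiplication by `c` conjugates `τ a` to `τ (c * a)`, so all `s a`, `a ≠ 0`, are equal to one `s`; `s (a + b) = s a * s b`; there are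
`a, b ≠ 0` with `a + b ≠ 0` since `F` has at least three elements, so `s = s * s`, `s = 1`; `s 0 = 1`.
Not representable: let `n` be as in `good_q`. `{f | ∑ g, n g * f g = 0}` is an additive subgroup which contains all `InvS F F d i`, so it contains
`RepS F F d` (`iSup_le`). But `vdm g = κ * sgm (e ∘ g)` for all `g`, with `κ = vdm e.symm`: both sides are `0` if `g` is not injective (`vdm_eq_zero`,
`sgm_eq_zero`), and otherwise `π = e ∘ g` is a permutation, `g = e.symm ∘ π`, `vdm_perm`, `sgm_perm`. As `∑ g, n g * vdm g ≠ 0`, the sign function is not in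
`RepS`.
-/

set_option autoImplicit false

namespace Pool.Agent.DCE

private theorem pp_sign_mul {F : Type} [Field F] [Fintype F] [DecidableEq F] (c a : F)
    (hc : c ≠ 0) : Equiv.Perm.sign (Equiv.addRight (c * a)) =
      Equiv.Perm.sign (Equiv.addRight a : Equiv.Perm F) := by
  have h : (Equiv.addRight (c * a) : Equiv.Perm F) =
      ((Equiv.mulLeft₀ c hc).symm.trans (Equiv.addRight a)).trans (Equiv.mulLeft₀ c hc) := by
    ext x
    show x + c * a = c * (c⁻¹ * x + a)
    rw [mul_add, mul_inv_cancel_left₀ hc]
  rw [h, Equiv.Perm.sign_symm_trans_trans]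

private theorem pp_sign_add {F : Type} [Field F] [Fintype F] [DecidableEq F] (a b : F) :
    Equiv.Perm.sign (Equiv.addRight (a + b) : Equiv.Perm F) =
      Equiv.Perm.sign (Equiv.addRight a : Equiv.Perm F) *
        Equiv.Perm.sign (Equiv.addRight b : Equiv.Perm F) := by
  have h : (Equiv.addRight (a + b) : Equiv.Perm F) =
      (Equiv.addRight b : Equiv.Perm F).trans (Equiv.addRight a) := by
    ext x
    simp only [Equiv.trans_apply, Equiv.coe_addRight]
    ring
  rw [h, Equiv.Perm.sign_trans]

private theorem pp_sign {F : Type} [Field F] [Fintype F] [DecidableEq F]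
    (h3 : 3 ≤ Fintype.card F) (a : F) :
    Equiv.Perm.sign (Equiv.addRight a : Equiv.Perm F) = 1 := by
  by_cases ha : a = 0
  · subst ha
    have h : (Equiv.addRight (0 : F) : Equiv.Perm F) = 1 := by
      ext x
      simp
    rw [h, Equiv.Perm.sign_one]
  · obtain ⟨b, hb⟩ : ∃ b : F, b ∉ ({0, -a} : Finset F) := by
      by_contra hcon
      push Not at hcon
      have h1 : (Finset.univ : Finset F) ⊆ {0, -a} := fun b _ => hcon b
      have h2 := Finset.card_le_card h1
      have h4 := Finset.card_le_two (a := (0 : F)) (b := -a)
      rw [Finset.card_univ] at h2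
      omega
    have hb0 : b ≠ 0 := by
      rintro rfl
      simp at hb
    have hab : a + b ≠ 0 := by
      intro h
      apply hb
      simp only [Finset.mem_insert, Finset.mem_singleton]
      right
      linear_combination h
    have e1 : Equiv.Perm.sign (Equiv.addRight b : Equiv.Perm F) =
        Equiv.Perm.sign (Equiv.addRight a : Equiv.Perm F) := by
      have := pp_sign_mul (b * a⁻¹) a (mul_ne_zero hb0 (inv_ne_zero ha))
      rwa [inv_mul_cancel_right₀ ha] at this
    have e2 : Equiv.Perm.sign (Equiv.addRight (a + b) : Equiv.Perm F) =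
        Equiv.Perm.sign (Equiv.addRight a : Equiv.Perm F) := by
      have := pp_sign_mul ((a + b) * a⁻¹) a (mul_ne_zero hab (inv_ne_zero ha))
      rwa [inv_mul_cancel_right₀ ha] at this
    have e3 := pp_sign_add a b
    rw [e1, e2] at e3
    exact (mul_eq_left.1 e3.symm)

theorem good_field {F : Type} [Field F] [Fintype F] [DecidableEq F] {d : ℕ} (h3 : 3 ≤ d)
    (hF : Fintype.card F = d) (e : F ≃ Fin d) : GoodA e F := by
  refine ⟨fun a τ hτ => ?_, ?_⟩
  · have h : τ = (e.symm.trans (Equiv.addRight a)).trans e := by
      ext1 i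
      obtain ⟨b, rfl⟩ := e.surjective i
      rw [hτ]
      simp
    rw [h, Equiv.Perm.sign_symm_trans_trans]
    exact pp_sign (by omega) a
  · obtain ⟨n, hn1, hn2⟩ := good_q (F := F) hF
    intro hmem
    let φ : ((Fin d → F) → F) →+ F :=
      { toFun := fun f => ∑ g, n g * f g
        map_zero' := by simp
        map_add' := by
          intro f f'
          simp only [Pi.add_apply, mul_add, Finset.sum_add_distrib] }
    have hle : RepS F F d ≤ φ.ker := by
      refine iSup_le (fun i f hf => ?_)
      rw [AddMonoidHom.mem_ker]
      exact hn1 i f hf.1 hf.2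
    have h0 : ∑ g, n g * ((sgm (fun i => e (g i)) : ℤ) : F) = 0 := by
      have := hle hmem
      rw [AddMonoidHom.mem_ker] at this
      exact this
    apply hn2
    have hv : ∀ g : Fin d → F, vdm g =
        vdm (fun i => e.symm i) * ((sgm (fun i => e (g i)) : ℤ) : F) := by
      intro g
      by_cases hg : Function.Injective g
      · have hinj : Function.Injective (fun i => e (g i)) := e.injective.comp hg
        have hbij : Function.Bijective (fun i => e (g i)) := Finite.injective_iff_bijective.1 hinj
        let π : Equiv.Perm (Fin d) := Equiv.ofBijective _ hbij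
        have hπ : ∀ i, π i = e (g i) := fun i => rfl
        have h1 : g = (fun i => e.symm i) ∘ π := by
          funext i
          rw [Function.comp_apply, hπ, Equiv.symm_apply_apply]
        have h2 : sgm (fun i => e (g i)) = (Equiv.Perm.sign π : ℤ) := by
          rw [← sgm_perm π]
          rfl
        rw [h2]
        conv_lhs => rw [h1]
        rw [vdm_perm, mul_comm]
      · rw [vdm_eq_zero g hg, sgm_eq_zero (fun h => hg (fun i j hij => h (by
          show e (g i) = e (g j)
          rw [hij]))), Int.cast_zero, mul_zero]
    calc ∑ g, n g * vdm g = vdm (fun i => e.symm i) *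
        ∑ g, n g * ((sgm (fun i => e (g i)) : ℤ) : F) := by
          rw [Finset.mul_sum]
          refine Finset.sum_congr rfl (fun g _ => ?_)
          rw [hv g]
          ring
      _ = 0 := by rw [h0, mul_zero]

theorem good_primePow {d : ℕ} (h : IsPrimePow d) (h3 : 3 ≤ d) : Good d := by
  classical
  obtain ⟨p, n, hp, hn, hpn⟩ := (isPrimePow_nat_iff d).1 h
  haveI : Fact p.Prime := ⟨hp⟩
  haveI : Fintype (GaloisField p n) := Fintype.ofFinite _
  have hF : Fintype.card (GaloisField p n) = d := by
    rw [← Nat.card_eq_fintype_card, GaloisField.card p n hn.ne', hpn]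
  exact ⟨GaloisField p n, GaloisField p n, inferInstance, inferInstance,
    Fintype.equivFinOfCardEq hF, good_field h3 hF _⟩

end Pool.Agent.DCE
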