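import Pool.Agent.DCE.LoopA
import Pool.Agent.DCP.Equi

/-!
# Extended phase of the d-colour paths: long paths

`Long D c s m`: `s` is a `d`-colour edge whose path has more than `m` edges.

PROOFS. `long_of_not_small`: suppose `(Phi^k) s = s`, `0 < k ≤ m < T`. The cells of one edge have coordinates which differ by at most `1`
(`xc_cell_le`); the edges `t` and `Phi t` have a common cell (`d ≥ 2`: `Phi D c t = J D c (R D t)` is `turn D k (R D t)`, and of the `d + 1` cells
of `R D t` the edge `t` lacks one and the edge `Phi t` lacks one; `fc_turn`, `fc_R`), so by induction the coordinates of the cells of `s` and `(Phi^a) s`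
differ by at most `a + 1`. Every element of the orbit is `(Phi^a) s` with `a < k`, and for two of them, `(Phi^a) s` and `(Phi^b) s`, `a ≤ b < k`, the
difference is at most `b - a + 1 ≤ k < T`: so `Small`.
`Long_tr`: `rb_tr`, `Phi_pow_tr`. `Long_rfs`: `rb_rfs`, `Phi_pow_rfs`.
`Long_perm`: permuting the colours (`rb_perm`, `Phi_perm`) is not needed here.
`card_EM`: a state in `EM` is determined by its hole, whose last coordinate is `1` or `-1` and whose other coordinates are in `[-1, 2T+1]`
(`xc_cell_le`), and by its permutation: at most `2 * (2 T + 3)^(d-1) * (d+1)!` states; and `2 T + 3 ≤ 5 T`.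
(Use `Finset.card_le_card_of_injOn` into `Fintype.piFinset`/`Finset.Icc` products and `Finset.univ`, injectivity by `hL`.)
-/

set_option autoImplicit false

namespace Pool.Agent.DCE

open Pool.Agent.DCP

variable {d : ℕ} [NeZero d] {L : Type} [AddCommGroup L] {D : LD d L}

/-- the path has more than `m` edges -/
def Long (D : LD d L) (c : L → Fin d) (s : St d L) (m : ℕ) : Prop :=
  rb D c s ∧ ∀ k, 0 < k → k ≤ m → (Phi D c ^ k) s ≠ s

private theorem step45 (hd : 2 ≤ d) {c : L → Fin d} {t : St d L} (ht : rb D c t) (i : Fin (d + 1))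
    (a : ℕ) : ∀ j j' : Fin d,
      xc D i (fc D ((Phi D c ^ a) t) j) ≤ xc D i (fc D t j') + (a + 1) ∧
      xc D i (fc D t j') ≤ xc D i (fc D ((Phi D c ^ a) t) j) + (a + 1) := by
  induction a with
  | zero =>
    intro j j'
    rw [pow_zero, Nat.cast_zero, zero_add]
    exact ⟨xc_cell_le D t i _ _, xc_cell_le D t i _ _⟩
  | succ a ih =>
    intro j j'
    rw [pow_succ', Equiv.Perm.mul_apply]
    set u := (Phi D c ^ a) t with hu
    have hru : rb D c u := (rb_Phi_pow a).2 ht
    obtain ⟨l, l', hl⟩ : ∃ l l' : Fin d, fc D u l = fc D (Phi D c u) l' := by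
      rcases fc_Phi hru ⟨0, by omega⟩ with h | ⟨k, h⟩
      · rcases fc_Phi hru ⟨1, by omega⟩ with h' | ⟨k', h'⟩
        · exfalso
          have h2 := cell_inj D u (i := 1) (j := 2) (by omega) (by omega) (h.trans h'.symm)
          omega
        · exact ⟨_, k', h'⟩
      · exact ⟨_, k, h⟩
    obtain ⟨h1, h2⟩ := ih l j'
    have h3 : xc D i (fc D (Phi D c u) j) ≤ xc D i (fc D (Phi D c u) l') + 1 :=
      xc_cell_le D (Phi D c u) i _ _
    have h4 : xc D i (fc D (Phi D c u) l') ≤ xc D i (fc D (Phi D c u) j) + 1 :=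
      xc_cell_le D (Phi D c u) i _ _
    rw [← hl] at h3 h4
    push_cast
    constructor <;> linarith

private theorem per45 (σ : Equiv.Perm (St d L)) {s : St d L} {k : ℕ} (h : (σ ^ k) s = s) (a : ℕ) :
    (σ ^ a) s = (σ ^ (a % k)) s := by
  have h1 : ∀ q : ℕ, ((σ ^ k) ^ q) s = s := by
    intro q
    induction q with
    | zero => rfl
    | succ q ih => rw [pow_succ, Equiv.Perm.mul_apply, h, ih]
  conv_lhs => rw [← Nat.mod_add_div a k]
  rw [pow_add, pow_mul, Equiv.Perm.mul_apply, h1]

theorem long_of_not_small (hd : 2 ≤ d) {T : ℤ} {c : L → Fin d} {s : St d L} (hr : rb D c s)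
    (hs : ¬Small D T c s) {m : ℕ} (hm : (m : ℤ) < T) : Long D c s m := by
  refine ⟨hr, fun k hk hkm he => hs ⟨⟨k, hk, he⟩, fun a b i j j' _ => ?_⟩⟩
  rw [per45 _ he a, per45 _ he b]
  have ha := Nat.mod_lt a hk
  have hb := Nat.mod_lt b hk
  generalize a % k = a at ha ⊢
  generalize b % k = b at hb ⊢
  have hkT : (k : ℤ) < T := lt_of_le_of_lt (by exact_mod_cast hkm) hm
  rcases le_total a b with h | h
  · obtain ⟨n, rfl⟩ := Nat.exists_eq_add_of_le h
    have h1 := (step45 hd ((rb_Phi_pow a).2 hr) i n j' j).2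
    rw [← Equiv.Perm.mul_apply, ← pow_add, add_comm n a] at h1
    have h2 : ((a + n : ℕ) : ℤ) + 1 ≤ k := by exact_mod_cast hb
    push_cast at h2
    have h3 : (0 : ℤ) ≤ a := Int.natCast_nonneg a
    linarith
  · obtain ⟨n, rfl⟩ := Nat.exists_eq_add_of_le h
    have h1 := (step45 hd ((rb_Phi_pow b).2 hr) i n j j').1
    rw [← Equiv.Perm.mul_apply, ← pow_add, add_comm n b] at h1
    have h2 : ((b + n : ℕ) : ℤ) + 1 ≤ k := by exact_mod_cast ha
    push_cast at h2
    have h3 : (0 : ℤ) ≤ b := Int.natCast_nonneg b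
    linarith

private theorem tr_inj45 {z : L} {s t : St d L} (h : tr z s = tr z t) : s = t := by
  have h1 : (tr z s).1 = (tr z t).1 := congrArg Prod.fst h
  have h2 : (tr z s).2 = (tr z t).2 := congrArg Prod.snd h
  exact Prod.ext (add_right_cancel (b := z) h1) h2

theorem Long_tr {c : L → Fin d} {s : St d L} {m : ℕ} (z : L) :
    Long D c (tr z s) m ↔ Long D (fun x => c (x + z)) s m := by
  rw [Long, Long, rb_tr]
  refine and_congr_right fun _ => forall_congr' fun k => forall_congr' fun _ =>
    forall_congr' fun _ => ?_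
  rw [Phi_pow_tr]
  exact not_congr ⟨fun h => tr_inj45 h, fun h => by rw [h]⟩

private theorem rfs_inj45 {b b' : Fin (d + 1)} (hb : b ≠ b') {m : ℤ} {s t : St d L}
    (h : rfs D b b' m s = rfs D b b' m t) : s = t := by
  have h1 : rf D b b' m s.1 = rf D b b' m t.1 := congrArg Prod.fst h
  have h2 : s.2.trans (Equiv.swap b b') = t.2.trans (Equiv.swap b b') := congrArg Prod.snd h
  refine Prod.ext ?_ ?_
  · have h3 := congrArg (rf D b b' m) h1
    rwa [rf_rf hb, rf_rf hb] at h3
  · apply Equiv.ext
    intro i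
    have h3 := congrArg (fun e : Equiv.Perm (Fin (d + 1)) => e i) h2
    exact (Equiv.swap b b').injective h3

theorem Long_rfs {b b' : Fin (d + 1)} (hb : b ≠ b') {c : L → Fin d} {s : St d L} {n : ℕ} (m : ℤ) :
    Long D c (rfs D b b' m s) n ↔ Long D (fun x => c (rf D b b' m x)) s n := by
  rw [Long, Long, rb_rfs hb]
  refine and_congr_right fun _ => forall_congr' fun k => forall_congr' fun _ =>
    forall_congr' fun _ => ?_
  rw [Phi_pow_rfs hb]
  exact not_congr ⟨fun h => rfs_inj45 hb h, fun h => by rw [h]⟩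

theorem card_EM (hd : 2 ≤ d) {hL : ∀ z : L, (∀ i, i ≠ 0 → xc D i z = 0) → z = 0} {T : ℤ} (hT : 1 ≤ T) :
    ((EM D hL T).card : ℤ) ≤ 2 * (d + 1).factorial * (5 * T) ^ (d - 1) := by
  classical
  let F : St d L → Bool × Equiv.Perm (Fin (d + 1)) × (Fin (d - 1) → ℤ) := fun s =>
    (decide (Up D s), s.2, fun i => xc D ⟨i + 1, by omega⟩ s.1)
  have hcard : (EM D hL T).card ≤ ((Finset.univ : Finset Bool) ×ˢ
      (Finset.univ : Finset (Equiv.Perm (Fin (d + 1)))) ×ˢ
      Fintype.piFinset (fun _ : Fin (d - 1) => Finset.Icc (-1 : ℤ) (2 * T + 1))).card := by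
    apply Finset.card_le_card_of_injOn F
    · intro s hs
      have h1 := mem_BS.1 (Finset.mem_filter.1 (Finset.mem_coe.1 hs)).1
      rw [Finset.mem_coe, Finset.mem_product]
      refine ⟨Finset.mem_univ _, ?_⟩
      rw [Finset.mem_product]
      refine ⟨Finset.mem_univ _, ?_⟩
      rw [Fintype.mem_piFinset]
      intro i
      rw [Finset.mem_Icc]
      exact h1 _ (by
        intro h
        have := congrArg Fin.val h
        simp at this)
    · intro s hs t ht he
      have h1 := (mem_EM (by omega) hT).1 (Finset.mem_coe.1 hs)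
      have h2 := (mem_EM (by omega) hT).1 (Finset.mem_coe.1 ht)
      have e1 : decide (Up D s) = decide (Up D t) := congrArg Prod.fst he
      have e2 : s.2 = t.2 := congrArg (fun x => x.2.1) he
      have e3 : (fun i : Fin (d - 1) => xc D ⟨i + 1, by omega⟩ s.1) =
          fun i : Fin (d - 1) => xc D ⟨i + 1, by omega⟩ t.1 := congrArg (fun x => x.2.2) he
      have e4 : Up D s ↔ Up D t := by
        rw [decide_eq_decide] at e1
        exact e1
      refine Prod.ext ?_ e2
      have h3 : s.1 - t.1 = 0 := by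
        apply hL
        intro i hi
        rw [xc_sub, sub_eq_zero]
        by_cases hl : i = Fin.last d
        · subst hl
          rcases h1.1 with hu | hu
          · rw [hu.2.2, (e4.1 hu).2.2]
          · rcases h2.1 with hv | hv
            · exact absurd hu (not_Up_Dn (by omega) (e4.2 hv))
            · rw [hu.2.2, hv.2.2]
        · have hi0 : (i : ℕ) ≠ 0 := fun h => hi (Fin.ext h)
          have hil : (i : ℕ) ≠ d := fun h => hl (Fin.ext h)
          have hi2 := i.2
          have h4 := congrFun e3 ⟨i - 1, by omega⟩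
          have h5 : (⟨((⟨i - 1, by omega⟩ : Fin (d - 1)) : ℕ) + 1, by
              show (i : ℕ) - 1 + 1 < d + 1
              omega⟩ : Fin (d + 1)) = i := by
            ext
            show (i : ℕ) - 1 + 1 = i
            omega
          simp only [h5] at h4
          exact h4
      exact sub_eq_zero.1 h3
  rw [Finset.card_product, Finset.card_product, Fintype.card_piFinset] at hcard
  simp only [Finset.card_univ, Fintype.card_bool, Fintype.card_perm, Fintype.card_fin,
    Finset.prod_const, Int.card_Icc] at hcard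
  have h6 : ((2 * T + 1 + 1 - -1).toNat : ℤ) = 2 * T + 3 := by
    rw [Int.toNat_of_nonneg (by omega)]
    ring
  have h7 : ((EM D hL T).card : ℤ) ≤ 2 * ((d + 1).factorial * (2 * T + 3) ^ (d - 1)) := by
    rw [← h6]
    exact_mod_cast hcard
  have h8 : (2 * T + 3) ^ (d - 1) ≤ (5 * T) ^ (d - 1) :=
    pow_le_pow_left₀ (by omega) (by omega) _
  have h9 : (0 : ℤ) ≤ ((d + 1).factorial : ℤ) := Int.natCast_nonneg _
  calc ((EM D hL T).card : ℤ) ≤ 2 * ((d + 1).factorial * (2 * T + 3) ^ (d - 1)) := h7
    _ ≤ 2 * ((d + 1).factorial * (5 * T) ^ (d - 1)) := by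
      have := mul_le_mul_of_nonneg_left h8 h9
      linarith
    _ = 2 * (d + 1).factorial * (5 * T) ^ (d - 1) := by ring

end Pool.Agent.DCE
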