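import Pool.Agent.DCE.Small
import Pool.Agent.DCE.FaceB

/-!
# Extended phase of the d-colour paths: small loops have representable flux

`EM`: the crossing edges over `M`, from both sides. `Ok c Q s`: `s` is a `d`-colour edge with orientation `1`, on a small loop, in
a class of `Q`.

PROOFS.
`part_mem`: the function `g ↦ ∑ s ∈ EM, if (Ok0 ∧ Cl q s ∧ ∀ q' ∈ Q, ¬Cl q' s) then kap s else 0` (`Ok0`: `rb`, `Small`, `w = 1`, all for
`cg g`) is in `InvS (ix q)`: for every single `s` the condition is the same for `g` and `g' = update g (ix q) x`: if it holds for `g`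
then by `Cl_congr` the orbits of `s` and the colours along them agree (`a = 0` gives the colours of `s`), so `rb`, `w` (`w_congr`), `Small`, all
`Cl q'` are the same for `g'`; if it holds for `g'` apply this to `g'` and `g = update g' (ix q) (g (ix q))`. Invariance under `g + a`: `w_cg_add`,
`rb_cg_add`, `Phi_cg_add`.
`sum_mem`: induction on `Q` (`Finset.induction_on`): the sum with `∃ q' ∈ insert q Q, Cl q'` is the sum with `∃ q' ∈ Q, Cl q'` plus the
sum of `part_mem`.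
`rest_zero`: let `P t` be: `rb`, `Small`, `w = 1`, no class, and some `(Phi^a) t ∈ EM`. The set `Ω` of these `t` is finite: all cells
of the edge of `t` have coordinates (`i ≠ 0`) in `(-T - 1, 3 T + 1)`, as those of `(Phi^a) t` are in `[0, 2T]` or `0` (`Up_fc`, `Dn_fc`), and the hole is adjacent
(`xc_cell_le`). `Ω` is invariant under `Phi` (bijective on it, by periodicity), so `∑ t ∈ Ω, (hh t - hh (Phi t)) = 0`
(`Finset.sum_bij` / `Finset.sum_nbij'` with `Phi`, `Phi⁻¹`), i.e. `∑ t ∈ Ω, kap t = 0` (`kap_Phi`). If `kap t ≠ 0` then `Up t` or `Dn t`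
(`kap_of_not`), and all cells of its edge are in `M` as `t` is in no class (`a = 0` in `Cl`), so `t ∈ EM`. Conversely `t ∈ EM` with the first four conditions is in
`Ω`. So the sum over `Ω` is the sum over `EM` of `rest_zero`, where `Small` may be dropped or kept by hypothesis.
`flux_EM`: `∑ s ∈ UM, w s = #{w = 1} - #{w = -1}`; `s ↦ R s` maps `UM` bijectively to the `Dn` part of `EM`, `w (R s) = - w s`,
`kap = 1` on `Up`, `-1` on `Dn` (`not_Up_Dn`).
-/

set_option autoImplicit false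

namespace Pool.Agent.DCE

open Pool.Agent.DCP

variable {d : ℕ} [NeZero d] {L : Type} [AddCommGroup L] {A : Type} [AddCommGroup A]

open Classical in
/-- the crossing states over `M` -/
noncomputable def EM (D : LD d L) (hL : ∀ z : L, (∀ i, i ≠ 0 → xc D i z = 0) → z = 0) (T : ℤ) : Finset (St d L) :=
  (BS D hL (-1) (2 * T + 1)).filter (fun s => (Up D s ∨ Dn D s) ∧ ∀ i, inM D T (fc D s i))

/-- oriented `d`-colour edge on a small loop -/
def Ok (D : LD d L) (T : ℤ) (c : L → Fin d) (s : St d L) : Prop :=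
  rb D c s ∧ Small D T c s ∧ w D c s = 1

variable {D : LD d L} {T : ℤ} {e : A ≃ Fin d} {K : Type} [CommRing K] {hL : ∀ z : L, (∀ i, i ≠ 0 → xc D i z = 0) → z = 0}

private theorem cs_of_ne {i : Fin (d + 1)} (hi : i ≠ 0) (hl : i ≠ Fin.last d) :
    ∃ j : Fin d, 0 < (j : ℕ) ∧ j.castSucc = i := by
  obtain ⟨j, rfl⟩ := Fin.exists_castSucc_eq.2 hl
  refine ⟨j, ?_, rfl⟩
  by_contra h1
  apply hi
  have h2 : (j : ℕ) = 0 := by omega
  ext
  simpa using h2

theorem mem_EM (hd : 1 ≤ d) (hT : 1 ≤ T) {s : St d L} :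
    s ∈ EM D hL T ↔ (Up D s ∨ Dn D s) ∧ ∀ i, inM D T (fc D s i) := by
  classical
  rw [EM, Finset.mem_filter, mem_BS]
  refine ⟨fun h => h.2, fun h => ⟨fun i hi => ?_, h⟩⟩
  by_cases hl : i = Fin.last d
  · rw [hl]
    rcases h.1 with h1 | h1
    · rw [h1.2.2]
      constructor <;> linarith
    · rw [h1.2.2]
      constructor <;> linarith
  · obtain ⟨j, hj, rfl⟩ := cs_of_ne hi hl
    have h2 := h.2 ⟨0, hd⟩ j hj
    have h3 := xc_cell_le D s j.castSucc 0 1
    have h4 := xc_cell_le D s j.castSucc 1 0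
    rw [cell_zero] at h3 h4
    rw [show fc D s ⟨0, hd⟩ = cell D s 1 from rfl] at h2
    omega

omit [NeZero d] in
private theorem Small_cg {c c' : L → Fin d} {s : St d L}
    (h : ∀ a : ℕ, (Phi D c' ^ a) s = (Phi D c ^ a) s) : Small D T c' s ↔ Small D T c s := by
  unfold Small
  simp only [h]

omit [NeZero d] in
private theorem Cl_cg {c c' : L → Fin d} {s : St d L} {q : Fin d × Bool}
    (h : ∀ a : ℕ, (Phi D c' ^ a) s = (Phi D c ^ a) s) : Cl D T c' q s ↔ Cl D T c q s := by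
  unfold Cl
  simp only [h]

/-- the condition of `part_mem` -/
private def Cnd (D : LD d L) (T : ℤ) (c : L → Fin d) (q : Fin d × Bool) (Q : Finset (Fin d × Bool))
    (s : St d L) : Prop :=
  Ok D T c s ∧ Cl D T c q s ∧ ∀ q' ∈ Q, ¬Cl D T c q' s

private theorem Cnd_update (hT : 1 ≤ T) {ω : L → Fin d} {g : Fin d → A} {q : Fin d × Bool}
    {Q : Finset (Fin d × Bool)} {s : St d L} (h : Cnd D T (cg D T e ω g) q Q s) (x : A) :
    Cnd D T (cg D T e ω (Function.update g (ix q) x)) q Q s := by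
  obtain ⟨⟨h1, h2, h3⟩, h4, h5⟩ := h
  have key := Cl_congr hT h1 h2 h4 x
  have ho := fun a => (key a).1
  have hc : ∀ j : Fin d, cg D T e ω (Function.update g (ix q) x) (fc D s j) =
      cg D T e ω g (fc D s j) := fun j => by
    have h6 := (key 0).2 j
    rwa [pow_zero, Equiv.Perm.one_apply] at h6
  refine ⟨⟨?_, (Small_cg ho).2 h2, ?_⟩, (Cl_cg ho).2 h4,
    fun q' hq' h6 => h5 q' hq' ((Cl_cg ho).1 h6)⟩
  · have h6 : (fun j : Fin d => cg D T e ω (Function.update g (ix q) x) (fc D s j)) =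
        fun j : Fin d => cg D T e ω g (fc D s j) := funext hc
    unfold rb
    rw [h6]
    exact h1
  · rw [w_congr hc]
    exact h3

private theorem Cnd_update_iff (hT : 1 ≤ T) {ω : L → Fin d} {g : Fin d → A} {q : Fin d × Bool}
    {Q : Finset (Fin d × Bool)} {s : St d L} (x : A) :
    Cnd D T (cg D T e ω (Function.update g (ix q) x)) q Q s ↔ Cnd D T (cg D T e ω g) q Q s := by
  refine ⟨fun h => ?_, fun h => Cnd_update hT h x⟩
  have h1 := Cnd_update hT h (g (ix q))
  rwa [Function.update_idem, Function.update_eq_self] at h1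

private theorem Cnd_add (hG : GoodA e K) {ω : L → Fin d} {g : Fin d → A} {q : Fin d × Bool}
    {Q : Finset (Fin d × Bool)} {s : St d L} (a : A) :
    Cnd D T (cg D T e ω (fun l => g l + a)) q Q s ↔ Cnd D T (cg D T e ω g) q Q s := by
  have ho : ∀ n : ℕ, (Phi D (cg D T e ω (fun l => g l + a)) ^ n) s = (Phi D (cg D T e ω g) ^ n) s :=
    fun n => by rw [Phi_cg_add]
  unfold Cnd Ok
  rw [rb_cg_add, Small_cg ho, w_cg_add hG, Cl_cg ho]
  refine and_congr Iff.rfl (and_congr Iff.rfl ?_)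
  refine forall_congr' (fun q' => forall_congr' (fun _ => ?_))
  rw [Cl_cg ho]

open Classical in
theorem part_mem (hd : 2 ≤ d) (hT : 1 ≤ T) (hG : GoodA e K) (ω : L → Fin d) (q : Fin d × Bool)
    (Q : Finset (Fin d × Bool)) :
    (fun g : Fin d → A => ((∑ s ∈ EM D hL T, (if Ok D T (cg D T e ω g) s ∧ Cl D T (cg D T e ω g) q s ∧
      (∀ q' ∈ Q, ¬Cl D T (cg D T e ω g) q' s) then kap D s else 0) : ℤ) : K)) ∈
      InvS A K d (ix q) := by
  have _ := hd
  rw [mem_InvS]
  refine ⟨fun g a => ?_, fun g a => ?_⟩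
  · exact congrArg (fun n : ℤ => (n : K)) (Finset.sum_congr rfl (fun s _ =>
      if_congr (Cnd_update_iff (q := q) (Q := Q) hT a) rfl rfl))
  · exact congrArg (fun n : ℤ => (n : K)) (Finset.sum_congr rfl (fun s _ =>
      if_congr (Cnd_add (q := q) (Q := Q) hG a) rfl rfl))

open Classical in
theorem cls_mem (hd : 2 ≤ d) (hT : 1 ≤ T) (hG : GoodA e K) (ω : L → Fin d)
    (Q : Finset (Fin d × Bool)) :
    (fun g : Fin d → A => ((∑ s ∈ EM D hL T, (if Ok D T (cg D T e ω g) s ∧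
      (∃ q ∈ Q, Cl D T (cg D T e ω g) q s) then kap D s else 0) : ℤ) : K)) ∈ RepS A K d := by
  induction Q using Finset.induction_on with
  | empty =>
    have h : (fun g : Fin d → A => ((∑ s ∈ EM D hL T, (if Ok D T (cg D T e ω g) s ∧
      (∃ q ∈ (∅ : Finset (Fin d × Bool)), Cl D T (cg D T e ω g) q s) then kap D s else 0) : ℤ) : K)) =
        0 := by
      funext g
      have h1 : ∀ s : St d L, ¬(Ok D T (cg D T e ω g) s ∧
          (∃ q ∈ (∅ : Finset (Fin d × Bool)), Cl D T (cg D T e ω g) q s)) := by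
        rintro s ⟨-, q, hq, -⟩
        exact absurd hq (Finset.notMem_empty q)
      rw [Finset.sum_eq_zero (fun s _ => if_neg (h1 s)), Int.cast_zero]
      rfl
    rw [h]
    exact zero_mem _
  | insert q Q _ ih =>
    have h := add_mem ih (InvS_le A K d (ix q) (part_mem (hL := hL) (D := D) hd hT hG ω q Q))
    have h1 : (fun g : Fin d → A => ((∑ s ∈ EM D hL T, (if Ok D T (cg D T e ω g) s ∧
        (∃ q' ∈ insert q Q, Cl D T (cg D T e ω g) q' s) then kap D s else 0) : ℤ) : K)) =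
        (fun g : Fin d → A => ((∑ s ∈ EM D hL T, (if Ok D T (cg D T e ω g) s ∧
          (∃ q' ∈ Q, Cl D T (cg D T e ω g) q' s) then kap D s else 0) : ℤ) : K)) +
        (fun g : Fin d → A => ((∑ s ∈ EM D hL T, (if Ok D T (cg D T e ω g) s ∧
          Cl D T (cg D T e ω g) q s ∧
          (∀ q' ∈ Q, ¬Cl D T (cg D T e ω g) q' s) then kap D s else 0) : ℤ) : K)) := by
      funext g
      rw [Pi.add_apply, ← Int.cast_add, ← Finset.sum_add_distrib]
      refine congrArg (fun n : ℤ => (n : K)) (Finset.sum_congr rfl (fun s _ => ?_))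
      by_cases h2 : Ok D T (cg D T e ω g) s
      · by_cases h3 : ∃ q' ∈ Q, Cl D T (cg D T e ω g) q' s
        · obtain ⟨q', hq', h4⟩ := h3
          rw [if_pos ⟨h2, q', Finset.mem_insert_of_mem hq', h4⟩, if_pos ⟨h2, q', hq', h4⟩,
            if_neg (fun h5 => h5.2.2 q' hq' h4), add_zero]
        · have h4 : ∀ q' ∈ Q, ¬Cl D T (cg D T e ω g) q' s := fun q' hq' h5 => h3 ⟨q', hq', h5⟩
          by_cases h5 : Cl D T (cg D T e ω g) q s
          · rw [if_pos ⟨h2, q, Finset.mem_insert_self q Q, h5⟩, if_neg (fun h6 => h3 h6.2),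
              if_pos ⟨h2, h5, h4⟩, zero_add]
          · rw [if_neg, if_neg (fun h6 => h3 h6.2), if_neg (fun h6 => h5 h6.2.1), add_zero]
            rintro ⟨-, q', hq', h6⟩
            rcases Finset.mem_insert.1 hq' with rfl | hq'
            · exact h5 h6
            · exact h4 q' hq' h6
      · rw [if_neg (fun h3 => h2 h3.1), if_neg (fun h3 => h2 h3.1), if_neg (fun h3 => h2 h3.1),
          add_zero]
    rw [h1]
    exact h

private theorem Ok_Phi (hd : 1 ≤ d) {c : L → Fin d} {s : St d L} :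
    Ok D T c (Phi D c s) ↔ Ok D T c s := by
  unfold Ok
  rw [rb_Phi, Small_Phi, w_Phi hd]

omit [NeZero d] in
private theorem pow_Phi (c : L → Fin d) (a : ℕ) (s : St d L) :
    (Phi D c ^ a) (Phi D c s) = (Phi D c ^ (a + 1)) s := by
  rw [pow_succ, Equiv.Perm.mul_apply]

omit [NeZero d] in
private theorem EM_Phi {c : L → Fin d} {s : St d L} (hs : Small D T c s) :
    (∃ a : ℕ, (Phi D c ^ a) (Phi D c s) ∈ EM D hL T) ↔ ∃ a : ℕ, (Phi D c ^ a) s ∈ EM D hL T := by
  constructor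
  · rintro ⟨a, ha⟩
    rw [pow_Phi] at ha
    exact ⟨a + 1, ha⟩
  · rintro ⟨a, ha⟩
    obtain ⟨k, hk, h⟩ := hs.1
    refine ⟨a + (k - 1), ?_⟩
    rw [pow_Phi, show a + (k - 1) + 1 = a + k by omega, pow_add, Equiv.Perm.mul_apply, h]
    exact ha

open Classical in
theorem rest_zero (hd : 2 ≤ d) (hT : 1 ≤ T) (c : L → Fin d) :
    ∑ s ∈ EM D hL T, (if Ok D T c s ∧ (∀ q, ¬Cl D T c q s) then kap D s else 0) = 0 := by
  have hd1 : 1 ≤ d := by omega
  -- the invariant set
  set P : St d L → Prop := fun t => (Ok D T c t ∧ (∀ q, ¬Cl D T c q t)) ∧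
    ∃ a : ℕ, (Phi D c ^ a) t ∈ EM D hL T with hP
  have hbox : ∀ t, P t → t ∈ BS D hL (-T) (3 * T) := by
    rintro t ⟨⟨⟨-, hs, -⟩, -⟩, a, ha⟩
    rw [mem_BS]
    intro i hi
    rw [mem_EM hd1 hT] at ha
    have h1 := hs.2 a 0 i ⟨0, by omega⟩ ⟨0, by omega⟩ hi
    have h2 := hs.2 0 a i ⟨0, by omega⟩ ⟨0, by omega⟩ hi
    rw [pow_zero, Equiv.Perm.one_apply] at h1 h2
    have h3 := xc_cell_le D t i 0 1
    have h4 := xc_cell_le D t i 1 0
    rw [cell_zero] at h3 h4
    rw [show fc D t ⟨0, by omega⟩ = cell D t 1 from rfl] at h1 h2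
    by_cases hl : i = Fin.last d
    · have h5 : xc D i (fc D ((Phi D c ^ a) t) ⟨0, by omega⟩) = 0 := by
        rw [hl]
        rcases ha.1 with h6 | h6
        · exact Up_fc hd1 h6 _
        · exact Dn_fc hd1 h6 _
      omega
    · obtain ⟨j, hj, rfl⟩ := cs_of_ne hi hl
      have h5 := ha.2 ⟨0, by omega⟩ j hj
      omega
  have hPhi : ∀ t, P t ↔ P (Phi D c t) := by
    intro t
    rw [hP]
    show ((Ok D T c t ∧ (∀ q, ¬Cl D T c q t)) ∧ ∃ a : ℕ, (Phi D c ^ a) t ∈ EM D hL T) ↔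
      (Ok D T c (Phi D c t) ∧ (∀ q, ¬Cl D T c q (Phi D c t))) ∧
        ∃ a : ℕ, (Phi D c ^ a) (Phi D c t) ∈ EM D hL T
    rw [Ok_Phi hd1]
    constructor
    · rintro ⟨⟨h1, h2⟩, h3⟩
      exact ⟨⟨h1, fun q h4 => h2 q ((Cl_Phi h1.2.1).1 h4)⟩, (EM_Phi h1.2.1).2 h3⟩
    · rintro ⟨⟨h1, h2⟩, h3⟩
      exact ⟨⟨h1, fun q h4 => h2 q ((Cl_Phi h1.2.1).2 h4)⟩, (EM_Phi h1.2.1).1 h3⟩
  obtain ⟨Ω, hΩ⟩ : ∃ Ω : Finset (St d L), Ω = (BS D hL (-T) (3 * T)).filter P := ⟨_, rfl⟩
  have hmem : ∀ t, t ∈ Ω ↔ P t := by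
    intro t
    rw [hΩ, Finset.mem_filter]
    exact ⟨fun h => h.2, fun h => ⟨hbox t h, h⟩⟩
  have h1 : ∑ t ∈ Ω, hh D t = ∑ t ∈ Ω, hh D (Phi D c t) := by
    symm
    refine Finset.sum_equiv (Phi D c) (fun t => ?_) (fun t _ => rfl)
    rw [hmem, hmem]
    exact hPhi t
  have h2 : ∑ t ∈ Ω, kap D t = 0 := by
    rw [Finset.sum_congr rfl (fun t _ => kap_Phi hd1 c t), Finset.sum_sub_distrib, h1, sub_self]
  have h3 : (EM D hL T).filter (fun s => Ok D T c s ∧ (∀ q, ¬Cl D T c q s)) =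
      Ω.filter (fun s => s ∈ EM D hL T) := by
    ext s
    rw [Finset.mem_filter, Finset.mem_filter, hmem]
    constructor
    · rintro ⟨h4, h5⟩
      exact ⟨⟨h5, 0, by rw [pow_zero, Equiv.Perm.one_apply]; exact h4⟩, h4⟩
    · rintro ⟨h4, h5⟩
      exact ⟨h5, h4.1⟩
  rw [← Finset.sum_filter, h3, ← h2]
  refine Finset.sum_subset (Finset.filter_subset _ _) (fun t ht ht' => ?_)
  by_cases hU : Up D t ∨ Dn D t
  · exfalso
    apply ht'
    rw [Finset.mem_filter]
    refine ⟨ht, (mem_EM hd1 hT).2 ⟨hU, fun i j hj => ?_⟩⟩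
    have h4 := ((hmem t).1 ht).1.2
    have hU0 : Up D ((Phi D c ^ 0) t) ∨ Dn D ((Phi D c ^ 0) t) := by
      rw [pow_zero, Equiv.Perm.one_apply]
      exact hU
    have h5 := h4 (j, true)
    have h6 := h4 (j, false)
    constructor
    · by_contra h7
      refine h6 ⟨hj, 0, i, hU0, ?_⟩
      rw [if_neg Bool.false_ne_true, pow_zero, Equiv.Perm.one_apply]
      exact not_le.1 h7
    · by_contra h7
      refine h5 ⟨hj, 0, i, hU0, ?_⟩
      rw [if_pos rfl, pow_zero, Equiv.Perm.one_apply]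
      exact not_le.1 h7
  · exact kap_of_not (fun h => hU (Or.inl h)) (fun h => hU (Or.inr h))

open Classical in
theorem flux_EM (hd : 2 ≤ d) (hT : 1 ≤ T) (c : L → Fin d) :
    ∑ s ∈ UM D hL T, w D c s = ∑ s ∈ EM D hL T, (if w D c s = 1 then kap D s else 0) := by
  have hd1 : 1 ≤ d := by omega
  have hUM : ∀ s, s ∈ UM D hL T ↔ Up D s ∧ ∀ i, inM D T (fc D s i) := by
    intro s
    constructor
    · intro h
      rw [UM, Finset.mem_filter] at h
      exact h.2
    · intro h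
      have h1 := (mem_EM (hL := hL) hd1 hT).2 ⟨Or.inl h.1, h.2⟩
      rw [EM, Finset.mem_filter] at h1
      rw [UM, Finset.mem_filter]
      exact ⟨h1.1, h⟩
  have h1 : (EM D hL T).filter (fun s => Up D s) = UM D hL T := by
    ext s
    rw [Finset.mem_filter, mem_EM hd1 hT, hUM]
    exact ⟨fun h => ⟨h.2, h.1.2⟩, fun h => ⟨⟨Or.inl h.1, h.2⟩, h.1⟩⟩
  have h2 : ∑ s ∈ (EM D hL T).filter (fun s => ¬Up D s), (if w D c s = 1 then kap D s else 0) =
      ∑ s ∈ UM D hL T, (if w D c s = -1 then -1 else 0) := by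
    symm
    refine Finset.sum_bij' (fun s _ => R D s) (fun s _ => R D s) ?_ ?_ ?_ ?_ ?_
    · intro s hs
      rw [hUM] at hs
      rw [Finset.mem_filter, mem_EM hd1 hT, Dn_R hd1, Up_R hd1]
      refine ⟨⟨Or.inr hs.1, fun i => ?_⟩, not_Up_Dn hd1 hs.1⟩
      rw [fc_R]
      exact hs.2 i
    · intro s hs
      rw [Finset.mem_filter, mem_EM hd1 hT] at hs
      rw [hUM, Up_R hd1]
      refine ⟨hs.1.1.resolve_left hs.2, fun i => ?_⟩
      rw [fc_R]
      exact hs.1.2 i
    · intro s _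
      exact R_R D s
    · intro s _
      exact R_R D s
    · intro s hs
      rw [hUM] at hs
      have h3 : Dn D (R D s) := (Dn_R hd1).2 hs.1
      have h4 : ¬Up D (R D s) := fun h => not_Up_Dn hd1 h h3
      rw [w_R hd1]
      have h5 : kap D (R D s) = -1 := by
        rw [kap, if_neg h4, if_pos h3]
        norm_num
      rw [h5]
      exact if_congr (by omega) rfl rfl
  rw [← Finset.sum_filter_add_sum_filter_not (EM D hL T) (fun s => Up D s), h2, h1,
    ← Finset.sum_add_distrib]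
  refine Finset.sum_congr rfl (fun s hs => ?_)
  rw [hUM] at hs
  have h3 : kap D s = 1 := by
    rw [kap, if_pos hs.1, if_neg (not_Up_Dn hd1 hs.1)]
    norm_num
  rw [h3]
  by_cases hr : rb D c s
  · rcases w_rb hr with h4 | h4
    · rw [h4]
      norm_num
    · rw [h4]
      norm_num
  · rw [w_not hr]
    norm_num

end Pool.Agent.DCE
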