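import Pool.Agent.DCE.Long
import Pool.Agent.DCP.GeoC

/-!
# Extended phase of the d-colour paths: from states to paths of the tessellation

PROOFS. `colEdge`: for a `d`-colour state `s` the points `vtx s`, `vtx (R s)` are vertices of the tessellation with common cells `fc s j`:
the cells at `vtx s` are exactly the `cell D s k` (prove this first: `x ∈ cellsAt (vtx s) ↔ ∃ k ≤ d, x = cell s k`; the squared distance from
`vtx s` to `x = s.1 + y`, `y` in the lattice with `y i - y j ∈ ℤ`, `∑ y = 0`; see the docstring of `DCP/GeoB.lean`: with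
`q i = ((d:ℝ)/2 - s.2.symm i)/(d+1)` one has `sqd = ∑ (y i - q i)^2`; write `y i = u i - (∑ u)/(d+1)` with integers `u i`, use letters
order: the minimum over integer vectors `u` is attained exactly at the vectors `[s.2.symm i < k]` plus constants). Hence `IsVertex`.
`vtx_inj`: two `d`-colour states with the same vertex and the same orientation `w` are equal: by the description of the cells
`t.1 = cell s k` for some `k ≤ d`, so `t = turn k s` (`state_unique`), and if `k ≠ 0` then both `s` and `turn k s` are `d`-colour, so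
`c (cell s k) = c s.1` and `turn k s = J D c s` (`J_turn`), `w_J`: contradiction with `w ≠ 0`.
`path_of`: `γ k = vtx ((Phi^k) s)`; `vtx (Phi t) = vtx (R t)` (`vtx_turn`, `J_eq`), `rb_Phi_pow`; injectivity on `k ≤ m` by `vtx_inj`, `w_Phi` and
`Long` (`(Phi^a) s = (Phi^b) s`, `a < b ≤ m` gives `(Phi^(b-a)) s = s`).
-/

set_option autoImplicit false

namespace Pool.Agent.DCE

open Pool.Agent.DCP

/-- `γ 0, ..., γ m` is a `d`-colour path with distinct vertices -/
def IsPath {d : ℕ} (c : Ast d → Fin d) (γ : ℕ → Fin (d + 1) → ℝ) (m : ℕ) : Prop :=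
  Set.InjOn γ (Set.Iic m) ∧ ∀ k < m, ColEdge c (γ k) (γ (k + 1))

variable {d : ℕ}

private theorem sum_eps (a : Fin (d + 1) → ℝ) :
    ∑ i, ∑ j, ((if i < j then (1 : ℝ) else 0) - (if j < i then 1 else 0)) * (a i - a j) =
      2 * ∑ i, ((d : ℝ) - 2 * ((i : Fin (d + 1)) : ℕ)) * a i := by
  have h1 : ∀ i : Fin (d + 1), ∑ j : Fin (d + 1),
      ((if i < j then (1 : ℝ) else 0) - (if j < i then 1 else 0)) =
        (d : ℝ) - 2 * ((i : Fin (d + 1)) : ℕ) := by
    intro i
    rw [Finset.sum_sub_distrib, Finset.sum_boole, Finset.sum_boole]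
    have h2 : (Finset.univ.filter fun j : Fin (d + 1) => i < j) = Finset.Ioi i := by
      ext j
      simp
    have h3 : (Finset.univ.filter fun j : Fin (d + 1) => j < i) = Finset.Iio i := by
      ext j
      simp
    rw [h2, h3, Fin.card_Ioi, Fin.card_Iio]
    have h4 : d + 1 - 1 - (i : ℕ) = d - i := by omega
    rw [h4, Nat.cast_sub (by omega)]
    ring
  have h2 : ∀ j : Fin (d + 1), ∑ i : Fin (d + 1),
      ((if i < j then (1 : ℝ) else 0) - (if j < i then 1 else 0)) =
        -((d : ℝ) - 2 * ((j : Fin (d + 1)) : ℕ)) := by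
    intro j
    rw [← h1 j, ← Finset.sum_neg_distrib]
    refine Finset.sum_congr rfl fun i _ => ?_
    ring
  have h3 : ∑ i, ∑ j, ((if i < j then (1 : ℝ) else 0) - (if j < i then 1 else 0)) * (a i - a j) =
      ∑ i, (∑ j, ((if i < j then (1 : ℝ) else 0) - (if j < i then 1 else 0))) * a i -
        ∑ j, (∑ i, ((if i < j then (1 : ℝ) else 0) - (if j < i then 1 else 0))) * a j := by
    simp only [Finset.sum_mul]
    rw [Finset.sum_comm (f := fun j i =>
      ((if i < j then (1 : ℝ) else 0) - (if j < i then 1 else 0)) * a j)]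
    rw [← Finset.sum_sub_distrib]
    refine Finset.sum_congr rfl fun i _ => ?_
    rw [← Finset.sum_sub_distrib]
    refine Finset.sum_congr rfl fun j _ => ?_
    ring
  rw [h3]
  simp only [h1, h2]
  rw [← Finset.sum_sub_distrib, Finset.mul_sum]
  refine Finset.sum_congr rfl fun i _ => ?_
  ring

private theorem sum_sq (a : Fin (d + 1) → ℝ) (ha : ∑ i, a i = 0) :
    ∑ i, ∑ j, (a i - a j) ^ 2 = 2 * (d + 1) * ∑ i, a i ^ 2 := by
  have h1 : ∀ i : Fin (d + 1), ∑ j, (a i - a j) ^ 2 = (d + 1) * a i ^ 2 + ∑ j, a j ^ 2 := by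
    intro i
    have h2 : ∀ j : Fin (d + 1), (a i - a j) ^ 2 = a i ^ 2 - 2 * a i * a j + a j ^ 2 := by
      intro j
      ring
    simp only [h2]
    rw [Finset.sum_add_distrib, Finset.sum_sub_distrib, ← Finset.mul_sum, ha, Finset.sum_const,
      Finset.card_univ, Fintype.card_fin, nsmul_eq_mul]
    push_cast
    ring
  simp only [h1]
  rw [Finset.sum_add_distrib, ← Finset.mul_sum, Finset.sum_const, Finset.card_univ,
    Fintype.card_fin, nsmul_eq_mul]
  push_cast
  ring

/-- the difference of the squared distances from the vertex of a state -/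
private theorem sqd_vtx (s : St d (Ast d)) (t : Ast d) :
    2 * ((d : ℝ) + 1) * (sqd (vtx s) ((s.1 + t : Ast d) : Fin (d + 1) → ℝ) -
      sqd (vtx s) (s.1 : Fin (d + 1) → ℝ)) =
      ∑ i, ∑ j, ((((AD d).rt (s.2 i) (s.2 j) t ^ 2 -
        ((if i < j then 1 else 0) - (if j < i then 1 else 0)) * (AD d).rt (s.2 i) (s.2 j) t : ℤ)) : ℝ) := by
  have hn : (d : ℝ) + 1 ≠ 0 := by positivity
  obtain ⟨a, ha⟩ : ∃ a : Fin (d + 1) → ℝ, ∀ i, a i = (t : Fin (d + 1) → ℝ) (s.2 i) :=
    ⟨_, fun _ => rfl⟩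
  have hsum : ∑ i, a i = 0 := by
    simp only [ha]
    rw [Equiv.sum_comp s.2 (t : Fin (d + 1) → ℝ)]
    exact t.2.1
  have h1 : ∀ i j, (((AD d).rt (s.2 i) (s.2 j) t : ℤ) : ℝ) = a i - a j := by
    intro i j
    rw [AD_rt, ha, ha]
  have h2 : sqd (vtx s) ((s.1 + t : Ast d) : Fin (d + 1) → ℝ) - sqd (vtx s) (s.1 : Fin (d + 1) → ℝ) =
      ∑ i : Fin (d + 1), (a i ^ 2 - 2 * (((d : ℝ) / 2 - ((i : Fin (d + 1)) : ℕ)) / (d + 1)) * a i) := by
    unfold sqd
    rw [← Finset.sum_sub_distrib]
    rw [← Equiv.sum_comp s.2]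
    refine Finset.sum_congr rfl fun i _ => ?_
    unfold vtx
    rw [Equiv.symm_apply_apply, AddSubgroup.coe_add, Pi.add_apply, ha]
    ring
  have h3 := sum_eps a
  have h4 := sum_sq a hsum
  rw [h2]
  push_cast
  simp only [h1]
  rw [show (∑ i : Fin (d + 1), ∑ j : Fin (d + 1), ((a i - a j) ^ 2 -
      ((if i < j then (1 : ℝ) else 0) - (if j < i then 1 else 0)) * (a i - a j))) =
      ∑ i, ∑ j, (a i - a j) ^ 2 - ∑ i, ∑ j,
        ((if i < j then (1 : ℝ) else 0) - (if j < i then 1 else 0)) * (a i - a j) by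
    rw [← Finset.sum_sub_distrib]
    refine Finset.sum_congr rfl fun i _ => ?_
    rw [← Finset.sum_sub_distrib]]
  rw [h3, h4, Finset.sum_sub_distrib, mul_sub, Finset.mul_sum, Finset.mul_sum, Finset.mul_sum]
  congr 1
  refine Finset.sum_congr rfl fun i _ => ?_
  field_simp

private theorem term_nonneg (i j : Fin (d + 1)) (m : ℤ) :
    0 ≤ m ^ 2 - ((if i < j then (1 : ℤ) else 0) - (if j < i then 1 else 0)) * m := by
  have h1 : 0 ≤ m ^ 2 - m := by
    rcases le_or_gt m 0 with h | h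
    · nlinarith
    · nlinarith
  have h2 : 0 ≤ m ^ 2 + m := by
    rcases le_or_gt 0 m with h | h
    · nlinarith
    · nlinarith
  split_ifs with h3 h4 h4
  · exact absurd h4 (not_lt.2 h3.le)
  · linarith
  · linarith
  · nlinarith

private theorem sqd_le (s : St d (Ast d)) (y : Ast d) :
    sqd (vtx s) (s.1 : Fin (d + 1) → ℝ) ≤ sqd (vtx s) (y : Fin (d + 1) → ℝ) := by
  have h1 := sqd_vtx s (y - s.1)
  rw [add_sub_cancel] at h1
  have h2 : (0 : ℝ) ≤ ∑ i, ∑ j, ((((AD d).rt (s.2 i) (s.2 j) (y - s.1) ^ 2 -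
        ((if i < j then 1 else 0) - (if j < i then 1 else 0)) *
          (AD d).rt (s.2 i) (s.2 j) (y - s.1) : ℤ)) : ℝ) := by
    refine Finset.sum_nonneg fun i _ => Finset.sum_nonneg fun j _ => ?_
    exact_mod_cast term_nonneg i j _
  rw [← h1] at h2
  have hn : (0 : ℝ) < 2 * ((d : ℝ) + 1) := by positivity
  have h3 := nonneg_of_mul_nonneg_right h2 hn
  linarith

private theorem rt_eq {x y : Ast d} (a : Fin (d + 1))
    (h : ∀ j, (AD d).rt a j x = (AD d).rt a j y) : x = y := by
  refine rtF_inj fun j => ?_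
  have h1 : ∀ z : Ast d, (rtF 0 j z : ℤ) = (AD d).rt a j z - (AD d).rt a 0 z := by
    intro z
    have h2 : ((rtF 0 j z : ℤ) : ℝ) = (((AD d).rt a j z - (AD d).rt a 0 z : ℤ) : ℝ) := by
      push_cast
      rw [rtF_cast, AD_rt, AD_rt]
      ring
    exact_mod_cast h2
  rw [h1, h1, h j, h 0]

private theorem rt_cell (s : St d (Ast d)) {k : ℕ} (hk : k ≤ d + 1) (i j : Fin (d + 1)) :
    (AD d).rt (s.2 i) (s.2 j) (cell (AD d) s k) = (AD d).rt (s.2 i) (s.2 j) s.1 +
      ((if (i : ℕ) < k then 1 else 0) - (if (j : ℕ) < k then 1 else 0)) := by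
  have h0 : ∀ l : ℕ, l < d + 1 → ∀ i : Fin (d + 1), (letter s l = s.2 i ↔ (i : ℕ) = l) := by
    intro l hl i
    rw [letter, s.2.injective.eq_iff]
    constructor
    · intro h
      rw [← h]
      simp [Fin.ofNat, Nat.mod_eq_of_lt hl]
    · intro h
      ext
      simp [Fin.ofNat, Nat.mod_eq_of_lt hl, h]
  induction k with
  | zero =>
    rw [cell_zero]
    simp
  | succ k ih =>
    rw [cell_succ, map_add, ih (by omega), (AD d).rt_v]
    simp only [h0 k (by omega)]
    have h1 : ∀ i : Fin (d + 1), ((if (i : ℕ) < k + 1 then (1 : ℤ) else 0)) =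
        (if (i : ℕ) < k then 1 else 0) + (if (i : ℕ) = k then 1 else 0) := by
      intro i
      split_ifs <;> omega
    rw [h1 i, h1 j]
    ring

theorem cellsAt_vtx (hd : 1 ≤ d) (s : St d (Ast d)) (x : Ast d) :
    x ∈ cellsAt (vtx s) ↔ ∃ k ≤ d, x = cell (AD d) s k := by
  have _ := hd
  constructor
  · intro hx
    have h1 : sqd (vtx s) (x : Fin (d + 1) → ℝ) = sqd (vtx s) (s.1 : Fin (d + 1) → ℝ) :=
      le_antisymm (hx s.1) (sqd_le s x)
    have h2 := sqd_vtx s (x - s.1)
    rw [add_sub_cancel, h1, sub_self, mul_zero] at h2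
    have h3 : ∑ i, ∑ j, (((AD d).rt (s.2 i) (s.2 j) (x - s.1) ^ 2 -
        ((if i < j then 1 else 0) - (if j < i then 1 else 0)) *
          (AD d).rt (s.2 i) (s.2 j) (x - s.1) : ℤ)) = 0 := by
      exact_mod_cast h2.symm
    have h4 : ∀ i j : Fin (d + 1), i < j → (AD d).rt (s.2 i) (s.2 j) (x - s.1) = 0 ∨
        (AD d).rt (s.2 i) (s.2 j) (x - s.1) = 1 := by
      intro i j hij
      have h5 := (Finset.sum_eq_zero_iff_of_nonneg (fun i _ => Finset.sum_nonneg fun j _ =>
        term_nonneg i j _)).1 h3 i (Finset.mem_univ _)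
      have h6 := (Finset.sum_eq_zero_iff_of_nonneg (fun j _ => term_nonneg i j _)).1 h5 j
        (Finset.mem_univ _)
      rw [if_pos hij, if_neg (not_lt.2 hij.le)] at h6
      have h7 : (AD d).rt (s.2 i) (s.2 j) (x - s.1) *
          ((AD d).rt (s.2 i) (s.2 j) (x - s.1) - 1) = 0 := by
        rw [← h6]
        ring
      rcases mul_eq_zero.1 h7 with h | h
      · exact Or.inl h
      · exact Or.inr (by linarith)
    -- the position of the step
    by_cases hall : ∀ j : Fin (d + 1), (AD d).rt (s.2 0) (s.2 j) (x - s.1) = 0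
    · refine ⟨0, Nat.zero_le _, ?_⟩
      rw [cell_zero]
      refine rt_eq (s.2 0) fun j => ?_
      have h5 := hall (s.2.symm j)
      rw [Equiv.apply_symm_apply, map_sub, sub_eq_zero] at h5
      exact h5
    · push Not at hall
      have hex : ∃ k : ℕ, ∃ h : k < d + 1, (AD d).rt (s.2 0) (s.2 ⟨k, h⟩) (x - s.1) = 1 := by
        obtain ⟨j, hj⟩ := hall
        have hj0 : 0 < j := by
          rw [Fin.pos_iff_ne_zero]
          rintro rfl
          apply hj
          have : (((AD d).rt (s.2 0) (s.2 0) (x - s.1) : ℤ) : ℝ) = 0 := by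
            rw [AD_rt, sub_self]
          exact_mod_cast this
        exact ⟨j, j.2, (h4 0 j hj0).resolve_left hj⟩
      classical
      obtain ⟨k, ⟨hk1, hk2⟩, hmin⟩ : ∃ k : ℕ,
          (∃ h : k < d + 1, (AD d).rt (s.2 0) (s.2 ⟨k, h⟩) (x - s.1) = 1) ∧
          ∀ m < k, ¬∃ h : m < d + 1, (AD d).rt (s.2 0) (s.2 ⟨m, h⟩) (x - s.1) = 1 :=
        ⟨Nat.find hex, Nat.find_spec hex, fun m hm => Nat.find_min hex hm⟩
      have hrt : ∀ i j : Fin (d + 1), (AD d).rt (s.2 0) (s.2 j) (x - s.1) =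
          (AD d).rt (s.2 0) (s.2 i) (x - s.1) + (AD d).rt (s.2 i) (s.2 j) (x - s.1) := by
        intro i j
        have h5 : (((AD d).rt (s.2 0) (s.2 j) (x - s.1) : ℤ) : ℝ) =
            (((AD d).rt (s.2 0) (s.2 i) (x - s.1) +
              (AD d).rt (s.2 i) (s.2 j) (x - s.1) : ℤ) : ℝ) := by
          push_cast
          rw [AD_rt, AD_rt, AD_rt]
          ring
        exact_mod_cast h5
      have hk0 : 0 < k := by
        rcases Nat.eq_zero_or_pos k with h | h
        · exfalso
          subst h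
          have h5 : (((AD d).rt (s.2 0) (s.2 ⟨0, hk1⟩) (x - s.1) : ℤ) : ℝ) = 0 := by
            rw [AD_rt]
            exact sub_self _
          rw [hk2] at h5
          norm_num at h5
        · exact h
      have hval : ∀ j : Fin (d + 1), (AD d).rt (s.2 0) (s.2 j) (x - s.1) =
          1 - (if (j : ℕ) < k then 1 else 0) := by
        intro j
        rcases Nat.lt_trichotomy (j : ℕ) k with h | h | h
        · rw [if_pos h, sub_self]
          rcases Nat.eq_zero_or_pos (j : ℕ) with h0 | h0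
          · have hj0 : j = 0 := Fin.ext h0
            rw [hj0]
            have : (((AD d).rt (s.2 0) (s.2 0) (x - s.1) : ℤ) : ℝ) = 0 := by
              rw [AD_rt, sub_self]
            exact_mod_cast this
          · refine (h4 0 j (Fin.pos_iff_ne_zero.2 fun h5 => ?_)).resolve_right fun h5 => ?_
            · rw [h5] at h0
              exact absurd h0 (lt_irrefl _)
            · exact hmin j h ⟨j.2, h5⟩
        · have hj : j = ⟨k, hk1⟩ := Fin.ext h
          rw [hj, hk2, if_neg (lt_irrefl _), sub_zero]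
        · rw [if_neg (by omega), sub_zero]
          have h5 := hrt ⟨k, hk1⟩ j
          rw [hk2] at h5
          have hkj : (⟨k, hk1⟩ : Fin (d + 1)) < j := h
          have h0j : (0 : Fin (d + 1)) < j := lt_of_le_of_lt (Fin.zero_le _) hkj
          rcases h4 ⟨k, hk1⟩ j hkj with h6 | h6
          · rw [h5, h6, add_zero]
          · rcases h4 0 j h0j with h7 | h7
            · rw [h7, h6] at h5
              norm_num at h5
            · exact h7
      refine ⟨k, by omega, ?_⟩
      refine rt_eq (s.2 0) fun j => ?_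
      have h5 := rt_cell s (k := k) (by omega) 0 (s.2.symm j)
      have h6 := hval (s.2.symm j)
      rw [Equiv.apply_symm_apply] at h5 h6
      rw [h5]
      rw [map_sub] at h6
      have h7 : (((0 : Fin (d + 1)) : ℕ) < k) := hk0
      rw [if_pos h7]
      linarith
  · rintro ⟨k, hk, rfl⟩ y
    have h1 := sqd_le (turn (AD d) k s) y
    rw [vtx_turn, turn_fst] at h1
    exact h1

private theorem cellsAt_eq (hd : 1 ≤ d) (s : St d (Ast d)) :
    cellsAt (vtx s) = (fun k => cell (AD d) s k) '' (Finset.range (d + 1) : Set ℕ) := by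
  ext x
  rw [cellsAt_vtx hd]
  constructor
  · rintro ⟨k, hk, rfl⟩
    exact ⟨k, by simpa using Nat.lt_succ_of_le hk, rfl⟩
  · rintro ⟨k, hk, rfl⟩
    exact ⟨k, by
      have := Finset.mem_range.1 (Finset.mem_coe.1 hk)
      omega, rfl⟩

theorem isVertex_vtx (hd : 1 ≤ d) (s : St d (Ast d)) : IsVertex (vtx s) := by
  refine ⟨?_, ?_⟩
  · unfold vtx
    rw [Finset.sum_add_distrib, s.1.2.1, zero_add]
    rw [← Finset.sum_div]
    have h1 : ∑ i : Fin (d + 1), ((d : ℝ) / 2 - ((s.2.symm i : Fin (d + 1)) : ℕ)) = 0 := by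
      rw [Equiv.sum_comp s.2.symm (fun i : Fin (d + 1) => (d : ℝ) / 2 - ((i : Fin (d + 1)) : ℕ))]
      rw [Finset.sum_sub_distrib, Finset.sum_const, Finset.card_univ, Fintype.card_fin,
        nsmul_eq_mul]
      have h2 : (∑ i : Fin (d + 1), (((i : Fin (d + 1)) : ℕ) : ℝ)) * 2 = (d + 1) * d := by
        have h3 := Finset.sum_range_id_mul_two (d + 1)
        rw [Finset.sum_range] at h3
        have h4 : (((∑ i : Fin (d + 1), ((i : Fin (d + 1)) : ℕ)) * 2 : ℕ) : ℝ) =
            (((d + 1) * (d + 1 - 1) : ℕ) : ℝ) := by rw [h3]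
        push_cast at h4
        exact h4
      push_cast
      linarith
    rw [h1, zero_div]
  · rw [cellsAt_eq hd, Set.InjOn.ncard_image, Set.ncard_coe_finset, Finset.card_range]
    intro a ha b hb hab
    have ha' := Finset.mem_range.1 (Finset.mem_coe.1 ha)
    have hb' := Finset.mem_range.1 (Finset.mem_coe.1 hb)
    exact cell_inj (AD d) s (by omega) (by omega) hab

private theorem fst_not_mem (hd : 1 ≤ d) (s : St d (Ast d)) :
    s.1 ∉ cellsAt (vtx (R (AD d) s)) := by
  intro h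
  obtain ⟨k, hk, hk2⟩ := (cellsAt_vtx hd _ _).1 h
  have h1 := congrArg (AD d).ty hk2
  rw [ty_cell, ty_R, left_eq_add, ZMod.natCast_eq_zero_iff] at h1
  have h2 : k = 0 := Nat.eq_zero_of_dvd_of_lt h1 (by omega)
  rw [h2, cell_zero, R_fst] at hk2
  have h3 : (AD d).v (letter s 0) = (AD d).v (letter s d) := by
    have h4 : s.1 + ((AD d).v (letter s 0) - (AD d).v (letter s d)) = s.1 + 0 := by
      rw [add_zero, ← add_sub_assoc]
      exact hk2.symm
    exact sub_eq_zero.1 (add_left_cancel h4)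
  have h4 := letter_inj s (Nat.zero_le _) le_rfl (v_inj (AD d) hd h3)
  omega

theorem colEdge (hd : 1 ≤ d) {c : Ast d → Fin d} {s : St d (Ast d)} (h : rb (AD d) c s) :
    ColEdge c (vtx s) (vtx (R (AD d) s)) := by
  have hI : cellsAt (vtx s) ∩ cellsAt (vtx (R (AD d) s)) =
      (fun j : Fin d => fc (AD d) s j) '' (Set.univ : Set (Fin d)) := by
    ext x
    constructor
    · rintro ⟨hx, hx'⟩
      obtain ⟨k, hk, rfl⟩ := (cellsAt_vtx hd _ _).1 hx
      rcases Nat.eq_zero_or_pos k with h0 | h0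
      · exfalso
        rw [h0, cell_zero] at hx'
        exact fst_not_mem hd s hx'
      · obtain ⟨j, -, hj⟩ := exists_fc (AD d) s h0 hk
        exact ⟨j, Set.mem_univ _, hj⟩
    · rintro ⟨j, -, rfl⟩
      refine ⟨(cellsAt_vtx hd _ _).2 ⟨j + 1, by omega, rfl⟩,
        (cellsAt_vtx hd _ _).2 ⟨j + 1, by omega, ?_⟩⟩
      exact (fc_R (AD d) s j).symm
  refine ⟨isVertex_vtx hd _, isVertex_vtx hd _, ?_, ?_⟩
  · rw [hI, Set.InjOn.ncard_image, Set.ncard_univ, Nat.card_fin]
    intro i _ j _ hij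
    have h1 := cell_inj (AD d) s (by omega) (by omega) hij
    ext
    omega
  · rw [hI]
    rintro _ ⟨i, -, rfl⟩ _ ⟨j, -, rfl⟩ hij
    have h1 : i = j := h hij
    rw [h1]

theorem vtx_Phi_eq {c : Ast d → Fin d} (s : St d (Ast d)) :
    vtx (Phi (AD d) c s) = vtx (R (AD d) s) := by
  rw [Phi_apply]
  by_cases h : rb (AD d) c (R (AD d) s)
  · obtain ⟨j, hj⟩ := exists_fc_eq h (c (R (AD d) s).1)
    rw [J_eq h hj, vtx_turn]
  · rw [J_not h]

theorem vtx_inj (hd : 1 ≤ d) {c : Ast d → Fin d} {s t : St d (Ast d)} (hs : rb (AD d) c s)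
    (ht : rb (AD d) c t) (hw : w (AD d) c s = w (AD d) c t) (h : vtx s = vtx t) : s = t := by
  have hst : ∀ k ≤ d, ∃ l ≤ d, cell (AD d) t k = cell (AD d) s l := by
    intro k hk
    have h1 : cell (AD d) t k ∈ cellsAt (vtx s) := by
      rw [h]
      exact (cellsAt_vtx hd _ _).2 ⟨k, hk, rfl⟩
    exact (cellsAt_vtx hd _ _).1 h1
  obtain ⟨k, hk, hk2⟩ := hst 0 (Nat.zero_le _)
  rw [cell_zero] at hk2
  have hturn : t = turn (AD d) k s := by
    apply state_unique hd (D := AD d)
    · rw [turn_fst, hk2]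
    · intro i hi
      obtain ⟨j, hj, hij⟩ := hst i hi
      rcases Nat.lt_or_ge j k with h1 | h1
      · refine ⟨j + (d + 1) - k, by omega, ?_⟩
        rw [cell_turn, show k + (j + (d + 1) - k) = j + (d + 1) by omega, cell_period, hij]
      · refine ⟨j - k, by omega, ?_⟩
        rw [cell_turn, show k + (j - k) = j by omega, hij]
  rcases Nat.eq_zero_or_pos k with h0 | h0
  · rw [hturn, h0, turn_zero]
  · exfalso
    -- every cell of `s` other than the cell `k` is a cell of the edge `t`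
    have hfc : ∀ i ≤ d, i ≠ k → ∃ a : Fin d, cell (AD d) s i = fc (AD d) t a := by
      intro i hi hik
      have h1 : ∃ a : ℕ, 1 ≤ a ∧ a ≤ d ∧ cell (AD d) t a = cell (AD d) s i := by
        rw [hturn]
        rcases Nat.lt_or_ge i k with h1 | h1
        · refine ⟨i + (d + 1) - k, by omega, by omega, ?_⟩
          rw [cell_turn, show k + (i + (d + 1) - k) = i + (d + 1) by omega, cell_period]
        · refine ⟨i - k, by omega, by omega, ?_⟩
          rw [cell_turn, show k + (i - k) = i by omega]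
      obtain ⟨a, ha0, ha, hia⟩ := h1
      obtain ⟨b, -, hb⟩ := exists_fc (AD d) t ha0 ha
      exact ⟨b, by rw [hb, hia]⟩
    obtain ⟨j, hj⟩ := exists_fc_eq hs (c s.1)
    have hjl : (j : ℕ) + 1 = k := by
      by_contra hne
      obtain ⟨a, ha⟩ := hfc (j + 1) (by omega) hne
      obtain ⟨b, hb⟩ := hfc 0 (Nat.zero_le _) (by omega)
      have h1 : c (fc (AD d) t a) = c (fc (AD d) t b) := by
        rw [← ha, ← hb, cell_zero]
        exact hj
      have h2 : a = b := ht h1
      rw [h2, ← hb] at ha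
      have := cell_inj (AD d) s (by omega) (Nat.zero_le _) ha
      omega
    have h1 : J (AD d) c s = t := by
      rw [J_eq hs hj, hjl, hturn]
    have h2 := w_J (D := AD d) hd c s
    rw [h1, ← hw] at h2
    rcases w_rb hs with h3 | h3 <;> rw [h3] at h2 <;> norm_num at h2

theorem path_of (hd : 1 ≤ d) [NeZero d] {c : Ast d → Fin d} {s : St d (Ast d)} {m : ℕ}
    (h : Long (AD d) c s m) : IsPath c (fun k => vtx ((Phi (AD d) c ^ k) s)) m := by
  obtain ⟨hr, hl⟩ := h
  have hw : ∀ k, w (AD d) c ((Phi (AD d) c ^ k) s) = w (AD d) c s := by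
    intro k
    induction k with
    | zero => rw [pow_zero]; rfl
    | succ k ih => rw [pow_succ', Equiv.Perm.mul_apply, w_Phi hd, ih]
  have key : ∀ a b : ℕ, a < b → b ≤ m →
      (Phi (AD d) c ^ a) s = (Phi (AD d) c ^ b) s → False := by
    intro a b hab hbm he
    refine hl (b - a) (by omega) (by omega) ?_
    have h1 : (Phi (AD d) c ^ b) s = (Phi (AD d) c ^ a) ((Phi (AD d) c ^ (b - a)) s) := by
      rw [← Equiv.Perm.mul_apply, ← pow_add, show a + (b - a) = b by omega]
    rw [h1] at he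
    exact ((Phi (AD d) c ^ a).injective he).symm
  refine ⟨?_, ?_⟩
  · intro a ha b hb hab
    have h1 : (Phi (AD d) c ^ a) s = (Phi (AD d) c ^ b) s :=
      vtx_inj hd ((rb_Phi_pow a).2 hr) ((rb_Phi_pow b).2 hr) (by rw [hw, hw]) hab
    rcases Nat.lt_trichotomy a b with h2 | h2 | h2
    · exact (key a b h2 hb h1).elim
    · exact h2
    · exact (key b a h2 ha h1.symm).elim
  · intro k _
    have h1 := colEdge hd (c := c) (s := (Phi (AD d) c ^ k) s) ((rb_Phi_pow k).2 hr)
    show ColEdge c (vtx ((Phi (AD d) c ^ k) s)) (vtx ((Phi (AD d) c ^ (k + 1)) s))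
    rw [pow_succ', Equiv.Perm.mul_apply, vtx_Phi_eq]
    exact h1

end Pool.Agent.DCE
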