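import Mathlib

/-!
# Extended phase of the d-colour paths: the sign of a self-map

`sgm f` is the sign of the permutation `f`, and `0` if `f` is not bijective.

PROOFS. `sgm_comp_right`: `f ∘ e` is bijective iff `f` is, and `Equiv.ofBijective (f ∘ e) _ = e.trans (Equiv.ofBijective f _)`
(`Equiv.Perm.sign_trans` or `sign_mul`). `sgm_comp_left` the same. `sgm_cons`: `Fin.cons 0 (fun j => (f j).succ)` is
bijective iff `f` is, and is then `Equiv.Perm.decomposeFin.symm (0, Equiv.ofBijective f _)`
(`Equiv.Perm.decomposeFin.symm_sign`).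
-/

set_option autoImplicit false

namespace Pool.Agent.DCE

open Classical in
/-- the sign of a self-map -/
noncomputable def sgm {n : ℕ} (f : Fin n → Fin n) : ℤ :=
  if h : Function.Bijective f then ((Equiv.Perm.sign (Equiv.ofBijective f h) : ℤˣ) : ℤ) else 0

theorem sgm_eq_zero {n : ℕ} {f : Fin n → Fin n} (h : ¬Function.Injective f) : sgm f = 0 := by
  unfold sgm
  rw [dif_neg (fun hb => h hb.1)]

theorem sgm_perm {n : ℕ} (e : Equiv.Perm (Fin n)) : sgm (fun i => e i) = (Equiv.Perm.sign e : ℤ) := by
  unfold sgm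
  have h : Function.Bijective (fun i => e i) := e.bijective
  rw [dif_pos h]
  have h1 : Equiv.ofBijective (fun i => e i) h = e := by
    ext i
    rfl
  rw [h1]

private theorem exists_perm {n : ℕ} {f : Fin n → Fin n} (h : Function.Injective f) :
    ∃ g : Equiv.Perm (Fin n), f = fun i => g i := by
  refine ⟨Equiv.ofBijective f (Finite.injective_iff_bijective.1 h), ?_⟩
  funext i
  rfl

theorem sgm_comp_right {n : ℕ} (f : Fin n → Fin n) (e : Equiv.Perm (Fin n)) :
    sgm (fun i => f (e i)) = sgm f * (Equiv.Perm.sign e : ℤ) := by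
  by_cases h : Function.Injective f
  · obtain ⟨g, rfl⟩ := exists_perm h
    have h1 : (fun i => g (e i)) = (fun i => (g * e) i) := rfl
    show sgm (fun i => g (e i)) = _
    rw [h1, sgm_perm, sgm_perm, Equiv.Perm.sign_mul]
    push_cast
    ring
  · have h2 : ¬Function.Injective (fun i => f (e i)) := by
      intro h3
      apply h
      intro a b hab
      have h4 := @h3 (e.symm a) (e.symm b) (by simpa using hab)
      exact e.symm.injective h4
    rw [sgm_eq_zero h, sgm_eq_zero h2, zero_mul]

theorem sgm_comp_left {n : ℕ} (f : Fin n → Fin n) (e : Equiv.Perm (Fin n)) :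
    sgm (fun i => e (f i)) = (Equiv.Perm.sign e : ℤ) * sgm f := by
  by_cases h : Function.Injective f
  · obtain ⟨g, rfl⟩ := exists_perm h
    have h1 : (fun i => e (g i)) = (fun i => (e * g) i) := rfl
    show sgm (fun i => e (g i)) = _
    rw [h1, sgm_perm, sgm_perm, Equiv.Perm.sign_mul]
    push_cast
    ring
  · have h2 : ¬Function.Injective (fun i => e (f i)) := by
      intro h3
      apply h
      intro a b hab
      exact h3 (congrArg e hab)
    rw [sgm_eq_zero h, sgm_eq_zero h2, mul_zero]

/-- a bijective self-map has sign `1` or `-1` -/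
theorem sgm_inj {n : ℕ} {f : Fin n → Fin n} (h : Function.Injective f) : sgm f = 1 ∨ sgm f = -1 := by
  obtain ⟨g, rfl⟩ := exists_perm h
  rw [sgm_perm]
  rcases Int.units_eq_one_or (Equiv.Perm.sign g) with h1 | h1
  · left; rw [h1]; rfl
  · right; rw [h1]; rfl

theorem sgm_cons {n : ℕ} (f : Fin n → Fin n) :
    sgm (Fin.cons 0 (fun j => (f j).succ) : Fin (n + 1) → Fin (n + 1)) = sgm f := by
  by_cases h : Function.Injective f
  · obtain ⟨g, rfl⟩ := exists_perm h
    have h1 : (Fin.cons 0 (fun j => (g j).succ) : Fin (n + 1) → Fin (n + 1))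
        = fun i => (Equiv.Perm.decomposeFin.symm (0, g)) i := by
      funext i
      refine Fin.cases ?_ (fun j => ?_) i
      · simp
      · simp
    show sgm (Fin.cons 0 (fun j => (g j).succ) : Fin (n + 1) → Fin (n + 1)) = _
    rw [h1, sgm_perm, sgm_perm, Equiv.Perm.decomposeFin.symm_sign]
    simp
  · have h2 : ¬Function.Injective (Fin.cons 0 (fun j => (f j).succ) : Fin (n + 1) → Fin (n + 1)) := by
      intro h3
      apply h
      intro a b hab
      have h4 := @h3 a.succ b.succ (by simp [hab])
      exact Fin.succ_injective _ h4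
    rw [sgm_eq_zero h, sgm_eq_zero h2]

end Pool.Agent.DCE
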