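import Pool.Agent.DCE.Cong
import Pool.Agent.DCE.Box
import Pool.Agent.DCE.Cg

/-!
# Extended phase of the d-colour paths: small loops

`Small D T c s`: the path of `s` is a finite loop, and the coordinates of all cells of its edges differ by less than `T`.
`Cl D T c q s`, `q = (j, b)`: the path of `s` crosses the hyperplane in an edge one of whose cells has `j`-th coordinate `> 2 T`
(`b = true`) or `< 0` (`b = false`). `ix q`: the region which such a small loop cannot meet.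

PROOFS. `Small_Phi`, `Cl_Phi`: `(Phi ^ a) (Phi s) = (Phi ^ (a+1)) s`; for the converse use the period `k > 0`
(`(Phi ^ (a + k)) s = (Phi ^ a) s`, so `(Phi^a) s = (Phi ^ (a + k - 1)) (Phi s)`).
`Cl_avoid`: let `t = (Phi ^ a) s`, `fc t i` as in `Cl`. If `q.2 = false`: for every cell `z` of the orbit
`xc j z < T + xc j (fc t i) < T`, so `rg z ≠ j` (`rg_spec`). If `q.2 = true`: `xc j z > xc j (fc t i) - T > T`
(`Small` with the roles exchanged), so `j ≤ rg z` (`le_rg`) and `rg z ≠ 0`.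
`Cl_congr`: `cg (update g (ix q) x)` agrees with `cg g` on all cells of the orbit (`cg_update`, `Cl_avoid`), so `orbit_congr`.
-/

set_option autoImplicit false

namespace Pool.Agent.DCE

open Pool.Agent.DCP

variable {d : ℕ} [NeZero d] {L : Type} [AddCommGroup L] {A : Type} [AddCommGroup A]

/-- the path of `s` is a small loop -/
def Small (D : LD d L) (T : ℤ) (c : L → Fin d) (s : St d L) : Prop :=
  (∃ k, 0 < k ∧ (Phi D c ^ k) s = s) ∧
    ∀ (a b : ℕ) (i : Fin (d + 1)) (j j' : Fin d), i ≠ 0 →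
      xc D i (fc D ((Phi D c ^ a) s) j) - xc D i (fc D ((Phi D c ^ b) s) j') < T

/-- the path of `s` crosses the hyperplane outside `M` -/
def Cl (D : LD d L) (T : ℤ) (c : L → Fin d) (q : Fin d × Bool) (s : St d L) : Prop :=
  0 < (q.1 : ℕ) ∧ ∃ (a : ℕ) (i : Fin d), (Up D ((Phi D c ^ a) s) ∨ Dn D ((Phi D c ^ a) s)) ∧
    (if q.2 then 2 * T < xc D q.1.castSucc (fc D ((Phi D c ^ a) s) i)
      else xc D q.1.castSucc (fc D ((Phi D c ^ a) s) i) < 0)

/-- the region which is avoided -/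
def ix (q : Fin d × Bool) : Fin d := if q.2 then 0 else q.1

variable {D : LD d L} {T : ℤ} {e : A ≃ Fin d} {K : Type} [CommRing K]

private theorem pow_Phi90 (c : L → Fin d) (s : St d L) (a : ℕ) :
    (Phi D c ^ a) (Phi D c s) = (Phi D c ^ (a + 1)) s := by
  rw [pow_succ, Equiv.Perm.mul_apply]

private theorem per90 {c : L → Fin d} {s : St d L} (h : ∃ k, 0 < k ∧ (Phi D c ^ k) s = s) (a : ℕ) :
    ∃ a', (Phi D c ^ a) s = (Phi D c ^ a') (Phi D c s) := by
  obtain ⟨k, hk, h1⟩ := h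
  refine ⟨a + (k - 1), ?_⟩
  rw [pow_Phi90, show a + (k - 1) + 1 = a + k by omega, pow_add, Equiv.Perm.mul_apply, h1]

theorem Small_Phi {c : L → Fin d} {s : St d L} : Small D T c (Phi D c s) ↔ Small D T c s := by
  constructor
  · rintro ⟨⟨k, hk, h1⟩, h2⟩
    have h3 : ∃ k, 0 < k ∧ (Phi D c ^ k) s = s := by
      refine ⟨k, hk, ?_⟩
      apply (Phi D c).injective
      rw [pow_Phi90, pow_succ', Equiv.Perm.mul_apply] at h1
      exact h1
    refine ⟨h3, fun a b i j j' hi => ?_⟩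
    obtain ⟨a', ha⟩ := per90 h3 a
    obtain ⟨b', hb⟩ := per90 h3 b
    rw [ha, hb]
    exact h2 a' b' i j j' hi
  · rintro ⟨⟨k, hk, h1⟩, h2⟩
    refine ⟨⟨k, hk, ?_⟩, fun a b i j j' hi => ?_⟩
    · rw [pow_Phi90, pow_succ', Equiv.Perm.mul_apply, h1]
    · rw [pow_Phi90, pow_Phi90]
      exact h2 (a + 1) (b + 1) i j j' hi

theorem Cl_Phi {c : L → Fin d} {q : Fin d × Bool} {s : St d L} (hs : Small D T c s) :
    Cl D T c q (Phi D c s) ↔ Cl D T c q s := by
  constructor
  · rintro ⟨h0, a, i, h1, h2⟩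
    rw [pow_Phi90] at h1 h2
    exact ⟨h0, a + 1, i, h1, h2⟩
  · rintro ⟨h0, a, i, h1, h2⟩
    obtain ⟨a', ha⟩ := per90 hs.1 a
    rw [ha] at h1 h2
    exact ⟨h0, a', i, h1, h2⟩

theorem Cl_avoid {c : L → Fin d} {q : Fin d × Bool} {s : St d L} (hT : 1 ≤ T) (hs : Small D T c s)
    (hq : Cl D T c q s) (a : ℕ) (j : Fin d) : rg D T (fc D ((Phi D c ^ a) s) j) ≠ ix q := by
  have _ := hT
  obtain ⟨h0, a0, i0, -, h1⟩ := hq
  have hne : (q.1.castSucc : Fin (d + 1)) ≠ 0 := by
    intro h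
    have h' : q.1.val = (0 : Fin (d + 1)).val := congrArg Fin.val h
    have h4 : (0 : Fin (d + 1)).val = 0 := rfl
    rw [h4] at h'
    omega
  have e1 := hs.2 a a0 q.1.castSucc j i0 hne
  have e2 := hs.2 a0 a q.1.castSucc i0 j hne
  intro h
  unfold ix at h
  by_cases hb : q.2
  · rw [if_pos hb] at h h1
    have h2 := le_rg D T (fc D ((Phi D c ^ a) s) j) h0 (by linarith)
    rw [h] at h2
    have h3 : q.1.val ≤ (0 : Fin d).val := h2
    have h4 : (0 : Fin d).val = 0 := by simp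
    rw [h4] at h3
    exact absurd h0 (by omega)
  · rw [if_neg hb] at h h1
    have h2 := rg_spec D T (fc D ((Phi D c ^ a) s) j) h0 h
    linarith

/-- changing `g (ix q)` does not change the path -/
theorem Cl_congr {ω : L → Fin d} {g : Fin d → A} {q : Fin d × Bool} {s : St d L} (hT : 1 ≤ T)
    (hr : rb D (cg D T e ω g) s) (hs : Small D T (cg D T e ω g) s) (hq : Cl D T (cg D T e ω g) q s)
    (x : A) (a : ℕ) : (Phi D (cg D T e ω (Function.update g (ix q) x)) ^ a) s =
      (Phi D (cg D T e ω g) ^ a) s ∧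
      ∀ j : Fin d, cg D T e ω (Function.update g (ix q) x) (fc D ((Phi D (cg D T e ω g) ^ a) s) j) =
        cg D T e ω g (fc D ((Phi D (cg D T e ω g) ^ a) s) j) := by
  have h : ∀ (a : ℕ) (j : Fin d),
      cg D T e ω (Function.update g (ix q) x) (fc D ((Phi D (cg D T e ω g) ^ a) s) j) =
        cg D T e ω g (fc D ((Phi D (cg D T e ω g) ^ a) s) j) :=
    fun a j => cg_update ω g x (Cl_avoid hT hs hq a j)
  exact ⟨orbit_congr hr (fun a j => (h a j).symm) a, h a⟩

end Pool.Agent.DCE
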