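import Pool.Agent.DCE.Box
import Pool.Agent.DCE.Cg

/-!
# Extended phase of the d-colour paths: the top face has exactly one rainbow edge

PROOF. Let `c = cg D T e ω g` with `ω = e 0` on the level `xc last = 1`; so `c z = e (g (rg D T z))` there. Let `s` be a
state with `Tp D s` and `inM (fc D s i)` for all `i` and `w D c s ≠ 0`. Then `rb D c s`, so `i ↦ rg (fc D s i)` is injective
`Fin d → Fin d`. The letters `letter s l`, `1 ≤ l < d`, are not `0 = letter s d` and not `last = letter s 0`, so all horizontal coordinates increase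
along `fc D s 0, fc D s 1, ...`; by `rg_mono` `i ↦ rg (fc D s i)` is monotone; a strictly monotone self-map of `Fin d` is
the identity (`StrictMono` and `Finite`; e.g. `Fin.strictMono_unique` or `OrderEmbedding`): `rg (fc D s i) = i`. For
`1 ≤ i < d`: `T ≤ xc i (fc D s i)` (`rg_spec`) and `xc i (fc D s (i-1)) < T` (`le_rg`), so `letter s i = i` (`fc D s i = fc D s (i-1) + v (letter s i)`)
and `xc i (fc D s i) = T`; since the letter `i` does not occur at `0, ..., i - 1`, `xc i s.1 = T - 1` (`xc_cell`). So `s = s0` where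
`letter s0 0 = last`, `letter s0 i = i` (`0 < i < d`), `letter s0 d = 0`, i.e. `s0.2 = Equiv.swap 0 (Fin.last d)`, and
`xc i s0.1 = T - 1` for `0 < i < d`, `xc last s0.1 = 0`, e.g. `s0.1 = ∑ j : Fin d with 0 < j, (T - 1) • D.v j.castSucc`; equality of
the holes by `hL` (apply it to the difference; `xc D 0 = 0`). Conversely for `T ≥ 1` `s0` satisfies `Tp` and `inM` (its `fc i` have coordinates
`T` (`0 < j ≤ i`) or `T - 1` (`i < j`)) and `rg (fc D s0 i) = i`, so `w D c s0 = sign s0.2 * sgm (e ∘ g)`. `ε = sign s0.2`.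
The sum has one possibly nonzero term (`Finset.sum_eq_single s0`; if `s` is another member then `w = 0`).
-/

set_option autoImplicit false

namespace Pool.Agent.DCE

open Pool.Agent.DCP

variable {d : ℕ} [NeZero d] {L : Type} [AddCommGroup L] {A : Type} [AddCommGroup A]

private theorem xc_add' {D : LD d L} (i : Fin (d + 1)) (y z : L) :
    xc D i (y + z) = xc D i y + xc D i z := map_add _ _ _

/-- the letters of an upper boundary state -/
private theorem letter_zero_iff {D : LD d L} {s : St d L} (hs : Tp D s) {l : ℕ} (hl : l ≤ d) :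
    letter s l = 0 ↔ l = d := by
  constructor
  · intro h
    exact letter_inj s hl (le_refl d) (h.trans hs.2.1.symm)
  · rintro rfl
    exact hs.2.1

/-- the horizontal coordinates along the cells of an upper boundary state -/
private theorem xc_tp {D : LD d L} {s : St d L} (hs : Tp D s) (i : Fin (d + 1)) {k : ℕ} (hk : k ≤ d) :
    xc D i (cell D s k) = xc D i s.1 + (if (∃ l < k, letter s l = i) then 1 else 0) := by
  rw [xc_cell D s i (by omega), if_neg (c := ∃ l < k, letter s l = 0), sub_zero]
  rintro ⟨l, hl, h⟩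
  have := (letter_zero_iff hs (by omega)).1 h
  omega

private theorem xc_tp_mono {D : LD d L} {s : St d L} (hs : Tp D s) (i : Fin (d + 1)) {k k' : ℕ}
    (hkk : k ≤ k') (hk : k' ≤ d) : xc D i (cell D s k) ≤ xc D i (cell D s k') := by
  rw [xc_tp hs i (hkk.trans hk), xc_tp hs i hk]
  by_cases h : ∃ l < k, letter s l = i
  · obtain ⟨l, hl, h⟩ := h
    rw [if_pos ⟨l, hl, h⟩, if_pos ⟨l, by omega, h⟩]
  · rw [if_neg h]
    split_ifs <;> omega

/-- the regions of the cells of a rainbow upper boundary edge -/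
private theorem rg_tp {D : LD d L} {T : ℤ} {s : St d L} (hs : Tp D s)
    (hinj : Function.Injective (fun i : Fin d => rg D T (fc D s i))) (i : Fin d) :
    rg D T (fc D s i) = i := by
  have hmono : Monotone (fun i : Fin d => rg D T (fc D s i)) := by
    intro i i' hii
    refine rg_mono D T (fun j _ => ?_)
    exact xc_tp_mono hs _ (Nat.succ_le_succ hii) (by omega)
  have hst : StrictMono (fun i : Fin d => rg D T (fc D s i)) := hmono.strictMono_of_injective hinj
  have hsur : Set.range (fun i : Fin d => rg D T (fc D s i)) = Set.range (id : Fin d → Fin d) := by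
    rw [Set.range_id]
    exact Set.range_eq_univ.2 (Finite.surjective_of_injective hinj)
  exact congrFun ((StrictMono.range_inj hst strictMono_id).1 hsur) i

/-- the letters of the special state -/
private theorem letter_tp {D : LD d L} {T : ℤ} {s : St d L} (hs : Tp D s)
    (hrg : ∀ i : Fin d, rg D T (fc D s i) = i) (i : Fin d) (hi : 0 < (i : ℕ)) :
    letter s i = i.castSucc ∧ xc D i.castSucc s.1 = T - 1 := by
  have h1 : T ≤ xc D i.castSucc (fc D s i) := rg_spec D T _ hi (hrg i)
  have h2 : ¬ T ≤ xc D i.castSucc (cell D s i) := by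
    intro h
    have hi2 := i.2
    have hfc : fc D s ⟨(i : ℕ) - 1, by omega⟩ = cell D s i := by
      rw [fc]
      congr 1
      show (i : ℕ) - 1 + 1 = i
      omega
    rw [← hfc] at h
    have h3 := le_rg D T _ hi h
    rw [hrg, Fin.le_def] at h3
    simp only at h3
    omega
  have h3 : fc D s i = cell D s i + D.v (letter s i) := cell_succ D s i
  rw [h3, xc_add', xc_v] at h1
  have hi2 := i.2
  have h0 : letter s i ≠ 0 := by
    intro h
    have := (letter_zero_iff hs (by omega)).1 h
    omega
  rw [if_neg h0] at h1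
  have h4 : letter s i = i.castSucc := by
    by_contra h
    rw [if_neg h] at h1
    omega
  refine ⟨h4, ?_⟩
  rw [if_pos h4] at h1
  have h5 : xc D i.castSucc (cell D s i) = xc D i.castSucc s.1 := by
    rw [xc_tp hs _ (by omega), if_neg, add_zero]
    rintro ⟨l, hl, h⟩
    have := letter_inj s (by omega) (by omega) (h.trans h4.symm)
    omega
  rw [h5] at h1 h2
  omega

/-- the special state -/
private def s0 (D : LD d L) (T : ℤ) : St d L :=
  (∑ j ∈ (Finset.univ : Finset (Fin d)).filter (fun j : Fin d => 0 < (j : ℕ)), (T - 1) • D.v j.castSucc,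
    Equiv.swap 0 (Fin.last d))

private theorem xc_s0 {D : LD d L} {T : ℤ} (i : Fin (d + 1)) (hi : i ≠ 0) :
    xc D i (s0 D T).1 = if i = Fin.last d then 0 else T - 1 := by
  have h1 : xc D i (s0 D T).1 = ∑ j ∈ (Finset.univ : Finset (Fin d)).filter (fun j : Fin d => 0 < (j : ℕ)),
      (T - 1) * (if j.castSucc = i then 1 else 0) := by
    show D.rt i 0 (∑ j ∈ (Finset.univ : Finset (Fin d)).filter (fun j : Fin d => 0 < (j : ℕ)),
      (T - 1) • D.v j.castSucc) = _
    rw [map_sum]
    refine Finset.sum_congr rfl (fun j hj => ?_)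
    have hj' : 0 < (j : ℕ) := (Finset.mem_filter.1 hj).2
    rw [map_zsmul, D.rt_v, if_neg (c := j.castSucc = 0), sub_zero, smul_eq_mul]
    intro h
    have h' := congrArg Fin.val h
    rw [Fin.val_castSucc, Fin.val_zero] at h'
    omega
  rw [h1]
  revert hi
  refine Fin.lastCases (fun _ => ?_) (fun i' hi' => ?_) i
  · rw [if_pos rfl]
    refine Finset.sum_eq_zero (fun j _ => ?_)
    rw [if_neg, mul_zero]
    exact (Fin.castSucc_lt_last j).ne
  · have hi0 : 0 < (i' : ℕ) := by
      rcases Nat.eq_zero_or_pos (i' : ℕ) with h | h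
      · exfalso
        apply hi'
        ext
        rw [Fin.val_castSucc, h, Fin.val_zero]
      · exact h
    rw [if_neg (Fin.castSucc_lt_last i').ne, Finset.sum_eq_single i']
    · rw [if_pos rfl, mul_one]
    · intro j _ hj
      rw [if_neg, mul_zero]
      intro h
      exact hj (Fin.castSucc_injective d h)
    · intro h
      exfalso
      exact h (Finset.mem_filter.2 ⟨Finset.mem_univ i', hi0⟩)

private theorem letter_s0 {D : LD d L} {T : ℤ} {l : ℕ} (h0 : 0 < l) (h1 : l < d) :
    letter (s0 D T) l = (⟨l, h1⟩ : Fin d).castSucc := by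
  have hv : (Fin.ofNat (d + 1) l : ℕ) = l := Nat.mod_eq_of_lt (by omega)
  have h2 : letter (s0 D T) l = Equiv.swap 0 (Fin.last d) (Fin.ofNat (d + 1) l) := rfl
  rw [h2, Equiv.swap_apply_of_ne_of_ne]
  · ext
    rw [hv, Fin.val_castSucc]
  · intro h
    rw [h, Fin.val_zero] at hv
    omega
  · intro h
    rw [h, Fin.val_last] at hv
    omega

private theorem Tp_s0 {D : LD d L} {T : ℤ} : Tp D (s0 D T) := by
  refine ⟨?_, ?_, ?_⟩
  · rw [letter, ofNat_zero]
    exact Equiv.swap_apply_left _ _
  · rw [letter, ofNat_last]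
    exact Equiv.swap_apply_right _ _
  · rw [xc_s0 _ (Fin.last_pos' ).ne', if_pos rfl]

private theorem xc_fc_s0 {D : LD d L} {T : ℤ} (i j : Fin d) (hj : 0 < (j : ℕ)) :
    xc D j.castSucc (fc D (s0 D T) i) = if j ≤ i then T else T - 1 := by
  have hi := i.2
  rw [fc, xc_tp Tp_s0 _ (by omega), xc_s0, if_neg (Fin.castSucc_lt_last j).ne]
  · by_cases h : j ≤ i
    · rw [if_pos h, if_pos, sub_add_cancel]
      refine ⟨j, Nat.lt_succ_of_le h, ?_⟩
      rw [letter_s0 hj j.2]
    · rw [if_neg h, if_neg, add_zero]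
      rintro ⟨l, hl, hl'⟩
      apply h
      rcases Nat.eq_zero_or_pos l with h0 | h0
      · subst h0
        rw [(Tp_s0 (D := D) (T := T)).1] at hl'
        exact absurd hl' (Fin.castSucc_lt_last j).ne'
      · rw [letter_s0 h0 (by omega)] at hl'
        have h3 := congrArg Fin.val (Fin.castSucc_injective d hl')
        simp only at h3
        rw [Fin.le_def]
        omega
  · intro h
    have h' := congrArg Fin.val h
    rw [Fin.val_castSucc, Fin.val_zero] at h'
    omega

private theorem rg_s0 {D : LD d L} {T : ℤ} (i : Fin d) : rg D T (fc D (s0 D T) i) = i := by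
  refine le_antisymm ?_ ?_
  · rcases Nat.eq_zero_or_pos (rg D T (fc D (s0 D T) i) : ℕ) with h | h
    · rw [Fin.le_def, h]
      exact Nat.zero_le _
    · have h1 := rg_spec D T (fc D (s0 D T) i) h rfl
      rw [xc_fc_s0 i _ h] at h1
      by_contra h2
      rw [if_neg h2] at h1
      omega
  · rcases Nat.eq_zero_or_pos (i : ℕ) with h | h
    · rw [Fin.le_def, h]
      exact Nat.zero_le _
    · refine le_rg D T _ h ?_
      rw [xc_fc_s0 i i h, if_pos (le_refl i)]

/-- uniqueness of the rainbow edge -/
private theorem eq_s0 {D : LD d L} (hL : ∀ z : L, (∀ i, i ≠ 0 → xc D i z = 0) → z = 0) {T : ℤ}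
    {s : St d L} (hs : Tp D s) (hrg : ∀ i : Fin d, rg D T (fc D s i) = i) : s = s0 D T := by
  refine Prod.ext ?_ ?_
  · have h0 : s.1 - (s0 D T).1 = 0 := by
      refine hL _ (fun i hi => ?_)
      have h1 : xc D i (s.1 - (s0 D T).1) = xc D i s.1 - xc D i (s0 D T).1 := map_sub _ _ _
      rw [h1, xc_s0 i hi]
      revert hi
      refine Fin.lastCases (fun _ => ?_) (fun i' hi' => ?_) i
      · rw [if_pos rfl, hs.2.2, sub_zero]
      · have hi0 : 0 < (i' : ℕ) := by
          rcases Nat.eq_zero_or_pos (i' : ℕ) with h | h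
          · exfalso
            apply hi'
            ext
            rw [Fin.val_castSucc, h, Fin.val_zero]
          · exact h
        rw [if_neg (Fin.castSucc_lt_last i').ne, (letter_tp hs hrg i' hi0).2, sub_self]
    exact sub_eq_zero.1 h0
  · have key : ∀ l : ℕ, l ≤ d → letter s l = letter (s0 D T) l := by
      intro l hl
      rcases Nat.eq_zero_or_pos l with h0 | h0
      · subst h0
        rw [hs.1, (Tp_s0 (D := D) (T := T)).1]
      · rcases Nat.lt_or_ge l d with h1 | h1
        · rw [letter_s0 h0 h1, ← (letter_tp hs hrg ⟨l, h1⟩ h0).1]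
        · have h2 : l = d := by omega
          subst h2
          rw [hs.2.1, (Tp_s0 (D := D) (T := T)).2.1]
    ext i
    have h3 := key (i : ℕ) (by omega)
    have hv : Fin.ofNat (d + 1) (i : ℕ) = i := by
      ext
      exact Nat.mod_eq_of_lt i.2
    rw [letter, letter, hv] at h3
    rw [h3]

private theorem colour_tp {D : LD d L} {T : ℤ} {e : A ≃ Fin d} {ω : L → Fin d} {g : Fin d → A}
    (hω : ∀ z, xc D (Fin.last d) z = 1 → ω z = e 0) {s : St d L} (hd : 1 ≤ d) (hs : Tp D s) (j : Fin d) :
    cg D T e ω g (fc D s j) = e (g (rg D T (fc D s j))) := by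
  rw [cg, hω _ (Tp_fc hd hs j), Equiv.symm_apply_apply, zero_add]

open Classical in
theorem top_sum {D : LD d L} {hL : ∀ z : L, (∀ i, i ≠ 0 → xc D i z = 0) → z = 0} {T : ℤ} (hT : 1 ≤ T)
    (hd : 2 ≤ d) (e : A ≃ Fin d) : ∃ ε : ℤ, (ε = 1 ∨ ε = -1) ∧ ∀ (ω : L → Fin d) (g : Fin d → A),
      (∀ z, xc D (Fin.last d) z = 1 → ω z = e 0) →
      ∑ s ∈ (BS D hL (-1) (2 * T + 1)).filter (fun s => Tp D s ∧ ∀ i, inM D T (fc D s i)),
        w D (cg D T e ω g) s = ε * sgm (fun i => e (g i)) := by
  refine ⟨-1, Or.inr rfl, fun ω g hω => ?_⟩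
  rw [Finset.sum_eq_single (s0 D T)]
  · rw [w]
    have h1 : (fun j : Fin d => cg D T e ω g (fc D (s0 D T) j)) = fun i => e (g i) := by
      funext j
      rw [colour_tp hω (by omega) Tp_s0 j, rg_s0]
    rw [h1]
    have h2 : Equiv.Perm.sign (s0 D T).2 = -1 := by
      show Equiv.Perm.sign (Equiv.swap 0 (Fin.last d)) = -1
      rw [Equiv.Perm.sign_swap]
      intro h
      have h' := congrArg Fin.val h
      rw [Fin.val_last, Fin.val_zero] at h'
      omega
    rw [h2]
    rfl
  · intro s hs hne
    obtain ⟨-, hs1, -⟩ := Finset.mem_filter.1 hs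
    apply w_not
    intro hr
    apply hne
    refine eq_s0 hL hs1 (rg_tp hs1 ?_)
    intro i i' hii
    apply hr
    show cg D T e ω g (fc D s i) = cg D T e ω g (fc D s i')
    rw [colour_tp hω (by omega) hs1, colour_tp hω (by omega) hs1]
    simp only at hii
    rw [hii]
  · intro h
    exfalso
    apply h
    refine Finset.mem_filter.2 ⟨?_, Tp_s0, ?_⟩
    · rw [mem_BS]
      intro i hi
      rw [xc_s0 i hi]
      split_ifs <;> constructor <;> omega
    · intro i j hj
      rw [xc_fc_s0 i j hj]
      split_ifs <;> constructor <;> omega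

end Pool.Agent.DCE
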