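import Pool.Agent.DCE.Sgn
import Pool.Agent.DCP.Dyn

/-!
# Extended phase of the d-colour paths: the orientation of a state

`w D c s` is `0` if `s` is not a `d`-colour edge, and otherwise `1` or `-1`: the sign of the letters times the sign of
the colours of the `d` cells of the edge.

PROOFS. `w_R`: `fc_R`, and `(R D s).2 = (swap 0 (last d)).trans s.2` has the opposite sign (`0 ≠ last d`, `1 ≤ d`).
`w_J`: if `¬rb D c s` then `J D c s = s` and `w = 0`. Otherwise let `k = j + 1` with `c (fc D s j) = c s.1`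
(`exists_fc_eq`, `J_eq`), `a = Fin.ofNat (d+1) k`; `J D c s = turn D k s`, whose permutation is
`(Equiv.addLeft a).trans s.2`. Let `C i = c (cell D s i)` for `i : Fin (d+1)` (as `ℕ`), and
`E s : Fin (d+1) → Fin (d+1) := Fin.cons 0 (fun j => (c (fc D s j)).succ)`, i.e. `E s 0 = 0`, `E s i = (C i).succ` for
`i ≠ 0`. Then `E (turn D k s) i = E s (swap 0 a (a + i))` for all `i`: `i = 0`: `swap 0 a a = 0`, both are `0`;
`a + i = 0`: the left side is the colour of the cell `s.1` (`cell_turn`, `cell_period`), which is `C a`, and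
`swap 0 a 0 = a`; all other `i`: `cell_turn` and `cell_period`. By `sgm_cons`, `sgm_comp_right` (twice):
`sgm (colours of turn) = sgm (colours of s) * sign (addLeft a) * sign (swap 0 a)` with `sign (swap 0 a) = -1`, and
`sign (turn D k s).2 = sign (addLeft a) * sign s.2`, so the product changes by `-1` (`sign * sign = 1`).
`w_perm`: `sgm_comp_left`. `J_perm`: `rb` and the equation `c (fc D s j) = c s.1` are the same for `τ ∘ c`
(use `J_eq`, `J_not`). 
-/

set_option autoImplicit false

namespace Pool.Agent.DCE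

open Pool.Agent.DCP

variable {d : ℕ} {L : Type} [AddCommGroup L]

/-- the orientation of a state -/
noncomputable def w (D : LD d L) (c : L → Fin d) (s : St d L) : ℤ :=
  (Equiv.Perm.sign s.2 : ℤ) * sgm (fun j : Fin d => c (fc D s j))

variable {D : LD d L}

private theorem w_cell_mod (s : St d L) (n : ℕ) : cell D s n = cell D s (n % (d + 1)) := by
  have h : ∀ m q : ℕ, cell D s (m + (d + 1) * q) = cell D s m := by
    intro m q
    induction q with
    | zero => rw [Nat.mul_zero, Nat.add_zero]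
    | succ q ih => rw [Nat.mul_succ, ← Nat.add_assoc, cell_period, ih]
  conv_lhs => rw [← Nat.mod_add_div n (d + 1)]
  exact h _ _

/-- the colours of the cells, `0` for the hole -/
private def w_E (D : LD d L) (c : L → Fin d) (s : St d L) : Fin (d + 1) → Fin (d + 1) :=
  Fin.cons 0 (fun j => (c (fc D s j)).succ)

private theorem w_E_ne (c : L → Fin d) (s : St d L) {i : Fin (d + 1)} (hi : i ≠ 0) :
    w_E D c s i = (c (cell D s (i : ℕ))).succ := by
  obtain ⟨j, rfl⟩ := Fin.exists_succ_eq.2 hi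
  rw [w_E, Fin.cons_succ, Fin.val_succ]
  rfl

theorem w_not {c : L → Fin d} {s : St d L} (h : ¬rb D c s) : w D c s = 0 := by
  rw [w, sgm_eq_zero h, mul_zero]

theorem w_rb {c : L → Fin d} {s : St d L} (h : rb D c s) : w D c s = 1 ∨ w D c s = -1 := by
  rw [w]
  rcases Int.units_eq_one_or (Equiv.Perm.sign s.2) with h1 | h1 <;> rcases sgm_inj h with h2 | h2 <;>
    rw [h1, h2] <;> simp

theorem w_ne {c : L → Fin d} {s : St d L} (h : w D c s ≠ 0) : rb D c s := by
  by_contra h1
  exact h (w_not h1)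

/-- `w` depends only on the colours of the cells of the edge -/
theorem w_congr {c c' : L → Fin d} {s : St d L} (h : ∀ j : Fin d, c (fc D s j) = c' (fc D s j)) :
    w D c s = w D c' s := by
  rw [w, w]
  simp only [h]

theorem w_R (hd : 1 ≤ d) (c : L → Fin d) (s : St d L) : w D c (R D s) = -w D c s := by
  rw [w, w]
  simp only [fc_R]
  have h0 : (0 : Fin (d + 1)) ≠ Fin.last d := by
    intro h
    have := congrArg Fin.val h
    simp at this
    omega
  have h1 : Equiv.Perm.sign (R D s).2 = -Equiv.Perm.sign s.2 := by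
    show Equiv.Perm.sign ((Equiv.swap 0 (Fin.last d)).trans s.2) = _
    rw [Equiv.Perm.sign_trans, Equiv.Perm.sign_swap h0, mul_neg, mul_one]
  rw [h1, Units.val_neg, neg_mul]

private theorem w_turn {c : L → Fin d} {s : St d L} {j : Fin d} (hj : c (fc D s j) = c s.1) :
    w D c (turn D (j + 1) s) = -w D c s := by
  obtain ⟨a, ha⟩ : ∃ a : Fin (d + 1), a = Fin.ofNat (d + 1) (j + 1) := ⟨_, rfl⟩
  have hj2 := j.2
  have hav : (a : ℕ) = j + 1 := by
    rw [ha]
    simp [Fin.ofNat, Nat.mod_eq_of_lt (show (j : ℕ) + 1 < d + 1 by omega)]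
  have ha0 : a ≠ 0 := by
    intro h
    rw [h] at hav
    simp at hav
  have key : ∀ i, w_E D c (turn D (j + 1) s) i =
      w_E D c s (((Equiv.addLeft a).trans (Equiv.swap 0 a)) i) := by
    intro i
    show _ = w_E D c s (Equiv.swap 0 a (a + i))
    by_cases hi : i = 0
    · rw [hi, add_zero, Equiv.swap_apply_right]
      rfl
    · rw [w_E_ne c _ hi, cell_turn]
      have hv : ((a + i : Fin (d + 1)) : ℕ) = (j + 1 + i) % (d + 1) := by
        rw [Fin.val_add, hav]
      rw [w_cell_mod, ← hv]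
      by_cases hb : a + i = 0
      · rw [hb, Equiv.swap_apply_left, w_E_ne c s ha0, hav]
        show (c (cell D s 0)).succ = (c (fc D s j)).succ
        rw [cell_zero, hj]
      · have hb2 : a + i ≠ a := fun h => hi (by simpa using h)
        rw [Equiv.swap_apply_of_ne_of_ne hb hb2, w_E_ne c s hb]
  have h1 : sgm (fun i : Fin d => c (fc D (turn D (j + 1) s) i)) =
      sgm (fun i : Fin d => c (fc D s i)) * -(Equiv.Perm.sign (Equiv.addLeft a) : ℤ) := by
    rw [← sgm_cons (fun i : Fin d => c (fc D (turn D (j + 1) s) i)),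
      ← sgm_cons (fun i : Fin d => c (fc D s i))]
    show sgm (w_E D c (turn D (j + 1) s)) = sgm (w_E D c s) * _
    rw [show w_E D c (turn D (j + 1) s) = fun i =>
      w_E D c s (((Equiv.addLeft a).trans (Equiv.swap 0 a)) i) from funext key, sgm_comp_right,
      Equiv.Perm.sign_trans, Equiv.Perm.sign_swap (Ne.symm ha0), neg_mul, one_mul, Units.val_neg]
  have h2 : (Equiv.Perm.sign (turn D (j + 1) s).2 : ℤ) =
      (Equiv.Perm.sign s.2 : ℤ) * (Equiv.Perm.sign (Equiv.addLeft a) : ℤ) := by
    show ((Equiv.Perm.sign ((Equiv.addLeft (Fin.ofNat (d + 1) (j + 1))).trans s.2) : ℤˣ) : ℤ) = _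
    rw [← ha, Equiv.Perm.sign_trans, Units.val_mul]
  have h3 : (Equiv.Perm.sign (Equiv.addLeft a) : ℤ) * (Equiv.Perm.sign (Equiv.addLeft a) : ℤ) = 1 :=
    Int.units_coe_mul_self _
  rw [w, w, h1, h2]
  linear_combination (-(Equiv.Perm.sign s.2 : ℤ) * sgm (fun i : Fin d => c (fc D s i))) * h3

theorem w_J (hd : 1 ≤ d) (c : L → Fin d) (s : St d L) : w D c (J D c s) = -w D c s := by
  have _ := hd
  by_cases h : rb D c s
  · obtain ⟨j, hj⟩ := exists_fc_eq h (c s.1)
    rw [J_eq h hj]
    exact w_turn hj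
  · rw [J_not h, w_not h, neg_zero]

theorem w_Phi (hd : 1 ≤ d) (c : L → Fin d) (s : St d L) : w D c (Phi D c s) = w D c s := by
  rw [Phi_apply, w_J hd, w_R hd, neg_neg]

/-- permuting the colours -/
theorem w_perm (c : L → Fin d) (τ : Equiv.Perm (Fin d)) (s : St d L) :
    w D (fun x => τ (c x)) s = (Equiv.Perm.sign τ : ℤ) * w D c s := by
  rw [w, w, sgm_comp_left (fun j : Fin d => c (fc D s j)) τ]
  ring

theorem rb_perm {c : L → Fin d} {τ : Equiv.Perm (Fin d)} {s : St d L} :
    rb D (fun x => τ (c x)) s ↔ rb D c s :=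
  τ.injective.of_comp_iff (fun j : Fin d => c (fc D s j))

theorem J_perm (c : L → Fin d) (τ : Equiv.Perm (Fin d)) (s : St d L) :
    J D (fun x => τ (c x)) s = J D c s := by
  by_cases h : rb D c s
  · obtain ⟨j, hj⟩ := exists_fc_eq h (c s.1)
    rw [J_eq h hj]
    exact J_eq (rb_perm.2 h) (by
      show τ (c (fc D s j)) = τ (c s.1)
      rw [hj])
  · rw [J_not h, J_not (fun h1 => h (rb_perm.1 h1))]

theorem Phi_perm (c : L → Fin d) (τ : Equiv.Perm (Fin d)) :
    Phi D (fun x => τ (c x)) = Phi D c := by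
  ext1 s
  rw [Phi_apply, Phi_apply, J_perm]

/-- the hole of `J D c s` is not `s.1`; in particular `J D c s ≠ s` for a `d`-colour edge -/
theorem J_ne {c : L → Fin d} {s : St d L} (h : rb D c s) : J D c s ≠ s := by
  obtain ⟨j, hj⟩ := exists_fc_eq h (c s.1)
  rw [J_eq h hj]
  intro h1
  exact fc_ne D s j (congrArg Prod.fst h1)

end Pool.Agent.DCE
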